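import Pool.Agent.N926.F54.Q

/-! the character sum modulo `p^2` -/

set_option autoImplicit false
set_option linter.unusedVariables false
set_option linter.unusedSectionVars false

namespace Pool.Agent.N926.F54

open Finset Pool.Agent.N926.Sup2 Pool.Agent.N926.Sup

theorem Dv_eq {p : ℕ} {n : ℤ} {a b : ℚ} (h : a = b) (ha : Dv p n a) : Dv p n b := h ▸ ha

theorem Dv_of_modEq {p : ℕ} [hp : Fact p.Prime] {n : ℕ} {a b : ℤ} (h : a ≡ b [ZMOD (p:ℤ)^n]) : Dv p n ((a:ℚ) - b) := by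
  obtain ⟨c, hc⟩ := h.symm.dvd
  have e : (a:ℚ) - b = (p:ℚ)^n * (c:ℚ) := by
    have := congrArg (fun z : ℤ => (z:ℚ)) hc
    push_cast at this
    exact this
  rw [e]
  exact (Dv.p_pow n).mul0 (Dv.int c)

section
variable (p : ℕ) [hp : Fact p.Prime] {i : ℕ}

/-- the second order term as an integer -/
def kz (B : ℕ) : ℤ := ∑ x : ZMod p, (1 + ((x.val:ℤ)^3)^p)^B * gz p ((x.val:ℤ)^3)

theorem kz_zmod (B : ℕ) : ((kz p B : ℤ) : ZMod p) = kap p B := by
  unfold kz kap gz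
  push_cast
  refine sum_congr rfl fun x _ => ?_
  rw [ZMod.natCast_zmod_val, ZMod.pow_card]
  congr 1
  refine sum_congr rfl fun s _ => ?_
  rw [pow_mul]

theorem Sc_mod (h2 : p ≠ 2) (hi : p = 6*i+1) {B : ℕ} (hB : B + 1 = 3*i) :
    Sc p 1 ≡ ∑ x : ZMod p, (1 + ((x.val:ℤ)^3)^p)^(3*i) + p * (3*i) * kz p B [ZMOD (p:ℤ)^2] := by
  unfold Sc kz
  rw [mul_sum, ← sum_add_distrib]
  refine Int.ModEq.sum fun x _ => ?_
  have h1 := qc_cong p h2 (h := 3*i) (by omega) ((x.val:ℤ)^3 + 1)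
  have e1 : (((x.val:ℤ)^3 + 1 : ℤ) : ZMod p) = x^3 + 1 := by
    push_cast
    rw [ZMod.natCast_zmod_val]
  rw [e1] at h1
  refine h1.trans ?_
  rw [mul_comm (3*i) p, pow_mul, gz_eq, ← hB]
  refine (add_p_pow p _ _ B).trans ?_
  have : ((B:ℤ)+1) = 3*i := by exact_mod_cast hB
  rw [this]

theorem U_mod (hi : p = 6*i+1) (i1 : 1 ≤ i) :
    ∑ x : ZMod p, (1 + ((x.val:ℤ)^3)^p)^(3*i) ≡ p + (p-1) * ((3*i).choose (2*i) : ℕ) [ZMOD (p:ℤ)^2] := by
  have h1 : ∑ x : ZMod p, (1 + ((x.val:ℤ)^3)^p)^(3*i) =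
      ∑ l ∈ range (3*i+1), (((3*i).choose l : ℕ) : ℤ) * ∑ x : ZMod p, ((x.val:ℤ))^(p*(3*l)) := by
    rw [sum_congr rfl (fun x _ => ?_), sum_comm]
    · exact sum_congr rfl fun l _ => (mul_sum _ _ _).symm
    · rw [add_comm, add_pow]
      refine sum_congr rfl fun l _ => ?_
      rw [one_pow, mul_one, ← pow_mul, ← pow_mul, mul_comm, show 3*(p*l) = p*(3*l) by ring]
  rw [h1]
  obtain ⟨g, hinj, hg1, -⟩ := enum p
  have key : ∀ l ∈ range (3*i+1), (((3*i).choose l : ℕ) : ℤ) * ∑ x : ZMod p, ((x.val:ℤ))^(p*(3*l)) ≡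
      (if l = 0 then (p:ℤ) else 0) + (if l = 2*i then (p-1)*(((3*i).choose (2*i) : ℕ) : ℤ) else 0) [ZMOD (p:ℤ)^2] := by
    intro l hl
    rw [mem_range] at hl
    by_cases l0 : l = 0
    · rw [if_pos l0, if_neg (by omega), add_zero, l0]
      simp [ZMod.card]
    · by_cases l2 : l = 2*i
      · rw [if_neg l0, if_pos l2, zero_add, l2]
        have := pow_sum_one p (r := 1) one_pos
        rw [mul_one, show p - 1 = 3*(2*i) by omega] at this
        rw [mul_comm ((p:ℤ)-1)]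
        exact this.mul_left _
      · rw [if_neg l0, if_neg l2, add_zero]
        have hgm : (g:ZMod p)^(3*l) ≠ 1 := by
          intro h
          by_cases hlt : 3*l < 6*i
          · have := hinj (3*l) 0 (by omega) (by omega) (by rw [h, pow_zero])
            omega
          · have e : 3*l = (p-1) + (3*l-6*i) := by omega
            rw [e, pow_add, hg1, one_mul] at h
            have := hinj (3*l-6*i) 0 (by omega) (by omega) (by rw [h, pow_zero])
            omega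
        have := (pow_sum_zero p (m := 3*l) (g:ZMod p) g.ne_zero hgm).mul_left (((3*i).choose l : ℕ) : ℤ)
        rw [mul_zero] at this
        exact this
  refine (Int.ModEq.sum key).trans ?_
  rw [sum_add_distrib, sum_ite_eq' , sum_ite_eq', if_pos (mem_range.2 (by omega)), if_pos (mem_range.2 (by omega))]

theorem choose_refl_mod (hi : p = 6*i+1) : (((4*i).choose i : ℕ) : ZMod p) = (-1)^i * (((3*i).choose i : ℕ) : ZMod p) := by
  have h1 := Nat.ascFactorial_eq_factorial_mul_choose (3*i) i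
  have h2 := Nat.descFactorial_eq_factorial_mul_choose (3*i) i
  rw [Nat.ascFactorial_eq_prod_range, show 3*i+i = 4*i by ring] at h1
  rw [Nat.descFactorial_eq_prod_range] at h2
  have h3 := congrArg (fun z : ℕ => (z : ZMod p)) h1
  have h4 := congrArg (fun z : ℕ => (z : ZMod p)) h2
  simp only [Nat.cast_prod, Nat.cast_mul] at h3 h4
  have h5 : ∏ j ∈ range i, ((3*i+1+j : ℕ) : ZMod p) = (-1)^i * ∏ j ∈ range i, ((3*i-j : ℕ) : ZMod p) := by
    rw [show (-1:ZMod p)^i = ∏ j ∈ range i, (-1:ZMod p) by simp, ← prod_mul_distrib]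
    refine prod_congr rfl fun j hj => ?_
    rw [mem_range] at hj
    have e : ((3*i+1+j + (3*i-j) : ℕ) : ZMod p) = 0 := by
      rw [show 3*i+1+j + (3*i-j) = p by omega, ZMod.natCast_self]
    rw [Nat.cast_add] at e
    linear_combination e
  rw [h5, h4] at h3
  have h6 : ((i.factorial : ℕ) : ZMod p) ≠ 0 := by
    intro h
    rw [ZMod.natCast_eq_zero_iff, hp.out.dvd_factorial] at h
    omega
  apply mul_left_cancel₀ h6
  rw [← h3]
  ring

end

section
variable {p : ℕ} [hp : Fact p.Prime] {i : ℕ}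

theorem CC_eq (i : ℕ) : CC i = (((3*i).choose i : ℕ) : ℚ) := by
  unfold CC
  rw [Nat.cast_choose ℚ (by omega : i ≤ 3*i), show 3*i-i = 2*i by omega]

theorem choose_unit {a b : ℕ} (h : b ≤ a) (ha : a < p) : ¬ p ∣ a.choose b := by
  intro hd
  have h1 : a.choose b ∣ a.factorial := by
    rw [← Nat.choose_mul_factorial_mul_factorial h, mul_assoc]
    exact Dvd.intro _ rfl
  have := (hp.out.dvd_factorial).1 (hd.trans h1)
  omega

theorem kap_cong (hi : p = 6*i+1) (i1 : 1 ≤ i) {B : ℕ} (hB : B + 1 = 3*i) :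
    Dv p 1 (3*(i:ℚ) * (kz p B : ℤ) - (-(CC i)⁻¹ - 1 - CC i * (om i + 1))) := by
  have b1 := Br_kq p hi i1 hB
  have b2 : Br p ((kz p B : ℤ) : ℚ) (kap p B) := by
    have := Br.ofInt (p := p) (kz p B)
    rwa [kz_zmod] at this
  have d1 : Dv p 1 ((kz p B : ℤ) - kq i B) := (b2.sub b1).zero (by ring)
  have d2 := smul_int (3*i) d1
  have ev := kq_eval i1 hB
  have c4 : ¬ p ∣ (4*i).choose (3*i) := choose_unit (by omega) (by omega)
  have c6 : ¬ p ∣ (6*i).choose (3*i) := choose_unit (by omega) (by omega)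
  have c3 : ¬ p ∣ (3*i).choose i := choose_unit (by omega) (by omega)
  have n4 : (((4*i).choose (3*i) : ℕ) : ℚ) ≠ 0 := by
    have := Nat.choose_pos (show 3*i ≤ 4*i by omega)
    positivity
  have n6 : (((6*i).choose (3*i) : ℕ) : ℚ) ≠ 0 := by
    have := Nat.choose_pos (show 3*i ≤ 6*i by omega)
    positivity
  have n3 : (((3*i).choose i : ℕ) : ℚ) ≠ 0 := by
    have := Nat.choose_pos (show i ≤ 3*i by omega)
    positivity
  -- first
  have k1 : Dv p 1 ((-1:ℚ)^B / ((4*i).choose (3*i) : ℕ) + (CC i)⁻¹) := by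
    rw [CC_eq]
    have e : (-1:ℚ)^B / ((4*i).choose (3*i) : ℕ) + ((((3*i).choose i : ℕ) : ℚ))⁻¹ =
      ((-1)^B * ((3*i).choose i : ℕ) + ((4*i).choose (3*i) : ℕ)) / (((4*i).choose (3*i) : ℕ) : ℚ) / (((3*i).choose i : ℕ) : ℚ) := by
      field_simp
    rw [e]
    refine Dv.div_unit (Dv.div_unit ?_ (unit_nat c4)) (unit_nat c3)
    have h1 : (((-1)^B * ((3*i).choose i : ℕ) + ((4*i).choose (3*i) : ℕ) : ℤ) : ZMod p) = 0 := by
      push_cast
      have : (4*i).choose (3*i) = (4*i).choose i := by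
        rw [← Nat.choose_symm (show i ≤ 4*i by omega), show 4*i-i = 3*i by omega]
      rw [this, choose_refl_mod p hi, sgn_flip (R := ZMod p) (s := B) (l := i) (m := 2*i) (by omega)]
      ring
    have := (Br.ofInt (p := p) ((-1)^B * ((3*i).choose i : ℕ) + ((4*i).choose (3*i) : ℕ) : ℤ)).zero h1
    push_cast at this
    exact this
  have k2 : Dv p 1 ((-1:ℚ)^B / ((6*i).choose (3*i) : ℕ) + 1) := by
    have e : (-1:ℚ)^B / ((6*i).choose (3*i) : ℕ) + 1 =
      ((-1)^B + ((6*i).choose (3*i) : ℕ)) / (((6*i).choose (3*i) : ℕ) : ℚ) := by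
      field_simp
    rw [e]
    refine Dv.div_unit ?_ (unit_nat c6)
    have h1 : (((-1)^B + ((6*i).choose (3*i) : ℕ) : ℤ) : ZMod p) = 0 := by
      push_cast
      have := choose_pm1 p (k := 3*i) (by omega)
      rw [show p - 1 = 6*i by omega] at this
      rw [this, ← hB, pow_succ]
      ring
    have := (Br.ofInt (p := p) ((-1)^B + ((6*i).choose (3*i) : ℕ) : ℤ)).zero h1
    push_cast at this
    exact this
  have := (d2.add k1).add k2
  have e : (((3*i : ℕ) : ℚ) * ((kz p B : ℤ) - kq i B)) + ((-1:ℚ)^B / ((4*i).choose (3*i) : ℕ) + (CC i)⁻¹) +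
    ((-1:ℚ)^B / ((6*i).choose (3*i) : ℕ) + 1) =
    3*(i:ℚ) * (kz p B : ℤ) - (-(CC i)⁻¹ - 1 - CC i * (om i + 1)) := by
    push_cast
    linear_combination -ev
  rw [e] at this
  exact this

theorem Sc_cong (h2 : p ≠ 2) (hi : p = 6*i+1) (i1 : 1 ≤ i) :
    Dv p 2 ((Sc p 1 : ℤ) + (CC i + p * (CC i * om i + (CC i)⁻¹))) := by
  obtain ⟨B, hB⟩ : ∃ B, B + 1 = 3*i := ⟨3*i-1, by omega⟩
  have a1 := Dv_of_modEq (Sc_mod p h2 hi hB)
  have a2 := Dv_of_modEq (U_mod p hi i1)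
  have a3 := (Dv.p1 (p := p)).mul (kap_cong hi i1 hB)
  have h8 : CC i = (((3*i).choose (2*i) : ℕ) : ℚ) := by
    unfold CC
    rw [Nat.cast_choose ℚ (by omega : 2*i ≤ 3*i), show 3*i-2*i = i by omega, mul_comm (i.factorial : ℚ)]
  have := (a1.add a2).add (a3.mono (by norm_num : (2:ℤ) ≤ 1+1))
  push_cast at this
  rw [← h8] at this
  refine Dv_eq ?_ this
  ring

theorem item_one (h2 : p ≠ 2) (h3 : p ≠ 3) (hi : p = 6*i+1) (i1 : 1 ≤ i) {x y : ℤ} (h : x^2 + 3*y^2 = p) :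
    Dv p 2 (S0 p - (4*(x:ℚ)^2 - 2*p)) := by
  have s := S0_one (p := p) h2 h3 hi i1
  have sc := Sc_cong (p := p) h2 hi i1
  have c3 : ¬ p ∣ (3*i).choose i := choose_unit (by omega) (by omega)
  have n3 : (((3*i).choose i : ℕ) : ℚ) ≠ 0 := by
    have := Nat.choose_pos (show i ≤ 3*i by omega)
    positivity
  have hC : CC i ≠ 0 := by rw [CC_eq]; exact n3
  have dC : Dv p 0 (CC i) := by rw [CC_eq]; exact Dv.nat _
  have dC' : Dv p 0 ((CC i)⁻¹) := by
    have := Dv.div_unit (p := p) Dv.one (unit_nat c3)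
    rw [CC_eq, inv_eq_one_div]
    exact this
  have dom : Dv p 0 (om i) := by
    unfold om
    have n : ∀ m : ℕ, Dv p 0 ((m:ℕ):ℚ) := fun m => Dv.nat m
    have h1 : Dv p 0 (Hs 1 i) := Hs_int (by omega)
    have h22 : Dv p 0 (Hs 1 (2*i)) := Hs_int (by omega)
    have h33 : Dv p 0 (Hs 1 (3*i)) := Hs_int (by omega)
    have := (((n (3*i)).mul0 h33).sub ((n i).mul0 h1)).sub ((n (2*i)).mul0 h22)
    push_cast at this
    exact this
  set w := CC i * om i + (CC i)⁻¹ with hw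
  have dw : Dv p 0 w := (dC.mul0 dom).add dC'
  set S : ℚ := ((Sc p 1 : ℤ) : ℚ) with hS
  have h4 : S^2 = 4*(x:ℚ)^2 := by
    have := congrArg (fun z : ℤ => (z:ℚ)) (Sc_four p hi i1 h)
    push_cast at this
    exact this
  -- S^2 = (C + p w)^2 + ...
  have dS : Dv p 0 (S - (CC i + p*w)) := by
    rw [hS]
    exact (Dv.int _).sub (dC.add (((Dv.p1 (p := p)).mono (by norm_num)).mul0 dw))
  have k1 : Dv p 2 (S^2 - (CC i + p*w)^2) := by
    have := sc.mul0 dS
    have e : (S + (CC i + p*w)) * (S - (CC i + p*w)) = S^2 - (CC i + p*w)^2 := by ring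
    rw [e] at this
    exact this
  have k2 : Dv p 2 ((p:ℚ)^2 * w^2) := (Dv.p_pow 2).mul0 (by simpa using dw.pow 2)
  have := (s.sub k1).sub k2
  refine Dv_eq ?_ this
  rw [← h4]
  have hc2 : CC i * w = CC i^2 * om i + 1 := by rw [hw]; field_simp
  linear_combination (2*(p:ℚ)) * hc2

end

end Pool.Agent.N926.F54
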