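import Pool.Agent.N926.Sup2.I

/-! `∑_{n ≤ h} (3n+1) t_n^3 4^n` as a terminating sum with small terms -/

set_option autoImplicit false
set_option linter.unusedVariables false

namespace Pool.Agent.N926.F54

open Finset Pool.Agent.N926.Sup2

def Ch (h : ℕ) : ℚ := ((2*h+1).factorial:ℚ)^2 / (16^h * (h.factorial:ℚ)^4)

def R (h k : ℕ) : ℚ := if 2*k ≤ h then
  Ch h * ((-1)^k * ((3*h+1-2*k).factorial:ℚ) / ((k.factorial:ℚ) *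
    ((2*h+1-k).factorial:ℚ) * ((h-2*k).factorial:ℚ) * (2*(h:ℚ)+1-2*k))) else 0

def wt (h k : ℕ) : ℚ := if 2*k ≤ h+2 then
  (-1)^k * ((3*h+1-2*k).factorial:ℚ) / ((k.factorial:ℚ) * ((2*h+5-k).factorial:ℚ) *
    ((h+2-2*k).factorial : ℚ) * (2*(h:ℚ)+5-2*k) * (2*(h:ℚ)+3-2*k) * (2*(h:ℚ)+1-2*k)) else 0

theorem Ch_succ (h : ℕ) : Ch (h+1) = Ch h * ((2*(h:ℚ)+3)^2 / (4*((h:ℚ)+1)^2)) := by
  unfold Ch
  have e : 2*(h+1)+1 = 2*h+1+1+1 := by ring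
  rw [e, Nat.factorial_succ (2*h+1+1), Nat.factorial_succ (2*h+1), Nat.factorial_succ h, pow_succ 16 h]
  have f1 : ((2*h+1).factorial:ℚ) ≠ 0 := by positivity
  have f2 : (h.factorial:ℚ) ≠ 0 := by positivity
  have f3 : ((h:ℚ)+1) ≠ 0 := by positivity
  push_cast
  field_simp
  ring

theorem pos1 {h k : ℕ} (h1 : 1 ≤ h) (hk : 2*k ≤ h+2) : (0:ℚ) < 2*(h:ℚ)+1-2*k := by
  have : 2*k < 2*h+1 := by omega
  have h2 : (2*(k:ℚ)) < 2*h+1 := by exact_mod_cast this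
  linarith

theorem cast_eq {a b : ℕ} (h : a = b) : (a:ℚ) = (b:ℚ) := by rw [h]

theorem R0 {h : ℕ} (h1 : 1 ≤ h) (k : ℕ) : R h k = Ch h * wt h k *
    ((2*(h:ℚ)+5-k)*(2*(h:ℚ)+4-k)*(2*(h:ℚ)+3-k)*(2*(h:ℚ)+2-k)*((h:ℚ)+2-2*k)*((h:ℚ)+1-2*k)*
    (2*(h:ℚ)+5-2*k)*(2*(h:ℚ)+3-2*k)) := by
  rcases Nat.lt_or_ge (h+2) (2*k) with hk | hk
  · unfold R wt
    rw [if_neg (by omega), if_neg (by omega)]; simp
  rcases Nat.lt_or_ge h (2*k) with hk2 | hk2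
  · unfold R
    rw [if_neg (by omega)]
    rcases (by omega : 2*k = h+1 ∨ 2*k = h+2) with e | e
    · have := cast_eq e
      push_cast at this
      have e2 : ((h:ℚ)+1-2*k) = 0 := by linarith
      rw [e2]; ring
    · have := cast_eq e
      push_cast at this
      have e2 : ((h:ℚ)+2-2*k) = 0 := by linarith
      rw [e2]; ring
  obtain ⟨d, hd⟩ : ∃ d, h = 2*k+d := ⟨h-2*k, by omega⟩
  obtain ⟨a, ha⟩ : ∃ a, 2*h+1 = k+a := ⟨2*h+1-k, by omega⟩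
  unfold R wt
  rw [if_pos (by omega), if_pos (by omega)]
  have e1 : 2*h+1-k = a := by omega
  have e2 : 2*h+5-k = a+1+1+1+1 := by omega
  have e3 : h-2*k = d := by omega
  have e4 : h+2-2*k = d+1+1 := by omega
  have c1 : (a:ℚ) = 2*h+1-k := by
    have := cast_eq ha
    push_cast at this
    linarith
  have c2 : (d:ℚ) = h-2*k := by
    have := cast_eq hd
    push_cast at this
    linarith
  rw [e1, e2, e3, e4, Nat.factorial_succ (a+1+1+1), Nat.factorial_succ (a+1+1), Nat.factorial_succ (a+1),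
    Nat.factorial_succ a, Nat.factorial_succ (d+1), Nat.factorial_succ d]
  have p1 := pos1 h1 hk
  have p2 : (0:ℚ) < 2*(h:ℚ)+3-2*k := by linarith
  have p3 : (0:ℚ) < 2*(h:ℚ)+5-2*k := by linarith
  have q1 : (0:ℚ) < (a:ℚ)+1 := by positivity
  have q2 : (0:ℚ) < (a:ℚ)+1+1 := by positivity
  have q3 : (0:ℚ) < (a:ℚ)+1+1+1 := by positivity
  have q4 : (0:ℚ) < (a:ℚ)+1+1+1+1 := by positivity
  have q5 : (0:ℚ) < (d:ℚ)+1 := by positivity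
  have q6 : (0:ℚ) < (d:ℚ)+1+1 := by positivity
  have g1 : (2*(h:ℚ)+2-k) = (a:ℚ)+1 := by rw [c1]; ring
  have g2 : (2*(h:ℚ)+3-k) = (a:ℚ)+1+1 := by rw [c1]; ring
  have g3 : (2*(h:ℚ)+4-k) = (a:ℚ)+1+1+1 := by rw [c1]; ring
  have g4 : (2*(h:ℚ)+5-k) = (a:ℚ)+1+1+1+1 := by rw [c1]; ring
  have g5 : ((h:ℚ)+1-2*k) = (d:ℚ)+1 := by rw [c2]; ring
  have g6 : ((h:ℚ)+2-2*k) = (d:ℚ)+1+1 := by rw [c2]; ring
  rw [g1, g2, g3, g4, g5, g6]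
  have f1 : ((k).factorial:ℚ) ≠ 0 := by positivity
  have f2 : ((a).factorial:ℚ) ≠ 0 := by positivity
  have f3 : ((d).factorial:ℚ) ≠ 0 := by positivity
  have p1' := p1.ne'
  have p2' := p2.ne'
  have p3' := p3.ne'
  push_cast
  generalize 2*(h:ℚ)+1-2*k = u1 at *
  generalize 2*(h:ℚ)+3-2*k = u2 at *
  generalize 2*(h:ℚ)+5-2*k = u3 at *
  generalize ((3*h+1-2*k).factorial:ℚ) = u4 at *
  generalize ((k).factorial:ℚ) = u5 at *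
  generalize ((a).factorial:ℚ) = u6 at *
  generalize ((d).factorial:ℚ) = u7 at *
  generalize (-1:ℚ)^k = u8 at *
  field_simp

theorem R1 {h : ℕ} (h1 : 1 ≤ h) (k : ℕ) : R (h+1) k = Ch (h+1) * wt h k *
    ((3*(h:ℚ)+4-2*k)*(3*(h:ℚ)+3-2*k)*(3*(h:ℚ)+2-2*k)*(2*(h:ℚ)+5-k)*(2*(h:ℚ)+4-k)*
    ((h:ℚ)+2-2*k)*(2*(h:ℚ)+5-2*k)*(2*(h:ℚ)+1-2*k)) := by
  rcases Nat.lt_or_ge (h+2) (2*k) with hk | hk
  · unfold R wt
    rw [if_neg (by omega), if_neg (by omega)]; simp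
  rcases Nat.lt_or_ge (h+1) (2*k) with hk2 | hk2
  · unfold R
    rw [if_neg (by omega)]
    have e : 2*k = h+2 := by omega
    have := cast_eq e
    push_cast at this
    have e2 : ((h:ℚ)+2-2*k) = 0 := by linarith
    rw [e2]; ring
  obtain ⟨d, hd⟩ : ∃ d, h+1 = 2*k+d := ⟨h+1-2*k, by omega⟩
  obtain ⟨a, ha⟩ : ∃ a, 2*h+3 = k+a := ⟨2*h+3-k, by omega⟩
  obtain ⟨m, hm⟩ : ∃ m, 3*h+1 = 2*k+m := ⟨3*h+1-2*k, by omega⟩
  unfold R wt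
  rw [if_pos (by omega), if_pos (by omega)]
  have e1 : 2*(h+1)+1-k = a := by omega
  have e2 : 2*h+5-k = a+1+1 := by omega
  have e3 : h+1-2*k = d := by omega
  have e4 : h+2-2*k = d+1 := by omega
  have e5 : 3*(h+1)+1-2*k = m+1+1+1 := by omega
  have e6 : 3*h+1-2*k = m := by omega
  have c1 : (a:ℚ) = 2*h+3-k := by
    have := cast_eq ha
    push_cast at this
    linarith
  have c2 : (d:ℚ) = h+1-2*k := by
    have := cast_eq hd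
    push_cast at this
    linarith
  have c3 : (m:ℚ) = 3*h+1-2*k := by
    have := cast_eq hm
    push_cast at this
    linarith
  rw [e1, e2, e3, e4, e5, e6, Nat.factorial_succ (a+1),
    Nat.factorial_succ a, Nat.factorial_succ d, Nat.factorial_succ (m+1+1), Nat.factorial_succ (m+1),
    Nat.factorial_succ m]
  have p1 := pos1 h1 hk
  have p2 : (0:ℚ) < 2*(h:ℚ)+3-2*k := by linarith
  have p3 : (0:ℚ) < 2*(h:ℚ)+5-2*k := by linarith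
  have q1 : (0:ℚ) < (a:ℚ)+1 := by positivity
  have q2 : (0:ℚ) < (a:ℚ)+1+1 := by positivity
  have q5 : (0:ℚ) < (d:ℚ)+1 := by positivity
  have g3 : (2*(h:ℚ)+4-k) = (a:ℚ)+1 := by rw [c1]; ring
  have g4 : (2*(h:ℚ)+5-k) = (a:ℚ)+1+1 := by rw [c1]; ring
  have g6 : ((h:ℚ)+2-2*k) = (d:ℚ)+1 := by rw [c2]; ring
  have g7 : (3*(h:ℚ)+2-2*k) = (m:ℚ)+1 := by rw [c3]; ring
  have g8 : (3*(h:ℚ)+3-2*k) = (m:ℚ)+1+1 := by rw [c3]; ring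
  have g9 : (3*(h:ℚ)+4-2*k) = (m:ℚ)+1+1+1 := by rw [c3]; ring
  have g10 : (2*((h+1:ℕ):ℚ)+1-2*k) = 2*(h:ℚ)+3-2*k := by push_cast; ring
  rw [g3, g4, g6, g7, g8, g9, g10]
  have f1 : ((k).factorial:ℚ) ≠ 0 := by positivity
  have f2 : ((a).factorial:ℚ) ≠ 0 := by positivity
  have f3 : ((d).factorial:ℚ) ≠ 0 := by positivity
  have p1' := p1.ne'
  have p2' := p2.ne'
  have p3' := p3.ne'
  push_cast
  generalize 2*(h:ℚ)+1-2*k = u1 at *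
  generalize 2*(h:ℚ)+3-2*k = u2 at *
  generalize 2*(h:ℚ)+5-2*k = u3 at *
  generalize ((m).factorial:ℚ) = u4 at *
  generalize ((k).factorial:ℚ) = u5 at *
  generalize ((a).factorial:ℚ) = u6 at *
  generalize ((d).factorial:ℚ) = u7 at *
  generalize (-1:ℚ)^k = u8 at *
  field_simp

theorem R2 {h : ℕ} (h1 : 1 ≤ h) (k : ℕ) : R (h+2) k = Ch (h+2) * wt h k *
    ((3*(h:ℚ)+7-2*k)*(3*(h:ℚ)+6-2*k)*(3*(h:ℚ)+5-2*k)*(3*(h:ℚ)+4-2*k)*(3*(h:ℚ)+3-2*k)*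
    (3*(h:ℚ)+2-2*k)*(2*(h:ℚ)+3-2*k)*(2*(h:ℚ)+1-2*k)) := by
  rcases Nat.lt_or_ge (h+2) (2*k) with hk | hk
  · unfold R wt
    rw [if_neg (by omega), if_neg (by omega)]; simp
  obtain ⟨m, hm⟩ : ∃ m, 3*h+1 = 2*k+m := ⟨3*h+1-2*k, by omega⟩
  unfold R wt
  rw [if_pos (by omega), if_pos (by omega)]
  have e1 : 2*(h+2)+1-k = 2*h+5-k := by omega
  have e5 : 3*(h+2)+1-2*k = m+1+1+1+1+1+1 := by omega
  have e6 : 3*h+1-2*k = m := by omega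
  have c3 : (m:ℚ) = 3*h+1-2*k := by
    have := cast_eq hm
    push_cast at this
    linarith
  rw [e1, e5, e6, Nat.factorial_succ (m+1+1+1+1+1), Nat.factorial_succ (m+1+1+1+1),
    Nat.factorial_succ (m+1+1+1), Nat.factorial_succ (m+1+1), Nat.factorial_succ (m+1),
    Nat.factorial_succ m]
  have p1 := pos1 h1 hk
  have p2 : (0:ℚ) < 2*(h:ℚ)+3-2*k := by linarith
  have p3 : (0:ℚ) < 2*(h:ℚ)+5-2*k := by linarith
  have g7 : (3*(h:ℚ)+2-2*k) = (m:ℚ)+1 := by rw [c3]; ring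
  have g8 : (3*(h:ℚ)+3-2*k) = (m:ℚ)+1+1 := by rw [c3]; ring
  have g9 : (3*(h:ℚ)+4-2*k) = (m:ℚ)+1+1+1 := by rw [c3]; ring
  have g11 : (3*(h:ℚ)+5-2*k) = (m:ℚ)+1+1+1+1 := by rw [c3]; ring
  have g12 : (3*(h:ℚ)+6-2*k) = (m:ℚ)+1+1+1+1+1 := by rw [c3]; ring
  have g13 : (3*(h:ℚ)+7-2*k) = (m:ℚ)+1+1+1+1+1+1 := by rw [c3]; ring
  have g10 : (2*((h+2:ℕ):ℚ)+1-2*k) = 2*(h:ℚ)+5-2*k := by push_cast; ring
  rw [g7, g8, g9, g11, g12, g13, g10]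
  have f1 : ((k).factorial:ℚ) ≠ 0 := by positivity
  have f2 : ((2*h+5-k).factorial:ℚ) ≠ 0 := by positivity
  have f3 : ((h+2-2*k).factorial:ℚ) ≠ 0 := by positivity
  have p1' := p1.ne'
  have p2' := p2.ne'
  have p3' := p3.ne'
  push_cast
  generalize 2*(h:ℚ)+1-2*k = u1 at *
  generalize 2*(h:ℚ)+3-2*k = u2 at *
  generalize 2*(h:ℚ)+5-2*k = u3 at *
  generalize ((m).factorial:ℚ) = u4 at *
  generalize ((k).factorial:ℚ) = u5 at *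
  generalize ((2*h+5-k).factorial:ℚ) = u6 at *
  generalize ((h+2-2*k).factorial:ℚ) = u7 at *
  generalize (-1:ℚ)^k = u8 at *
  field_simp

theorem wt_succ {h : ℕ} (h1 : 1 ≤ h) (k : ℕ) :
    (3*(h:ℚ)+1-2*k)*(3*(h:ℚ)-2*k)*((k:ℚ)+1)*(2*(h:ℚ)-1-2*k) * wt h (k+1) =
    -(((h:ℚ)+2-2*k)*((h:ℚ)+1-2*k)*(2*(h:ℚ)+5-k)*(2*(h:ℚ)+5-2*k)) * wt h k := by
  rcases Nat.lt_or_ge (h+2) (2*k) with hk | hk
  · unfold wt
    rw [if_neg (by omega), if_neg (by omega)]; simp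
  rcases Nat.lt_or_ge h (2*k) with hk2 | hk2
  · have e0 : wt h (k+1) = 0 := by
      unfold wt
      rw [if_neg (by omega)]
    rw [e0]
    rcases (by omega : 2*k = h+1 ∨ 2*k = h+2) with e | e
    · have := cast_eq e
      push_cast at this
      have e2 : ((h:ℚ)+1-2*k) = 0 := by linarith
      rw [e2]; ring
    · have := cast_eq e
      push_cast at this
      have e2 : ((h:ℚ)+2-2*k) = 0 := by linarith
      rw [e2]; ring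
  obtain ⟨d, hd⟩ : ∃ d, h = 2*k+d := ⟨h-2*k, by omega⟩
  obtain ⟨a, ha⟩ : ∃ a, 2*h+4 = k+a := ⟨2*h+4-k, by omega⟩
  obtain ⟨m, hm⟩ : ∃ m, 3*h = 2*k+m+1 := ⟨3*h-2*k-1, by omega⟩
  unfold wt
  rw [if_pos (by omega), if_pos (by omega)]
  have e1 : 2*h+5-(k+1) = a := by omega
  have e2 : 2*h+5-k = a+1 := by omega
  have e3 : h+2-2*(k+1) = d := by omega
  have e4 : h+2-2*k = d+1+1 := by omega
  have e5 : 3*h+1-2*k = m+1+1 := by omega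
  have e6 : 3*h+1-2*(k+1) = m := by omega
  have c1 : (a:ℚ) = 2*h+4-k := by
    have := cast_eq ha
    push_cast at this
    linarith
  have c2 : (d:ℚ) = h-2*k := by
    have := cast_eq hd
    push_cast at this
    linarith
  have c3 : (m:ℚ) = 3*h-2*k-1 := by
    have := cast_eq hm
    push_cast at this
    linarith
  rw [e1, e2, e3, e4, e5, e6, Nat.factorial_succ a, Nat.factorial_succ (d+1), Nat.factorial_succ d,
    Nat.factorial_succ (m+1), Nat.factorial_succ m, Nat.factorial_succ k, pow_succ]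
  have p1 : (0:ℚ) < 2*(h:ℚ)-1-2*k := by
    have : 2*k + 1 < 2*h := by omega
    have h2 : (2*(k:ℚ)+1) < 2*h := by exact_mod_cast this
    linarith
  have p2 : (0:ℚ) < 2*(h:ℚ)+1-2*k := by linarith
  have p3 : (0:ℚ) < 2*(h:ℚ)+3-2*k := by linarith
  have p4 : (0:ℚ) < 2*(h:ℚ)+5-2*k := by linarith
  have q1 : (0:ℚ) < (a:ℚ)+1 := by positivity
  have q2 : (0:ℚ) < (k:ℚ)+1 := by positivity
  have q3 : (0:ℚ) < (d:ℚ)+1 := by positivity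
  have q4 : (0:ℚ) < (d:ℚ)+1+1 := by positivity
  have g1 : (2*(h:ℚ)+5-k) = (a:ℚ)+1 := by rw [c1]; ring
  have g2 : ((h:ℚ)+1-2*k) = (d:ℚ)+1 := by rw [c2]; ring
  have g3 : ((h:ℚ)+2-2*k) = (d:ℚ)+1+1 := by rw [c2]; ring
  have g4 : (3*(h:ℚ)-2*k) = (m:ℚ)+1 := by rw [c3]; ring
  have g5 : (3*(h:ℚ)+1-2*k) = (m:ℚ)+1+1 := by rw [c3]; ring
  have g6 : (2*(h:ℚ)+5-2*((k+1:ℕ):ℚ)) = 2*(h:ℚ)+3-2*k := by push_cast; ring
  have g7 : (2*(h:ℚ)+3-2*((k+1:ℕ):ℚ)) = 2*(h:ℚ)+1-2*k := by push_cast; ring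
  have g8 : (2*(h:ℚ)+1-2*((k+1:ℕ):ℚ)) = 2*(h:ℚ)-1-2*k := by push_cast; ring
  rw [g1, g2, g3, g4, g5, g6, g7, g8]
  have f1 : ((k).factorial:ℚ) ≠ 0 := by positivity
  have f2 : ((a).factorial:ℚ) ≠ 0 := by positivity
  have f3 : ((d).factorial:ℚ) ≠ 0 := by positivity
  have p1' := p1.ne'
  have p2' := p2.ne'
  have p3' := p3.ne'
  have p4' := p4.ne'
  push_cast
  generalize 2*(h:ℚ)-1-2*k = u0 at *
  generalize 2*(h:ℚ)+1-2*k = u1 at *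
  generalize 2*(h:ℚ)+3-2*k = u2 at *
  generalize 2*(h:ℚ)+5-2*k = u3 at *
  generalize ((m).factorial:ℚ) = u4 at *
  generalize ((k).factorial:ℚ) = u5 at *
  generalize ((a).factorial:ℚ) = u6 at *
  generalize ((d).factorial:ℚ) = u7 at *
  generalize (-1:ℚ)^k = u8 at *
  field_simp

def xx (H k : ℚ) : ℚ :=
  (-180 -2310*H -12962*H^2 -40287*H^3 -74597*H^4 -83711*H^5 -55625*H^6 -20092*H^7 -3036*H^8) +
  (1092+11790*H+53249*H^2+128533*H^3+177875*H^4+140897*H^5+59248*H^6+10236*H^7)*k +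
  (-2448-21882*H-77960*H^2-141522*H^3-138212*H^4-68988*H^5-13788*H^6)*k^2 +
  (2496+18276*H+49804*H^2+64200*H^3+39492*H^4+9324*H^5)*k^3 +
  (-1152-6840*H-13472*H^2-10968*H^3-3168*H^4)*k^4 +
  (192+912*H+1152*H^2+432*H^3)*k^5

theorem poly_id (h k : ℚ) :
    (3*h+4)*(h+2)*(2*h+5)^2*((3*h+7-2*k)*(3*h+6-2*k)*(3*h+5-2*k)*(3*h+4-2*k)*(3*h+3-2*k)*
      (3*h+2-2*k)*(2*h+3-2*k)*(2*h+1-2*k)) -
    (4*(3*h+4)*(h+2)^3 + 2*(3*h+7)*(2*h+3)^3) *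
      ((3*h+4-2*k)*(3*h+3-2*k)*(3*h+2-2*k)*(2*h+5-k)*(2*h+4-k)*
      (h+2-2*k)*(2*h+5-2*k)*(2*h+1-2*k)) +
    8*(3*h+7)*(2*h+3)*(h+1)^2*
      ((2*h+5-k)*(2*h+4-k)*(2*h+3-k)*(2*h+2-k)*(h+2-2*k)*(h+1-2*k)*(2*h+5-2*k)*(2*h+3-2*k)) =
    -((h+2-2*k)*(h+1-2*k)*(2*h+5-k)*(2*h+5-2*k)) * xx (h+1) (k+1) -
      k*(3*h+3-2*k)*(3*h+2-2*k)*(2*h+1-2*k) * xx (h+1) k := by
  unfold xx
  ring

end Pool.Agent.N926.F54
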