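import Pool.Agent.N926.F54.A

set_option autoImplicit false
set_option linter.unusedVariables false

namespace Pool.Agent.N926.F54

open Finset Pool.Agent.N926.Sup2

def qq (h : ℕ) : ℚ := (3*(h:ℚ)+7)*(2*(h:ℚ)+3)^3/(2*(3*(h:ℚ)+4)*((h:ℚ)+2)^3)

def Gf (h k : ℕ) : ℚ := Ch (h+1) * wt h k * ((k:ℚ)*(3*(h:ℚ)+3-2*k)*(3*(h:ℚ)+2-2*k)*(2*(h:ℚ)+1-2*k) *
  xx ((h:ℚ)+1) k) / (4*(3*(h:ℚ)+4)*((h:ℚ)+2)^3)

theorem wz2 {h : ℕ} (h1 : 1 ≤ h) (k : ℕ) :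
    R (h+2) k - (1 + qq h) * R (h+1) k + qq h * R h k = Gf h (k+1) - Gf h k := by
  have eG : Gf h (k+1) = Ch (h+1) * (-(((h:ℚ)+2-2*k)*((h:ℚ)+1-2*k)*(2*(h:ℚ)+5-k)*(2*(h:ℚ)+5-2*k)) * wt h k) *
      xx ((h:ℚ)+1) ((k:ℚ)+1) / (4*(3*(h:ℚ)+4)*((h:ℚ)+2)^3) := by
    rw [← wt_succ h1 k]
    unfold Gf
    push_cast
    ring
  rw [eG, R0 h1, R1 h1, R2 h1]
  unfold Gf
  have e1 : Ch (h+2) = Ch (h+1) * ((2*(h:ℚ)+5)^2/(4*((h:ℚ)+2)^2)) := by
    have := Ch_succ (h+1)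
    rw [this]
    push_cast
    congr 1
    ring
  have e2 : Ch h = Ch (h+1) * (4*((h:ℚ)+1)^2/(2*(h:ℚ)+3)^2) := by
    rw [Ch_succ h]
    have f1 : (2*(h:ℚ)+3) ≠ 0 := by positivity
    have f2 : ((h:ℚ)+1) ≠ 0 := by positivity
    field_simp
  rw [e1, e2]
  have hp := poly_id (h:ℚ) (k:ℚ)
  have f1 : (2*(h:ℚ)+3) ≠ 0 := by positivity
  have f3 : ((h:ℚ)+2) ≠ 0 := by positivity
  have f4 : (3*(h:ℚ)+4) ≠ 0 := by positivity
  unfold qq
  generalize Ch (h+1) = c at *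
  generalize wt h k = w at *
  generalize xx ((h:ℚ)+1) ((k:ℚ)+1) = X1 at *
  generalize xx ((h:ℚ)+1) (k:ℚ) = X0 at *
  generalize (h:ℚ) = H at *
  generalize (k:ℚ) = K at *
  have f4' : H*3+4 ≠ 0 := by rw [mul_comm]; exact f4
  have k1 : ∀ A : ℚ, c * ((2*H+5)^2/(4*(H+2)^2)) * w * A =
      c * w / (4*(3*H+4)*(H+2)^3) * ((3*H+4)*(H+2)*(2*H+5)^2 * A) := by
    intro A; field_simp
  have k2 : ∀ A : ℚ, (1 + (3*H+7)*(2*H+3)^3/(2*(3*H+4)*(H+2)^3)) * (c * w * A) =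
      c * w / (4*(3*H+4)*(H+2)^3) * ((4*(3*H+4)*(H+2)^3 + 2*(3*H+7)*(2*H+3)^3) * A) := by
    intro A; field_simp; ring
  have k3 : ∀ A : ℚ, (3*H+7)*(2*H+3)^3/(2*(3*H+4)*(H+2)^3) * (c * (4*(H+1)^2/(2*H+3)^2) * w * A) =
      c * w / (4*(3*H+4)*(H+2)^3) * (8*(3*H+7)*(2*H+3)*(H+1)^2 * A) := by
    intro A; field_simp; ring
  rw [k1, k2, k3, ← mul_sub, ← mul_add, hp]
  ring

theorem R_zero {h k : ℕ} (hk : h < 2*k) : R h k = 0 := by
  unfold R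
  rw [if_neg (by omega)]

def SR (h : ℕ) : ℚ := ∑ k ∈ range (h+1), R h k

theorem SR_ext {h K : ℕ} (hK : h + 1 ≤ K) : ∑ k ∈ range K, R h k = SR h := by
  unfold SR
  symm
  refine sum_subset (by intro x hx; rw [mem_range] at *; omega) ?_
  intro k _ hk
  rw [mem_range] at hk
  exact R_zero (by omega)

theorem SR_rec {h : ℕ} (h1 : 1 ≤ h) : SR (h+2) - (1 + qq h) * SR (h+1) + qq h * SR h = 0 := by
  rw [← SR_ext (h := h+2) (K := h+3) (by omega), ← SR_ext (h := h+1) (K := h+3) (by omega),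
    ← SR_ext (h := h) (K := h+3) (by omega), mul_sum, mul_sum, ← sum_sub_distrib, ← sum_add_distrib,
    sum_congr rfl (fun k _ => wz2 h1 k), sum_range_sub (fun k => Gf h k)]
  have e1 : Gf h (h+3) = 0 := by
    unfold Gf wt
    rw [if_neg (by omega)]; simp
  have e2 : Gf h 0 = 0 := by
    unfold Gf; simp
  rw [e1, e2, sub_zero]

def cc (n : ℕ) : ℚ := (3*(n:ℚ)+1) * t n ^ 3 * 4^n

theorem cc_rec (h : ℕ) : cc (h+2) = qq h * cc (h+1) := by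
  unfold cc qq
  rw [t_succ (h+1), pow_succ 4 (h+1)]
  have f3 : ((h:ℚ)+2) ≠ 0 := by positivity
  have f4 : (3*(h:ℚ)+4) ≠ 0 := by positivity
  have f5 : (2*((h:ℚ)+1)+2) ≠ 0 := by positivity
  push_cast
  field_simp
  ring

theorem B_succ (N : ℕ) : B (N+1) = B N + cc N := by
  unfold B cc
  rw [sum_range_succ]

/-- the half sum is the sum of the small terms -/
theorem B_SR : ∀ h : ℕ, B (h+1) = SR h
  | 0 => by
    norm_num [B, SR, R, Ch, t_zero, sum_range_succ]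
  | 1 => by
    norm_num [B, SR, R, Ch, t_zero, t_succ, sum_range_succ, Nat.factorial]
  | 2 => by
    norm_num [B, SR, R, Ch, t_zero, t_succ, sum_range_succ, Nat.factorial]
  | (h+3) => by
    have h1 := B_SR (h+1)
    have h2 := B_SR (h+2)
    have h3 := SR_rec (h := h+1) (by omega)
    have h4 := cc_rec (h+1)
    have h5 : B (h+3+1) = B (h+3) + cc (h+3) := B_succ (h+3)
    have h6 : B (h+3) = B (h+2) + cc (h+2) := B_succ (h+2)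
    have e1 : h+1+2 = h+3 := by ring
    have e2 : h+1+1 = h+2 := by ring
    have e3 : h+2+1 = h+3 := by ring
    rw [e1, e2] at h3 h4
    rw [e3] at h2
    rw [e2] at h1
    rw [h5, h4]
    have h7 : cc (h+2) = SR (h+2) - SR (h+1) := by rw [← h2, ← h1, h6]; ring
    rw [h7, h2]
    linarith

end Pool.Agent.N926.F54
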