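import Pool.Agent.N926.F54.B
import Pool.Agent.N926.Sup2.K

set_option autoImplicit false
set_option linter.unusedVariables false

namespace Pool.Agent.N926.F54

open Finset Pool.Agent.N926.Sup2 Pool.Agent.N926.Sup

def tr (h n : ℕ) : ℚ := ((2*(h:ℚ)+1)^2/(2*((n:ℚ)+1)^2)) * (1/(1 - (2*(h:ℚ)+1)/(2*((n:ℚ)+1)))) *
  (∏ l ∈ range n, (1 - (2*(h:ℚ)+1)/((l:ℚ)+1))) * ∏ j ∈ range (2*n+2), (1/(1 + (2*(h:ℚ)+1)/((h:ℚ)-j)))

theorem R_ratio {h k : ℕ} (hk : 2*(k+1) ≤ h) :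
    R h (k+1) * ((3*(h:ℚ)+1-2*k)*(3*(h:ℚ)-2*k)*((k:ℚ)+1)*(2*(h:ℚ)-1-2*k)) =
    R h k * (-(((h:ℚ)-2*k)*((h:ℚ)-1-2*k)*(2*(h:ℚ)+1-k)*(2*(h:ℚ)+1-2*k))) := by
  obtain ⟨d, hd⟩ : ∃ d, h = 2*k+(d+2) := ⟨h-2*k-2, by omega⟩
  obtain ⟨a, ha⟩ : ∃ a, 2*h = k+a := ⟨2*h-k, by omega⟩
  obtain ⟨m, hm⟩ : ∃ m, 3*h = 2*k+m+1 := ⟨3*h-2*k-1, by omega⟩
  unfold R
  rw [if_pos (by omega), if_pos (by omega)]
  have e1 : 2*h+1-(k+1) = a := by omega
  have e2 : 2*h+1-k = a+1 := by omega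
  have e3 : h-2*(k+1) = d := by omega
  have e4 : h-2*k = d+1+1 := by omega
  have e5 : 3*h+1-2*k = m+1+1 := by omega
  have e6 : 3*h+1-2*(k+1) = m := by omega
  have c1 : (a:ℚ) = 2*h-k := by
    have := cast_eq ha
    push_cast at this
    linarith
  have c2 : (d:ℚ) = h-2*k-2 := by
    have := cast_eq hd
    push_cast at this
    linarith
  have c3 : (m:ℚ) = 3*h-2*k-1 := by
    have := cast_eq hm
    push_cast at this
    linarith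
  rw [e1, e2, e3, e4, e5, e6, Nat.factorial_succ a, Nat.factorial_succ (d+1), Nat.factorial_succ d,
    Nat.factorial_succ (m+1), Nat.factorial_succ m, Nat.factorial_succ k, pow_succ]
  have p1 : (0:ℚ) < 2*(h:ℚ)-1-2*k := by
    have : 2*k + 1 < 2*h := by omega
    have h2 : (2*(k:ℚ)+1) < 2*h := by exact_mod_cast this
    linarith
  have p2 : (0:ℚ) < 2*(h:ℚ)+1-2*k := by linarith
  have q1 : (0:ℚ) < (a:ℚ)+1 := by positivity
  have q2 : (0:ℚ) < (k:ℚ)+1 := by positivity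
  have q3 : (0:ℚ) < (d:ℚ)+1 := by positivity
  have q4 : (0:ℚ) < (d:ℚ)+1+1 := by positivity
  have g1 : (2*(h:ℚ)+1-k) = (a:ℚ)+1 := by rw [c1]; ring
  have g2 : ((h:ℚ)-1-2*k) = (d:ℚ)+1 := by rw [c2]; ring
  have g3 : ((h:ℚ)-2*k) = (d:ℚ)+1+1 := by rw [c2]; ring
  have g4 : (3*(h:ℚ)-2*k) = (m:ℚ)+1 := by rw [c3]; ring
  have g5 : (3*(h:ℚ)+1-2*k) = (m:ℚ)+1+1 := by rw [c3]; ring
  have g8 : (2*(h:ℚ)+1-2*((k+1:ℕ):ℚ)) = 2*(h:ℚ)-1-2*k := by push_cast; ring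
  rw [g1, g2, g3, g4, g5, g8]
  have f1 : ((k).factorial:ℚ) ≠ 0 := by positivity
  have f2 : ((a).factorial:ℚ) ≠ 0 := by positivity
  have f3 : ((d).factorial:ℚ) ≠ 0 := by positivity
  have p1' := p1.ne'
  have p2' := p2.ne'
  push_cast
  generalize 2*(h:ℚ)-1-2*k = u0 at *
  generalize 2*(h:ℚ)+1-2*k = u1 at *
  generalize ((m).factorial:ℚ) = u4 at *
  generalize ((k).factorial:ℚ) = u5 at *
  generalize ((a).factorial:ℚ) = u6 at *
  generalize ((d).factorial:ℚ) = u7 at *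
  generalize (-1:ℚ)^k = u8 at *
  generalize Ch h = u9 at *
  field_simp

theorem fr (P y : ℚ) (hy : y ≠ 0) (hz : y + P ≠ 0) : 1/(1 + P/y) = y/(y+P) := by
  rw [one_add_div hy, one_div_div]

theorem R_tr (h : ℕ) : ∀ n : ℕ, 2*(n+1) ≤ h → R h (n+1) = R h 0 * tr h n
  | 0 => by
    intro hn
    have h1 := R_ratio (h := h) (k := 0) hn
    have a1 : (0:ℚ) < (h:ℚ)-1 := by
      have : (2:ℚ) ≤ h := by exact_mod_cast hn
      linarith
    have a2 : (0:ℚ) < (h:ℚ) := by linarith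
    have a3 : (0:ℚ) < 2*(h:ℚ)-1 := by linarith
    unfold tr
    simp only [Nat.cast_zero, mul_zero, sub_zero, zero_add, mul_one, prod_range_succ, range_zero, prod_empty,
      Nat.cast_one, one_pow, one_mul] at h1 ⊢
    have a1' := a1.ne'
    have a2' := a2.ne'
    have a3' := a3.ne'
    have b1 : (h:ℚ) + (2*h+1) ≠ 0 := by positivity
    have b2 : (h:ℚ) - 1 + (2*h+1) ≠ 0 := by linarith
    have b3 : (2:ℚ) - (2*h+1) ≠ 0 := by linarith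
    rw [fr _ _ a2' b1, fr _ _ a1' b2, one_sub_div (by norm_num : (2:ℚ) ≠ 0), one_div_div]
    have b4 : (3*(h:ℚ)+1) ≠ 0 := by positivity
    have b5 : (3*(h:ℚ)) ≠ 0 := by positivity
    have e1 : (h:ℚ) + (2*h+1) = 3*h+1 := by ring
    have e2 : (h:ℚ) - 1 + (2*h+1) = 3*h := by ring
    have e3 : (2:ℚ) - (2*h+1) = -(2*h-1) := by ring
    rw [e1, e2, e3]
    have h2 : R h 1 = R h 0 * (-(((h:ℚ))*((h:ℚ)-1)*(2*(h:ℚ)+1)*(2*(h:ℚ)+1))) /
        ((3*(h:ℚ)+1)*(3*(h:ℚ))*(2*(h:ℚ)-1)) := by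
      rw [eq_div_iff (by positivity)]
      linarith
    rw [h2]
    field_simp
  | (n+1) => by
    intro hn
    have ih := R_tr h n (by omega)
    have h1 := R_ratio (h := h) (k := n+1) hn
    have c0 : ((2:ℚ)*n+4) ≤ h := by
      have : 2*n+4 ≤ h := by omega
      exact_mod_cast this
    have a1 : (0:ℚ) < (h:ℚ)-((2*n+3 : ℕ):ℚ) := by push_cast; linarith
    have a2 : (0:ℚ) < (h:ℚ)-((2*n+2 : ℕ):ℚ) := by push_cast; linarith
    have a1' := a1.ne'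
    have a2' := a2.ne'
    have hh : (0:ℚ) ≤ (h:ℚ) := Nat.cast_nonneg h
    have b1 : (h:ℚ)-((2*n+2 : ℕ):ℚ) + (2*h+1) ≠ 0 := by positivity
    have b2 : (h:ℚ)-((2*n+3 : ℕ):ℚ) + (2*h+1) ≠ 0 := by positivity
    have t1 : tr h (n+1) * ((3*(h:ℚ)-1-2*n)*(3*(h:ℚ)-2-2*n)*((n:ℚ)+2)*(2*(h:ℚ)-3-2*n)) =
        tr h n * (-(((h:ℚ)-2-2*n)*((h:ℚ)-3-2*n)*(2*(h:ℚ)-n)*(2*(h:ℚ)-1-2*n))) := by
      unfold tr
      have e : 2*(n+1)+2 = (2*n+2)+1+1 := by ring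
      rw [e, prod_range_succ _ (2*n+2+1), prod_range_succ _ (2*n+2), prod_range_succ _ n]
      have e3 : 2*n+2+1 = 2*n+3 := by ring
      rw [e3, fr _ _ a2' b1, fr _ _ a1' b2]
      have n1 : ((n:ℚ)+1) ≠ 0 := by positivity
      have n2 : ((n:ℚ)+2) ≠ 0 := by positivity
      have d1 : (2*((n:ℚ)+1)) - (2*h+1) ≠ 0 := by linarith
      have d2 : (2*((n:ℚ)+2)) - (2*h+1) ≠ 0 := by linarith
      have d3 : (3*(h:ℚ)-1-2*n) ≠ 0 := by linarith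
      have d4 : (3*(h:ℚ)-2-2*n) ≠ 0 := by linarith
      have m1 : (((n+1:ℕ):ℚ)+1) = (n:ℚ)+2 := by push_cast; ring
      have m2 : (h:ℚ)-((2*n+2 : ℕ):ℚ) = (h:ℚ)-2-2*n := by push_cast; ring
      have m3 : (h:ℚ)-((2*n+3 : ℕ):ℚ) = (h:ℚ)-3-2*n := by push_cast; ring
      have m4 : (h:ℚ)-2-2*n + (2*h+1) = 3*h-1-2*n := by ring
      have m5 : (h:ℚ)-3-2*n + (2*h+1) = 3*h-2-2*n := by ring
      rw [m1, m2, m3, m4, m5, one_sub_div (by positivity : 2*((n:ℚ)+1) ≠ 0),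
        one_sub_div (by positivity : 2*((n:ℚ)+2) ≠ 0), one_div_div, one_div_div, one_sub_div n1]
      generalize ∏ l ∈ range n, (1 - (2*(h:ℚ)+1)/((l:ℚ)+1)) = Q1
      generalize ∏ j ∈ range (2*n+2), (1/(1 + (2*(h:ℚ)+1)/((h:ℚ)-j))) = Q2
      have d5 : 2*(h:ℚ)-1-2*n ≠ 0 := by intro h5; apply d1; linarith
      have d6 : 2*(h:ℚ)-3-2*n ≠ 0 := by intro h5; apply d2; linarith
      have d1e : 2*((n:ℚ)+1) - (2*(h:ℚ)+1) = -(2*h-1-2*n) := by ring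
      have d2e : 2*((n:ℚ)+2) - (2*(h:ℚ)+1) = -(2*h-3-2*n) := by ring
      have d3e : ((n:ℚ)+1) - (2*(h:ℚ)+1) = -(2*h-n) := by ring
      rw [d1e, d2e, d3e]
      clear d1 d2 m4 m5 b1 b2
      generalize 2*(h:ℚ)-1-2*n = z1 at *
      generalize 2*(h:ℚ)-3-2*n = z2 at *
      generalize 2*(h:ℚ)-n = z3 at *
      generalize 3*(h:ℚ)-1-2*n = z4 at *
      generalize 3*(h:ℚ)-2-2*n = z5 at *
      generalize (h:ℚ)-2-2*n = z6 at *
      generalize (h:ℚ)-3-2*n = z7 at *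
      generalize (2*(h:ℚ)+1) = z8 at *
      generalize (n:ℚ)+1 = z9 at *
      generalize (n:ℚ)+2 = z10 at *
      field_simp
    have c1 : ((n+1:ℕ):ℚ) = (n:ℚ)+1 := by push_cast; ring
    rw [c1] at h1
    have g1 : 3*(h:ℚ)+1-2*((n:ℚ)+1) = 3*h-1-2*n := by ring
    have g2 : 3*(h:ℚ)-2*((n:ℚ)+1) = 3*h-2-2*n := by ring
    have g3 : ((n:ℚ)+1)+1 = n+2 := by ring
    have g4 : 2*(h:ℚ)-1-2*((n:ℚ)+1) = 2*h-3-2*n := by ring
    have g5 : (h:ℚ)-2*((n:ℚ)+1) = h-2-2*n := by ring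
    have g6 : (h:ℚ)-1-2*((n:ℚ)+1) = h-3-2*n := by ring
    have g7 : 2*(h:ℚ)+1-((n:ℚ)+1) = 2*h-n := by ring
    have g8 : 2*(h:ℚ)+1-2*((n:ℚ)+1) = 2*h-1-2*n := by ring
    rw [g1, g2, g3, g4, g5, g6, g7, g8, ih] at h1
    have hne : ((3*(h:ℚ)-1-2*n)*(3*(h:ℚ)-2-2*n)*((n:ℚ)+2)*(2*(h:ℚ)-3-2*n)) ≠ 0 := by
      have x1 : (0:ℚ) < 3*(h:ℚ)-1-2*n := by linarith
      have x2 : (0:ℚ) < 3*(h:ℚ)-2-2*n := by linarith
      have x3 : (0:ℚ) < 2*(h:ℚ)-3-2*n := by linarith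
      positivity
    refine mul_right_cancel₀ hne ?_
    linear_combination h1 - R h 0 * t1

theorem R_head (h : ℕ) : R h 0 = (2*(h:ℚ)+1) * ∏ l ∈ range h, (1 + (-(3 * x h l ^ 2) + 2 * x h l ^ 3)) := by
  have e1 : ∏ l ∈ range h, (1 + (-(3 * x h l ^ 2) + 2 * x h l ^ 3)) =
      (∏ l ∈ range h, (1 - x h l))^2 * ∏ l ∈ range h, (1 + 2 * x h l) := by
    rw [sq, ← prod_mul_distrib, ← prod_mul_distrib]
    refine prod_congr rfl fun l _ => ?_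
    ring
  rw [e1, prod_neg_x, prod_2x]
  unfold R Ch
  rw [if_pos (by omega)]
  have e2 : 3*h+1-2*0 = 3*h+1 := by omega
  have e3 : 2*h+1-0 = 2*h+1 := by omega
  have e4 : h-2*0 = h := by omega
  have e5 : 2*h+1+h = 3*h+1 := by omega
  rw [e2, e3, e4, e5]
  have e6 : ((2*h+1).factorial:ℚ) = (2*(h:ℚ)+1) * (4^h * (h.factorial:ℚ) * hq h) := by
    rw [← fact_two, Nat.factorial_succ]
    push_cast
    ring
  have e7 : ((-1:ℚ)^h * t h)^2 = t h ^2 := by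
    rw [mul_pow, ← pow_mul, mul_comm h 2, pow_mul]
    norm_num
  rw [e7, e6]
  unfold hq
  have e8 : (16:ℚ)^h = 4^h * 4^h := by rw [← mul_pow]; norm_num
  rw [e8]
  have f1 : (h.factorial:ℚ) ≠ 0 := by positivity
  have f2 : (4:ℚ)^h ≠ 0 := by positivity
  have f3 := t_ne h
  have f4 : (2*(h:ℚ)+1) ≠ 0 := by positivity
  simp only [pow_zero, Nat.factorial_zero, Nat.cast_one, Nat.cast_zero, mul_zero, sub_zero, one_mul]
  generalize t h = T at *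
  generalize (h.factorial:ℚ) = F at *
  generalize (4:ℚ)^h = E at *
  generalize ((3*h+1).factorial:ℚ) = F3 at *
  field_simp

section
variable {p : ℕ} [hp : Fact p.Prime] {h : ℕ}

theorem R_head_cong (h2 : p ≠ 2) (h3 : p ≠ 3) (hh : p = 2*h+1) : Dv p 4 (R h 0 - p) := by
  have hM : p^(0+1) = 2*h+1 := by rw [zero_add, pow_one]; exact hh
  have cp : (2*(h:ℚ)+1) = p := by rw [hh]; push_cast; ring
  have hx : ∀ l < h, Dv p 1 (x h l) := by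
    intro l hl
    rw [x_X]; exact x1 h2 hM (by omega) (by omega)
  have h1 := Dv.prod2 (p := p) (n := 2) (by norm_num) (range h) (fun l => -(3 * x h l ^ 2) + 2 * x h l ^ 3)
    (fun l hl => by
      rw [mem_range] at hl
      have a := hx l hl
      have a2 : Dv p 2 (x h l ^ 2) := by simpa using a.pow 2
      have a3 : Dv p 3 (x h l ^ 3) := by simpa using a.pow 3
      have b2 := (smul_int 3 a2).neg
      have b3 := smul_int 2 (a3.mono (by norm_num : (2:ℤ) ≤ 3))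
      push_cast at b2 b3
      exact b2.add b3)
  have s2 : Dv p 3 (∑ l ∈ range h, x h l ^ 2) := by
    have e : ∑ l ∈ range h, x h l ^ 2 = (p^2/4) * Hs 2 h := by
      unfold Hs
      rw [mul_sum]
      refine sum_congr rfl fun l _ => ?_
      unfold x
      rw [cp]
      have : ((l:ℚ)+1) ≠ 0 := by positivity
      field_simp
      ring
    rw [e]
    have a := (Dv.p_pow (p := p) 2).mul (Hs2_1 (p := p) h2 h3 hh)
    have v4 : padicValRat p (4:ℚ) = 0 := by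
      have := val_two (p := p) h2
      have e4 : (4:ℚ) = 2 * 2 := by norm_num
      rw [e4, padicValRat.mul (by norm_num) (by norm_num), this, add_zero]
    have b := a.div_unit v4
    have e2 : (p:ℚ)^2 * Hs 2 h / 4 = (p^2/4) * Hs 2 h := by ring
    rw [e2] at b
    exact b
  have s3 : Dv p 3 (∑ l ∈ range h, x h l ^ 3) := Dv.sum _ _ fun l hl => by
    rw [mem_range] at hl
    simpa using (hx l hl).pow 3
  have hP : Dv p 3 (∏ l ∈ range h, (1 + (-(3 * x h l ^ 2) + 2 * x h l ^ 3)) - 1) := by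
    have a := (h1.mono (by norm_num : (3:ℤ) ≤ 2*2)).add ((smul_int 3 s2).neg.add (smul_int 2 s3))
    have e : ∏ l ∈ range h, (1 + (-(3 * x h l ^ 2) + 2 * x h l ^ 3)) - 1 -
      ∑ l ∈ range h, (-(3 * x h l ^ 2) + 2 * x h l ^ 3) +
      (-(((3:ℕ):ℚ) * ∑ l ∈ range h, x h l ^ 2) + ((2:ℕ):ℚ) * ∑ l ∈ range h, x h l ^ 3) =
      ∏ l ∈ range h, (1 + (-(3 * x h l ^ 2) + 2 * x h l ^ 3)) - 1 := by
      rw [sum_add_distrib, sum_neg_distrib, ← mul_sum, ← mul_sum]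
      push_cast
      ring
    rw [e] at a
    exact a
  rw [R_head, cp]
  have b := (Dv.p1 (p := p)).mul hP
  have e : (p:ℚ) * (∏ l ∈ range h, (1 + (-(3 * x h l ^ 2) + 2 * x h l ^ 3)) - 1) =
    p * ∏ l ∈ range h, (1 + (-(3 * x h l ^ 2) + 2 * x h l ^ 3)) - p := by ring
  rw [e] at b
  exact b

end

end Pool.Agent.N926.F54
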