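import Pool.Agent.N926.F54.C

set_option autoImplicit false
set_option linter.unusedVariables false

namespace Pool.Agent.N926.F54

open Finset Pool.Agent.N926.Sup2 Pool.Agent.N926.Sup

section
variable {p : ℕ} [hp : Fact p.Prime] {h : ℕ}

theorem mul_one1 {a b : ℚ} (ha : Dv p 1 (a-1)) (hb : Dv p 1 (b-1)) : Dv p 1 (a*b-1) := by
  have e : a*b-1 = (a-1)*(b-1) + (a-1) + (b-1) := by ring
  rw [e]
  exact (((ha.mul hb).mono (by norm_num)).add ha).add hb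

theorem inv_one1 {y : ℚ} (hy : Dv p 1 y) : Dv p 1 (1/(1-y) - 1) := by
  have h0 := (unit_sub hy).1
  have e : 1/(1-y) - 1 = y/(1-y) := by
    rw [eq_div_iff h0, sub_mul, div_mul_cancel₀ _ h0]; ring
  rw [e]
  exact hy.div_sub hy

theorem int_of_one {a : ℚ} (ha : Dv p 1 (a-1)) : Dv p 0 a := by
  have := (ha.mono (by norm_num : (0:ℤ) ≤ 1)).add Dv.one
  simpa using this

theorem tr_cong (h2 : p ≠ 2) (hh : p = 2*h+1) {n : ℕ} (hn : 2*(n+1) ≤ h) :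
    Dv p 3 (tr h n - p^2/2 * (1/((n:ℚ)+1)^2)) := by
  have cp : (2*(h:ℚ)+1) = p := by rw [hh]; push_cast; ring
  unfold tr
  rw [cp]
  have a1 : Dv p 1 ((p:ℚ)/(2*((n:ℚ)+1))) := Dv.p1.div_unit (unit_two_j h2 (by omega))
  have b1 := inv_one1 a1
  have b2 : Dv p 1 (∏ l ∈ range n, (1 - (p:ℚ)/((l:ℚ)+1)) - 1) := by
    have := Dv.prod1 (p := p) (n := 1) (by norm_num) (range n) (fun l => -((p:ℚ)/((l:ℚ)+1))) (by
      intro l hl
      rw [mem_range] at hl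
      exact (Dv.p1.div_unit (unit_j (by omega))).neg)
    simpa [sub_eq_add_neg] using this
  have b3 : Dv p 1 (∏ j ∈ range (2*n+2), (1/(1 + (p:ℚ)/((h:ℚ)-j))) - 1) := by
    have := Dv.prod1 (p := p) (n := 1) (by norm_num) (range (2*n+2))
      (fun j => 1/(1 + (p:ℚ)/((h:ℚ)-j)) - 1) (by
      intro j hj
      rw [mem_range] at hj
      have e : (h:ℚ)-j = ((h-j:ℕ):ℚ) := by rw [Nat.cast_sub (by omega)]
      have c1 : Dv p 1 ((p:ℚ)/((h:ℚ)-j)) := by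
        rw [e]
        exact Dv.p1.div_unit (unit_nat (not_dvd_of_lt (by omega) (by omega)))
      have c2 := inv_one1 c1.neg
      rw [sub_neg_eq_add] at c2
      exact c2)
    simpa using this
  have b4 := mul_one1 (mul_one1 b1 b2) b3
  have v : padicValRat p (2*((n:ℚ)+1)) = 0 := unit_two_j h2 (by omega)
  have c : Dv p 2 ((p:ℚ)^2/2 * (1/((n:ℚ)+1)^2)) := by
    have e : (p:ℚ)^2/2 * (1/((n:ℚ)+1)^2) = ((p:ℚ)/(2*((n:ℚ)+1)))^2 * 2 := by
      have : ((n:ℚ)+1) ≠ 0 := by positivity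
      field_simp
    rw [e]
    exact (show Dv p 2 (((p:ℚ)/(2*((n:ℚ)+1)))^2) by simpa using a1.pow 2).mul0 (by
      have := Dv.nat (p := p) 2
      simpa using this)
  have d := (c.mul b4).mono (by norm_num : (3:ℤ) ≤ 2 + 1)
  have e : (p:ℚ)^2/(2*((n:ℚ)+1)^2) * (1/(1 - (p:ℚ)/(2*((n:ℚ)+1)))) *
      (∏ l ∈ range n, (1 - (p:ℚ)/((l:ℚ)+1))) * ∏ j ∈ range (2*n+2), (1/(1 + (p:ℚ)/((h:ℚ)-j))) -
      (p:ℚ)^2/2 * (1/((n:ℚ)+1)^2) =
      (p:ℚ)^2/2 * (1/((n:ℚ)+1)^2) * (1/(1 - (p:ℚ)/(2*((n:ℚ)+1))) *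
      (∏ l ∈ range n, (1 - (p:ℚ)/((l:ℚ)+1))) * ∏ j ∈ range (2*n+2), (1/(1 + (p:ℚ)/((h:ℚ)-j))) - 1) := by
    rw [mul_sub, mul_one]
    congr 1
    have e5 : (p:ℚ)^2/(2*((n:ℚ)+1)^2) = (p:ℚ)^2/2 * (1/((n:ℚ)+1)^2) := by
      rw [div_mul_div_comm, mul_one]
    rw [e5]
    ring
  rw [e]
  exact d

theorem half_sum (h2 : p ≠ 2) (h3 : p ≠ 3) (hh : p = 2*h+1) :
    Dv p 4 (B (h+1) - p - p^3/2 * Hs 2 (h/2)) := by
  have e1 : SR h = R h 0 * (1 + ∑ n ∈ range (h/2), tr h n) := by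
    unfold SR
    rw [sum_range_succ']
    have e2 : ∑ k ∈ range h, R h (k+1) = ∑ k ∈ range (h/2), R h (k+1) := by
      symm
      refine sum_subset (by intro x hx; rw [mem_range] at *; omega) ?_
      intro k _ hk
      rw [mem_range] at hk
      exact R_zero (by omega)
    rw [e2, mul_add, mul_one, mul_sum, add_comm]
    congr 1
    refine sum_congr rfl fun n hn => ?_
    rw [mem_range] at hn
    exact R_tr h n (by omega)
  rw [B_SR, e1]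
  have s1 : Dv p 3 (∑ n ∈ range (h/2), tr h n - p^2/2 * Hs 2 (h/2)) := by
    unfold Hs
    rw [mul_sum, ← sum_sub_distrib]
    refine Dv.sum _ _ fun n hn => ?_
    rw [mem_range] at hn
    exact tr_cong h2 hh (by omega)
  have s2 : Dv p 2 ((p:ℚ)^2/2 * Hs 2 (h/2)) := by
    have a := ((Dv.p_pow (p := p) 2).mul0 (Hs_int (p := p) (k := 2) (n := h/2) (by omega))).div_unit (val_two h2)
    have e : (p:ℚ)^2 * Hs 2 (h/2) / 2 = (p:ℚ)^2/2 * Hs 2 (h/2) := by ring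
    rwa [e] at a
  have s3 : Dv p 2 (∑ n ∈ range (h/2), tr h n) := by
    have := (s1.mono (by norm_num : (2:ℤ) ≤ 3)).add s2
    simpa using this
  have r1 := R_head_cong (p := p) h2 h3 hh
  have a1 := r1.add ((r1.mul s3).mono (by norm_num : (4:ℤ) ≤ 4+2))
  have a2 := ((Dv.p1 (p := p)).mul s1).mono (by norm_num : (4:ℤ) ≤ 1+3)
  have a3 := a1.add a2
  have e3 : R h 0 - p + (R h 0 - p) * ∑ n ∈ range (h/2), tr h n +
    p * (∑ n ∈ range (h/2), tr h n - p^2/2 * Hs 2 (h/2)) =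
    R h 0 * (1 + ∑ n ∈ range (h/2), tr h n) - p - p^3/2 * Hs 2 (h/2) := by ring
  rw [e3] at a3
  exact a3

end

end Pool.Agent.N926.F54
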