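import Mathlib

/-! Euler numbers modulo `p` -/

set_option autoImplicit false
set_option linter.unusedVariables false

namespace Pool.Agent.N926.F54

open Finset Polynomial

/-- Euler numbers: `E_0 = 1`, `E_n = - ∑_{i < n, 2 ∣ n - i} C(n,i) E_i` -/
def eulerZ : ℕ → ℤ
  | 0 => 1
  | (n+1) => - ∑ i : Fin (n+1), if 2 ∣ (n + 1 - (i:ℕ)) then ((n+1).choose (i:ℕ) : ℤ) * eulerZ (i:ℕ) else 0

theorem eulerZ_zero : eulerZ 0 = 1 := by rw [eulerZ]

theorem eulerZ_sum {n : ℕ} (hn : 0 < n) :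
    ∑ i ∈ range (n+1), (if 2 ∣ (n - i) then ((n.choose i : ℕ) : ℤ) * eulerZ i else 0) = 0 := by
  obtain ⟨m, rfl⟩ : ∃ m, n = m+1 := ⟨n-1, by omega⟩
  rw [sum_range_succ]
  simp only [Nat.sub_self, dvd_zero, if_true, Nat.choose_self, Nat.cast_one, one_mul]
  conv_lhs => rw [show eulerZ (m+1) = - ∑ i : Fin (m+1), if 2 ∣ (m + 1 - (i:ℕ)) then
    ((m+1).choose (i:ℕ) : ℤ) * eulerZ (i:ℕ) else 0 by rw [eulerZ]]
  rw [← Finset.sum_range (n := m+1) (f := fun i => if 2 ∣ (m + 1 - i) then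
    ((m+1).choose i : ℤ) * eulerZ i else 0)]
  ring

theorem eulerZ_odd : ∀ n : ℕ, Odd n → eulerZ n = 0 := by
  intro n
  induction n using Nat.strong_induction_on with
  | _ n ih =>
    intro hn
    have hpos : 0 < n := hn.pos
    have h := eulerZ_sum hpos
    rw [sum_range_succ] at h
    have h0 : ∑ i ∈ range n, (if 2 ∣ (n - i) then ((n.choose i : ℕ) : ℤ) * eulerZ i else 0) = 0 := by
      refine sum_eq_zero fun i hi => ?_
      rw [mem_range] at hi
      split_ifs with h2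
      · have : Odd i := by
          obtain ⟨a, ha⟩ := hn
          obtain ⟨b, hb⟩ := h2
          exact ⟨a - b, by omega⟩
        rw [ih i hi this, mul_zero]
      · rfl
    rw [h0] at h
    simpa using h

noncomputable def LE : ℤ[X] →ₗ[ℤ] ℤ := (Polynomial.basisMonomials ℤ).constr ℤ eulerZ

theorem LE_X (i : ℕ) : LE (X^i) = eulerZ i := by
  unfold LE
  have h := (Polynomial.basisMonomials ℤ).constr_basis ℤ eulerZ i
  rw [coe_basisMonomials] at h
  beta_reduce at h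
  rwa [← X_pow_eq_monomial] at h

theorem LE_CX (a : ℤ) (i : ℕ) : LE (C a * X^i) = a * eulerZ i := by
  rw [← smul_eq_C_mul, map_smul, LE_X, smul_eq_mul]

theorem LE_pow (a : ℤ) (n : ℕ) : LE ((X + C a)^n) = ∑ i ∈ range (n+1), (a^(n-i) * (n.choose i : ℕ)) * eulerZ i := by
  rw [(Commute.all X (C a)).add_pow, map_sum]
  refine sum_congr rfl fun i _ => ?_
  have e : X ^ i * C a ^ (n-i) * ((n.choose i : ℕ) : ℤ[X]) = C (a^(n-i) * (n.choose i : ℕ)) * X^i := by
    rw [C_mul, C_pow]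
    simp only [map_natCast]
    ring
  rw [e, LE_CX]

theorem LE_one (n : ℕ) : LE ((X + C 1)^n) + LE ((X + C (-1))^n) = if n = 0 then 2 else 0 := by
  rw [LE_pow, LE_pow, ← sum_add_distrib]
  split_ifs with h
  · subst h
    simp [eulerZ_zero]
  · have h1 := eulerZ_sum (Nat.pos_of_ne_zero h)
    have e : ∑ i ∈ range (n+1), (((1:ℤ)^(n-i) * (n.choose i : ℕ)) * eulerZ i +
        ((-1:ℤ)^(n-i) * (n.choose i : ℕ)) * eulerZ i) =
        2 * ∑ i ∈ range (n+1), (if 2 ∣ (n - i) then ((n.choose i : ℕ) : ℤ) * eulerZ i else 0) := by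
      rw [mul_sum]
      refine sum_congr rfl fun i _ => ?_
      split_ifs with h2
      · obtain ⟨b, hb⟩ := h2
        rw [hb, pow_mul, pow_mul]
        norm_num
        ring
      · have hodd : Odd (n-i) := by
          rw [← Nat.not_even_iff_odd, even_iff_two_dvd]
          exact h2
        rw [hodd.neg_one_pow]
        ring
    rw [e, h1, mul_zero]

theorem LE_comp (P : ℤ[X]) : LE (P.comp (X + C 1)) + LE (P.comp (X + C (-1))) = 2 * P.eval 0 := by
  induction P using Polynomial.induction_on' with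
  | add P Q hP hQ =>
    rw [add_comp, add_comp, map_add, map_add, eval_add]
    linarith
  | monomial n a =>
    rw [← C_mul_X_pow_eq_monomial, mul_comp, mul_comp, C_comp, C_comp, X_pow_comp, X_pow_comp,
      ← smul_eq_C_mul, ← smul_eq_C_mul, map_smul, map_smul, ← smul_add, LE_one]
    simp only [eval_mul, eval_C, eval_pow, eval_X, smul_eq_mul]
    split_ifs with h
    · subst h; simp; ring
    · rw [zero_pow h]; ring

/-- `𝓔_m(y)` -/
noncomputable def EE (m : ℕ) (y : ℤ) : ℤ := LE ((X + C y)^m)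

theorem EE_step (m : ℕ) (y : ℤ) : EE m (y+1) + EE m (y-1) = 2 * y^m := by
  have h := LE_comp ((X + C y)^m)
  have e1 : ((X + C y)^m : ℤ[X]).comp (X + C 1) = (X + C (y+1))^m := by
    rw [pow_comp, add_comp, X_comp, C_comp, C_add]
    congr 1
    ring
  have e2 : ((X + C y)^m : ℤ[X]).comp (X + C (-1)) = (X + C (y-1))^m := by
    rw [pow_comp, add_comp, X_comp, C_comp, sub_eq_add_neg, C_add]
    congr 1
    ring
  rw [e1, e2] at h
  unfold EE
  rw [h]
  simp

theorem EE_zero (m : ℕ) : EE m 0 = eulerZ m := by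
  unfold EE
  rw [C_0, add_zero, LE_X]

theorem EE_neg_one {m : ℕ} (hm : Even m) (h0 : m ≠ 0) : EE m (-1) = 0 := by
  have h1 := LE_one m
  rw [if_neg h0] at h1
  have h2 : LE ((X + C 1)^m) = LE ((X + C (-1))^m) := by
    rw [LE_pow, LE_pow]
    refine sum_congr rfl fun i hi => ?_
    rw [mem_range] at hi
    rcases Nat.even_or_odd i with he | ho
    · have : Even (m-i) := by
        obtain ⟨a, ha⟩ := hm
        obtain ⟨b, hb⟩ := he
        exact ⟨a - b, by omega⟩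
      rw [this.neg_one_pow, one_pow]
    · rw [eulerZ_odd i ho, mul_zero, mul_zero]
  unfold EE
  linarith

theorem EE_alt (m N : ℕ) :
    2 * ∑ j ∈ range N, (-1:ℤ)^j * (2*(j:ℤ)+1)^m = eulerZ m - (-1)^N * EE m (2*(N:ℤ)) := by
  induction N with
  | zero => simp [EE_zero]
  | succ N ih =>
    rw [sum_range_succ, mul_add, ih]
    have h := EE_step m (2*(N:ℤ)+1)
    have e1 : (2*(N:ℤ)+1+1) = 2*((N+1:ℕ):ℤ) := by push_cast; ring
    have e2 : (2*(N:ℤ)+1-1) = 2*(N:ℤ) := by ring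
    rw [e1, e2] at h
    rw [pow_succ]
    linear_combination (-(-1:ℤ)^N) * h

theorem EE_cong (m : ℕ) {p y z : ℤ} (h : y ≡ z [ZMOD p]) : EE m y ≡ EE m z [ZMOD p] := by
  unfold EE
  rw [LE_pow, LE_pow]
  refine Int.ModEq.sum fun i _ => ?_
  exact ((h.pow _).mul_right _).mul_right _

/-- `E_m ≡ 2 ∑_{j<h} (-1)^j (2j+1)^m (mod 2h+1)` -/
theorem euler_cong {m h : ℕ} (hm : Even m) (h0 : m ≠ 0) :
    eulerZ m ≡ 2 * ∑ j ∈ range h, (-1:ℤ)^j * (2*(j:ℤ)+1)^m [ZMOD (2*(h:ℤ)+1)] := by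
  rw [EE_alt]
  have h1 : (2*(h:ℤ)) ≡ -1 [ZMOD (2*(h:ℤ)+1)] := by
    rw [Int.modEq_iff_dvd]
    exact ⟨-1, by ring⟩
  have h2 := EE_cong m h1
  rw [EE_neg_one hm h0] at h2
  have h3 := (Int.ModEq.refl (n := 2*(h:ℤ)+1) (eulerZ m)).sub ((h2.mul_left ((-1)^h)))
  rw [mul_zero, sub_zero] at h3
  exact h3.symm

end Pool.Agent.N926.F54
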