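import Pool.Agent.N926.F54.D
import Pool.Agent.N926.F54.E

set_option autoImplicit false
set_option linter.unusedVariables false

namespace Pool.Agent.N926.F54

open Finset Pool.Agent.N926.Sup2 Pool.Agent.N926.Sup

theorem alt_split {F : Type*} [CommRing F] (g : ℕ → F) (n : ℕ) :
    ∑ i ∈ range n, (-1)^(i+1) * g (i+1) + ∑ i ∈ range n, g (i+1) =
      2 * ∑ i ∈ range (n/2), g (2*(i+1)) := by
  induction n with
  | zero => simp
  | succ n ih =>
    rw [sum_range_succ, sum_range_succ]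
    rcases Nat.even_or_odd n with he | ho
    · have e : (n+1)/2 = n/2 := by
        obtain ⟨a, ha⟩ := he; omega
      rw [e, ← ih, he.add_one.neg_one_pow]
      ring
    · obtain ⟨a, ha⟩ := ho
      have e : (n+1)/2 = n/2 + 1 := by omega
      have e2 : 2*(n/2+1) = n+1 := by omega
      have e3 : Even (n+1) := ⟨a+1, by omega⟩
      rw [e, sum_range_succ, mul_add, ← ih, e2, e3.neg_one_pow]
      ring

section
variable {p : ℕ} [hp : Fact p.Prime] {h : ℕ}

theorem zmod_of_Dv {n : ℤ} (h : Dv p 1 (n:ℚ)) : (n : ZMod p) = 0 := by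
  rw [ZMod.intCast_zmod_eq_zero_iff_dvd]
  by_contra h1
  have h2 := unit_int (p := p) h1
  rcases h with h | h
  · have : n = 0 := by exact_mod_cast h
    apply h1
    rw [this]
    exact dvd_zero _
  · rw [h2] at h
    norm_num at h

theorem Br_zero' {r : ℚ} {z : ZMod p} (h : Br p r z) (hr : Dv p 1 r) : z = 0 := by
  obtain ⟨n, h1, h2⟩ := h
  rw [← h2]
  apply zmod_of_Dv
  have := hr.sub h1
  simpa using this

theorem Hs2_euler (h2 : p ≠ 2) (h3 : p ≠ 3) (hh : p = 2*h+1) :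
    Dv p 1 (Hs 2 (h/2) - 4 * ((-1)^h * (eulerZ (p-3) : ℤ))) := by
  have h5 := five_le (p := p) hh h3
  set f : ℕ → ZMod p := fun i => (((i:ℕ) : ZMod p))⁻¹^2 with hf
  have z1 : ∑ i ∈ range h, f (i+1) = 0 :=
    Br_zero' (Br_Hs (p := p) 2 h (by omega)) (Hs2_1 h2 h3 hh)
  have hev : Even (p-3) := ⟨h-1, by omega⟩
  have hE := euler_cong (h := h) hev (by omega)
  have cz : (2*(h:ℤ)+1) = (p:ℤ) := by rw [hh]; push_cast; ring
  rw [cz] at hE
  have hE2 := (ZMod.intCast_eq_intCast_iff _ _ p).2 hE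
  push_cast at hE2
  have cF : (2*(h:ZMod p)+1) = 0 := by
    have h0 : ((2*h+1 : ℕ) : ZMod p) = ((p:ℕ) : ZMod p) := by congr 1; exact hh.symm
    rw [ZMod.natCast_self] at h0
    push_cast at h0
    exact h0
  have two := two_ne p h2
  have e1 : ∀ j ∈ range h, (-1:ZMod p)^j * (2*(j:ZMod p)+1)^(p-3) = (-1)^j * ((2*(j:ZMod p)+1)⁻¹)^2 := by
    intro j hj
    rw [mem_range] at hj
    congr 1
    have hne : (2*(j:ZMod p)+1) ≠ 0 := by
      have : ((2*j+1 : ℕ) : ZMod p) ≠ 0 := by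
        intro h0
        have := (ZMod.natCast_eq_zero_iff _ _).1 h0
        exact not_dvd_of_lt (by omega) (by omega) this
      push_cast at this
      exact this
    have hfer := ZMod.pow_card_sub_one_eq_one hne
    have e : p - 1 = (p-3) + 2 := by omega
    rw [e, pow_add] at hfer
    rw [inv_pow]
    exact eq_inv_of_mul_eq_one_left hfer
  rw [sum_congr rfl e1, ← sum_range_reflect] at hE2
  have e2 : ∀ j ∈ range h, (-1:ZMod p)^(h-1-j) * ((2*((h-1-j:ℕ):ZMod p)+1)⁻¹)^2 =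
      (-1)^h * (4:ZMod p)⁻¹ * ((-1)^(j+1) * f (j+1)) := by
    intro j hj
    rw [mem_range] at hj
    have c1 : ((h-1-j:ℕ):ZMod p) = h - 1 - j := by
      rw [Nat.cast_sub (by omega), Nat.cast_sub (by omega)]
      simp
    have c2 : (2*((h-1-j:ℕ):ZMod p)+1) = -(2 * ((j+1:ℕ):ZMod p)) := by
      rw [c1]
      push_cast
      linear_combination cF
    have c3 : (-1:ZMod p)^(h-1-j) = (-1)^h * (-1)^(j+1) := by
      obtain ⟨r, hr⟩ : ∃ r, h = r + (j+1) := ⟨h-(j+1), by omega⟩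
      have : h-1-j = r := by omega
      rw [this, hr, pow_add (-1:ZMod p) r (j+1), mul_assoc, ← mul_pow]
      norm_num
    rw [c2, c3, hf]
    simp only
    rw [inv_neg, mul_inv, neg_sq, mul_pow]
    have e4 : (4:ZMod p)⁻¹ = ((2:ZMod p)⁻¹)^2 := by
      rw [inv_pow]; norm_num
    rw [e4]
    ring
  rw [sum_congr rfl e2, ← mul_sum] at hE2
  have hs := alt_split f h
  rw [z1, add_zero] at hs
  rw [hs] at hE2
  have e5 : ∑ i ∈ range (h/2), f (2*(i+1)) = (4:ZMod p)⁻¹ * ∑ i ∈ range (h/2), f (i+1) := by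
    rw [mul_sum]
    refine sum_congr rfl fun i _ => ?_
    rw [hf]
    simp only
    push_cast
    rw [mul_inv, mul_pow]
    have e4 : (4:ZMod p)⁻¹ = ((2:ZMod p)⁻¹)^2 := by
      rw [inv_pow]; norm_num
    rw [e4]
  rw [e5] at hE2
  have hb := (Br_Hs (p := p) 2 (h/2) (by omega)).sub (Br.ofInt (p := p) (4 * ((-1)^h * eulerZ (p-3))))
  have h0 := hb.zero (by
    have ec : ((4 * ((-1)^h * eulerZ (p-3)) : ℤ) : ZMod p) = 4 * ((-1)^h * ((eulerZ (p-3):ℤ):ZMod p)) := by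
      push_cast; ring
    rw [ec]
    have four : (4:ZMod p) ≠ 0 := by
      have : (4:ZMod p) = 2*2 := by norm_num
      rw [this]; exact mul_ne_zero two two
    change ∑ i ∈ range (h/2), f (i+1) - 4 * ((-1)^h * ((eulerZ (p-3):ℤ):ZMod p)) = 0
    rw [hE2]
    have s1 : (-1:ZMod p)^h * (-1)^h = 1 := by rw [← mul_pow]; norm_num
    generalize ∑ i ∈ range (h/2), f (i+1) = S at *
    generalize (-1:ZMod p)^h = σ at *
    have e6 : S - 4 * (σ * (2 * (σ * (4:ZMod p)⁻¹ * (2 * ((4:ZMod p)⁻¹ * S))))) =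
        S - (σ * σ) * (4 * (4:ZMod p)⁻¹) * (4 * (4:ZMod p)⁻¹) * S := by ring
    rw [e6, s1, mul_inv_cancel₀ four]
    ring)
  push_cast at h0
  exact h0

theorem half_euler (h2 : p ≠ 2) (h3 : p ≠ 3) (hh : p = 2*h+1) :
    Dv p 4 (B (h+1) - (p + 2 * (-1)^h * p^3 * (eulerZ (p-3) : ℤ))) := by
  have a1 := half_sum (p := p) h2 h3 hh
  have a2 := ((Dv.p_pow (p := p) 3).mul (Hs2_euler (p := p) h2 h3 hh)).div_unit (val_two h2)
  have a3 := a1.add (a2.mono (by norm_num))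
  have e : B (h+1) - p - p^3/2 * Hs 2 (h/2) + (p:ℚ)^3 * (Hs 2 (h/2) - 4 * ((-1)^h * (eulerZ (p-3) : ℤ))) / 2 =
    B (h+1) - (p + 2 * (-1)^h * p^3 * (eulerZ (p-3) : ℤ)) := by ring
  rw [e] at a3
  exact a3

end

end Pool.Agent.N926.F54
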