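import Pool.Agent.N926.Sup2.I

/-! divisibility of `∑_{k<n} (3k+1) C(2k,k)^3 16^{n-1-k}` by `2 n C(2n,n)` -/

set_option autoImplicit false
set_option linter.unusedVariables false

namespace Pool.Agent.N926.F54

open Finset Pool.Agent.N926.Sup2

theorem B_GB' (N : ℕ) : B N = ∑ k ∈ range N, GB N k := by
  have h1 : B N = ∑ n ∈ range N, FB n 0 := by
    unfold B
    refine sum_congr rfl fun n _ => ?_
    unfold FB
    rw [if_pos (by omega)]
    simp only [pow_zero, mul_zero, Nat.sub_zero, add_zero, one_mul]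
    unfold hq
    have : (n.factorial : ℚ) ≠ 0 := by positivity
    field_simp
  rw [h1, B_sum N N]
  have h2 : ∑ n ∈ range N, FB n N = 0 := by
    refine sum_eq_zero fun n hn => ?_
    rw [mem_range] at hn
    unfold FB
    rw [if_neg (by omega)]
  rw [h2, zero_add]

/-- super Catalan numbers -/
def sc : ℕ → ℕ → ℤ
  | 0, b => (Nat.centralBinom b : ℤ)
  | (a+1), b => 4 * sc a b - sc a (b+1)

theorem sc_fact (a : ℕ) : ∀ b : ℕ, sc a b * ((a.factorial : ℤ) * b.factorial * (a+b).factorial) =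
    ((2*a).factorial : ℤ) * (2*b).factorial := by
  induction a with
  | zero =>
    intro b
    have h : b.centralBinom * b.factorial * b.factorial = (2*b).factorial := by
      have := Nat.choose_mul_factorial_mul_factorial (n := 2*b) (k := b) (by omega)
      rw [show 2*b-b = b by omega] at this
      exact this
    have h2 : (b.centralBinom : ℤ) * b.factorial * b.factorial = (2*b).factorial := by exact_mod_cast h
    rw [sc, zero_add, mul_zero, Nat.factorial_zero, ← h2]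
    push_cast
    ring
  | succ a ih =>
    intro b
    have h1 := ih b
    have h2 := ih (b+1)
    have e1 : a + (b+1) = a+b+1 := by ring
    have e2 : a+1+b = a+b+1 := by ring
    have e3 : 2*(a+1) = 2*a+1+1 := by ring
    have e4 : 2*(b+1) = 2*b+1+1 := by ring
    rw [e1, e4, Nat.factorial_succ (2*b+1), Nat.factorial_succ (2*b), Nat.factorial_succ b,
      Nat.factorial_succ (a+b)] at h2
    rw [sc, e2, e3, Nat.factorial_succ (2*a+1), Nat.factorial_succ (2*a), Nat.factorial_succ a,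
      Nat.factorial_succ (a+b)]
    push_cast at h1 h2 ⊢
    have hb : ((b:ℤ)+1) ≠ 0 := by positivity
    refine mul_left_cancel₀ hb ?_
    linear_combination (4*((b:ℤ)+1)*((a:ℤ)+1)*((a:ℤ)+b+1)) * h1 - ((a:ℤ)+1) * h2

def od (n : ℕ) : ℤ := ∏ i ∈ range n, (2*(i:ℤ)+1)

theorem od_odd (n : ℕ) : Odd (od n) := by
  unfold od
  induction n with
  | zero => simp
  | succ n ih =>
    rw [prod_range_succ]
    exact ih.mul ⟨n, rfl⟩

theorem fact_od (n : ℕ) : ((2*n).factorial : ℤ) = 2^n * n.factorial * od n := by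
  unfold od
  induction n with
  | zero => simp
  | succ n ih =>
    have e : 2*(n+1) = 2*n+1+1 := by ring
    rw [e, Nat.factorial_succ, Nat.factorial_succ, prod_range_succ, Nat.factorial_succ n, pow_succ]
    push_cast
    rw [ih]
    ring

/-- `sc a b = 4 * 2^w * odd` with `w` depending only on `a+b`, for odd `a+b ≥ 3` -/
theorem sc_two {N : ℕ} (hN : 3 ≤ N) (hodd : Odd N) :
    ∃ w : ℕ, ∀ a b : ℕ, a + b = N → ∃ o : ℤ, Odd o ∧ sc a b = 4 * 2^w * o := by
  have hv : emultiplicity 2 (N.factorial) < ((N-1 : ℕ) : ℕ∞) := by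
    obtain ⟨m, hm⟩ : ∃ m, N = m + 1 := ⟨N-1, by omega⟩
    subst hm
    have hm : ¬ 2 ∣ (m+1) := by
      rw [← even_iff_two_dvd, Nat.not_even_iff_odd]; exact hodd
    rw [Nat.factorial_succ, Nat.Prime.emultiplicity_mul Nat.prime_two, emultiplicity_eq_zero.2 hm, zero_add]
    exact Nat.emultiplicity_two_factorial_lt (by omega)
  obtain ⟨v, o, ho, hvo⟩ : ∃ v o : ℕ, ¬ 2 ∣ o ∧ N.factorial = 2^v * o :=
    Nat.exists_eq_pow_mul_and_not_dvd (Nat.factorial_ne_zero N) 2 (by norm_num)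
  have hv2 : v + 2 ≤ N := by
    have h1 : (v : ℕ∞) ≤ emultiplicity 2 N.factorial := by
      apply le_emultiplicity_of_pow_dvd
      exact ⟨o, hvo⟩
    have h2 := lt_of_le_of_lt h1 hv
    have h3 : v < N - 1 := by exact_mod_cast h2
    omega
  refine ⟨N - v - 2, ?_⟩
  intro a b hab
  have h1 := sc_fact a b
  rw [fact_od a, fact_od b, hab, hvo] at h1
  have hf : ((a.factorial : ℤ) * b.factorial * 2^v) ≠ 0 := by positivity
  have h2 : sc a b * (o:ℤ) = 2^(N-v) * (od a * od b) := by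
    refine mul_left_cancel₀ hf ?_
    have e : (2:ℤ)^a * 2^b = 2^v * 2^(N-v) := by
      rw [← pow_add, ← pow_add]; congr 1; omega
    push_cast at h1
    linear_combination h1 + (a.factorial : ℤ) * b.factorial * od a * od b * e
  have hoo : IsCoprime ((2:ℤ)^(N-v)) (o:ℤ) := by
    apply IsCoprime.pow_left
    rw [Int.isCoprime_iff_gcd_eq_one]
    have h3 : Nat.Coprime 2 o := (Nat.Prime.coprime_iff_not_dvd Nat.prime_two).2 ho
    exact_mod_cast h3
  have h3 : (2:ℤ)^(N-v) ∣ sc a b := hoo.dvd_of_dvd_mul_right ⟨_, h2⟩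
  obtain ⟨q, hq⟩ := h3
  refine ⟨q, ?_, ?_⟩
  · have h4 : q * (o:ℤ) = od a * od b := by
      have h5 : ((2:ℤ)^(N-v)) ≠ 0 := by positivity
      refine mul_left_cancel₀ h5 ?_
      rw [← h2, hq]; ring
    have h6 : Odd (q * (o:ℤ)) := by rw [h4]; exact (od_odd a).mul (od_odd b)
    exact (Int.odd_mul.1 h6).1
  · rw [hq]
    have e : N - v = (N-v-2) + 2 := by omega
    conv_lhs => rw [e, pow_add]
    ring

theorem choose_half (N : ℕ) : ∀ m : ℕ, ∑ k ∈ range (m/2+1), (N+1).choose (m-2*k) = ∑ i ∈ range (m+1), N.choose i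
  | 0 => by simp
  | 1 => by simp [sum_range_succ, add_comm]
  | (m+2) => by
    have ih := choose_half N m
    have e : (m+2)/2+1 = (m/2+1)+1 := by omega
    rw [e, sum_range_succ', sum_range_succ _ (m+2), sum_range_succ _ (m+1), ← ih]
    have e2 : ∑ k ∈ range (m/2+1), (N+1).choose (m+2-2*(k+1)) = ∑ k ∈ range (m/2+1), (N+1).choose (m-2*k) := by
      refine sum_congr rfl fun k _ => ?_
      congr 1
      omega
    rw [e2, mul_zero, Nat.sub_zero, Nat.choose_succ_succ]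
    ring

def zz (n k : ℕ) : ℤ := (-1)^k * sc (n-k-1) (n+k) * ((2*n).choose (n-2*k-1) : ℕ)

theorem zz_dvd {n : ℕ} (hn : 2 ≤ n) : (8:ℤ) ∣ ∑ k ∈ range ((n-1)/2+1), zz n k := by
  obtain ⟨w, hw⟩ := sc_two (N := 2*n-1) (by omega) ⟨n-1, by omega⟩
  have h1 : ∀ k ∈ range ((n-1)/2+1), ∃ o : ℤ, Odd o ∧ sc (n-k-1) (n+k) = 4 * 2^w * o := by
    intro k hk
    rw [mem_range] at hk
    exact hw _ _ (by omega)
  choose! o ho using h1
  have h2 : ∑ k ∈ range ((n-1)/2+1), zz n k =
      4 * 2^w * ∑ k ∈ range ((n-1)/2+1), (-1)^k * o k * ((2*n).choose (n-2*k-1) : ℕ) := by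
    rw [mul_sum]
    refine sum_congr rfl fun k hk => ?_
    unfold zz
    rw [(ho k hk).2]
    ring
  have h3 : (∑ k ∈ range ((n-1)/2+1), (-1)^k * o k * ((2*n).choose (n-2*k-1) : ℕ)) ≡
      (∑ k ∈ range ((n-1)/2+1), (((2*n).choose (n-2*k-1) : ℕ) : ℤ)) [ZMOD 2] := by
    refine Int.ModEq.sum fun k hk => ?_
    have hodd : Odd ((-1)^k * o k) := (Odd.pow (by decide)).mul (ho k hk).1
    obtain ⟨r, hr⟩ := hodd
    rw [hr]
    have : (2*r+1) ≡ 1 [ZMOD 2] := by
      rw [Int.modEq_iff_dvd]; exact ⟨-r, by ring⟩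
    have := this.mul_right (((2*n).choose (n-2*k-1) : ℕ) : ℤ)
    rwa [one_mul] at this
  have h4 : ∑ k ∈ range ((n-1)/2+1), (2*n).choose (n-2*k-1) = 4^(n-1) := by
    have := choose_half (2*(n-1)+1) (n-1)
    rw [Nat.sum_range_choose_halfway] at this
    rw [← this]
    refine sum_congr rfl fun k _ => ?_
    congr 1 <;> omega
  have h5 : (2:ℤ) ∣ ∑ k ∈ range ((n-1)/2+1), (((2*n).choose (n-2*k-1) : ℕ) : ℤ) := by
    have : ∑ k ∈ range ((n-1)/2+1), (((2*n).choose (n-2*k-1) : ℕ) : ℤ) = 4^(n-1) := by exact_mod_cast h4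
    rw [this]
    obtain ⟨m, rfl⟩ : ∃ m, n = m + 2 := ⟨n-2, by omega⟩
    exact ⟨2 * 4^m, by rw [show m+2-1 = m+1 by omega, pow_succ]; ring⟩
  have h6 : (2:ℤ) ∣ ∑ k ∈ range ((n-1)/2+1), (-1)^k * o k * ((2*n).choose (n-2*k-1) : ℕ) :=
    (Int.ModEq.dvd_iff h3).2 h5
  rw [h2]
  obtain ⟨q, hq⟩ := h6
  rw [hq]
  exact ⟨2^w * q, by ring⟩

theorem GB_zz {n k : ℕ} (hn : 1 ≤ n) (hk : 2*k+1 ≤ n) :
    4 * 16^(n-1) * GB n k = (n:ℚ) * Nat.centralBinom n * (zz n k : ℤ) := by
  obtain ⟨c, hc⟩ : ∃ c, n = 2*k+1+c := ⟨n-(2*k+1), by omega⟩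
  have h1 := sc_fact (k+c) (3*k+c+1)
  have h2 := Nat.choose_mul_factorial_mul_factorial (n := 2*n) (k := c) (by omega)
  have h3 := Nat.choose_mul_factorial_mul_factorial (n := 2*n) (k := n) (by omega)
  unfold GB zz
  rw [if_pos hk]
  have e1 : n-k-1 = k+c := by omega
  have e2 : n+k = 3*k+c+1 := by omega
  have e3 : n-2*k-1 = c := by omega
  have e4 : 2*n-c = 4*k+c+2 := by omega
  have e5 : n+2*k+1 = 4*k+c+2 := by omega
  have e6 : 2*n-n = n := by omega
  have e7 : k+c+(3*k+c+1) = 2*n-1 := by omega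
  rw [e1, e2, e3, e5]
  rw [e4] at h2
  rw [e6] at h3
  rw [e7] at h1
  have q1 : (sc (k+c) (3*k+c+1) : ℚ) * (((k+c).factorial : ℚ) * (3*k+c+1).factorial * (2*n-1).factorial) =
    ((2*(k+c)).factorial : ℚ) * (2*(3*k+c+1)).factorial := by exact_mod_cast h1
  have q2 : (((2*n).choose c : ℕ) : ℚ) * (c.factorial : ℚ) * ((4*k+c+2).factorial : ℚ) = ((2*n).factorial : ℚ) := by
    exact_mod_cast h2
  have q3 : (Nat.centralBinom n : ℚ) * (n.factorial : ℚ) * (n.factorial : ℚ) = ((2*n).factorial : ℚ) := by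
    have : Nat.centralBinom n * n.factorial * n.factorial = (2*n).factorial := h3
    exact_mod_cast this
  have q4 : ((2*n).factorial : ℚ) = 2 * n * ((2*n-1).factorial : ℚ) := by
    obtain ⟨m, rfl⟩ : ∃ m, n = m + 1 := ⟨n-1, by omega⟩
    rw [show 2*(m+1) = 2*m+1+1 by ring, Nat.factorial_succ, show 2*m+1+1-1 = 2*m+1 by omega]
    push_cast
    ring
  have q5 : (n.factorial : ℚ) = n * ((n-1).factorial : ℚ) := by
    obtain ⟨m, rfl⟩ : ∃ m, n = m + 1 := ⟨n-1, by omega⟩
    rw [Nat.factorial_succ]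
    push_cast
    rfl
  have q6 := fact_two n
  have q7 := fact_two (k+c)
  have q8 := fact_two (3*k+c+1)
  have q10 : (4:ℚ) * 16^(n-1) = 4^(k+c) * 4^(3*k+c+1) := by
    have e16 : (16:ℚ)^(n-1) = 4^(2*(n-1)) := by rw [pow_mul]; norm_num
    rw [e16, ← pow_succ', ← pow_add]
    congr 1
    omega
  have f0 : (n:ℚ) ≠ 0 := by
    have : (1:ℚ) ≤ n := by exact_mod_cast hn
    positivity
  have f1 : ((n-1).factorial : ℚ) ≠ 0 := by positivity
  have f2 : (c.factorial : ℚ) ≠ 0 := by positivity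
  have f3 : ((4*k+c+2).factorial : ℚ) ≠ 0 := by positivity
  have f4 : ((k+c).factorial : ℚ) ≠ 0 := by positivity
  have f5 : ((3*k+c+1).factorial : ℚ) ≠ 0 := by positivity
  have f6 : ((2*n-1).factorial : ℚ) ≠ 0 := by positivity
  have g1 : (4:ℚ)^n ≠ 0 := by positivity
  have g2 : (4:ℚ)^(k+c) ≠ 0 := by positivity
  have g3 : (4:ℚ)^(3*k+c+1) ≠ 0 := by positivity
  push_cast
  rw [q10]
  rw [q4, q5] at q3
  rw [q4] at q2
  rw [q4, q5] at q6
  rw [q7, q8] at q1
  generalize ((-1:ℚ)^k) = s at *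
  generalize ((n-1).factorial : ℚ) = F1 at *
  generalize (c.factorial : ℚ) = F2 at *
  generalize ((4*k+c+2).factorial : ℚ) = F3 at *
  generalize ((k+c).factorial : ℚ) = F4 at *
  generalize ((3*k+c+1).factorial : ℚ) = F5 at *
  generalize ((2*n-1).factorial : ℚ) = F6 at *
  generalize hq n = H1 at *
  generalize hq (k+c) = H2 at *
  generalize hq (3*k+c+1) = H3 at *
  generalize ((Nat.centralBinom n : ℕ):ℚ) = CB at *
  generalize (((2*n).choose c : ℕ) : ℚ) = CC at *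
  generalize ((sc (k+c) (3*k+c+1) : ℤ) : ℚ) = S at *
  generalize (4:ℚ)^n = P1 at *
  generalize (4:ℚ)^(k+c) = P2 at *
  generalize (4:ℚ)^(3*k+c+1) = P3 at *
  generalize (n:ℚ) = x at *
  have r1 : H1 = 2*F6/(P1*F1) := by
    field_simp
    have : x * (P1 * F1 * H1) = x * (2 * F6) := by linear_combination -q6
    have := mul_left_cancel₀ f0 this
    linear_combination this
  have r2 : CB = 2 * F6/(x*F1^2) := by
    field_simp
    have : x * (CB * (x * F1^2)) = x * (2*F6) := by linear_combination q3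
    have := mul_left_cancel₀ f0 this
    linear_combination this
  have r3 : CC = 2*x*F6/(F2*F3) := by
    field_simp
    linear_combination q2
  have r4 : S = P2*H2*P3*H3/F6 := by
    field_simp
    have : F4 * F5 * (S * F6) = F4 * F5 * (P2*H2*P3*H3) := by linear_combination q1
    have := mul_left_cancel₀ (mul_ne_zero f4 f5) this
    linear_combination this
  rw [r1, r2, r3, r4]
  field_simp
  try ring

end Pool.Agent.N926.F54
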