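import Pool.Agent.N926.Sup2.I

/-! terminating closed forms of
`∑ (1/2+3δ)_k (1/2+δ)_k (1/2+2δ)_k 4^k / (k! (1+2δ)_k (1+4δ)_k)` -/

set_option autoImplicit false
set_option linter.unusedVariables false

namespace Pool.Agent.N926.F54

open Finset

def rf (x : ℚ) (k : ℕ) : ℚ := ∏ i ∈ range k, (x + (i:ℚ))

theorem rf_succ (x : ℚ) (k : ℕ) : rf x (k+1) = rf x k * (x + k) := by
  unfold rf; rw [prod_range_succ]

theorem rf_zero (x : ℚ) : rf x 0 = 1 := by simp [rf]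

theorem rf_shift (x : ℚ) (k : ℕ) : x * rf (x+1) k = rf x k * (x + k) := by
  induction k with
  | zero => simp [rf_zero]
  | succ k ih =>
    rw [rf_succ, rf_succ, ← mul_assoc, ih]
    push_cast
    ring

def tt (d : ℚ) (k : ℕ) : ℚ := rf (1/2+3*d) k * rf (1/2+d) k * rf (1/2+2*d) k * 4^k /
  ((k.factorial : ℚ) * rf (1+2*d) k * rf (1+4*d) k)

/-- common factor -/
def uu (d : ℚ) (k : ℕ) : ℚ := rf (1/2+3*d) k * rf (1/2+d) k * rf (1/2+2*d) k * 4^k /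
  ((k.factorial : ℚ) * rf (1+2*d) (k+2) * rf (1+4*d) (k+4))

def xd (d k : ℚ) : ℚ := (-45/2 -239*d - 874*d^2 -1316*d^3 - 688*d^4) +
  (-76 -552*d -1196*d^2 -776*d^3)*k + (-83-332*d-284*d^2)*k^2 + (-27-34*d)*k^3

theorem poly_d (d k : ℚ) :
    -16*(6*d+5)*((1/2+3*d+k)*(3/2+3*d+k)*(5/2+3*d+k)*(1/2+d+k)*(1/2+2*d+k)*(3/2+2*d+k)) -
    (6*d+1)*((1+2*d+k)*(2+2*d+k)*(1+4*d+k)*(2+4*d+k)*(3+4*d+k)*(4+4*d+k)) =
    4*(1/2+3*d+k)*(1/2+d+k)*(1/2+2*d+k)*xd d (k+1) - k*(2+2*d+k)*(4+4*d+k)*xd d k := by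
  unfold xd
  ring

theorem tt_uu {d : ℚ} {k : ℕ} (h1 : rf (1+2*d) (k+2) ≠ 0) (h2 : rf (1+4*d) (k+4) ≠ 0) :
    tt d k = uu d k * ((1+2*d+k)*(2+2*d+k)*(1+4*d+k)*(2+4*d+k)*(3+4*d+k)*(4+4*d+k)) := by
  unfold tt uu
  have e1 : rf (1+2*d) (k+2) = rf (1+2*d) k * (1+2*d+k) * (2+2*d+k) := by
    rw [rf_succ, rf_succ]; push_cast; ring
  have e2 : rf (1+4*d) (k+4) = rf (1+4*d) k * (1+4*d+k) * (2+4*d+k) * (3+4*d+k) * (4+4*d+k) := by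
    rw [rf_succ, rf_succ, rf_succ, rf_succ]; push_cast; ring
  rw [e1] at h1 ⊢
  rw [e2] at h2 ⊢
  have n1 := left_ne_zero_of_mul (left_ne_zero_of_mul h1)
  have n2 := right_ne_zero_of_mul (left_ne_zero_of_mul h1)
  have n3 := right_ne_zero_of_mul h1
  have m1 := left_ne_zero_of_mul (left_ne_zero_of_mul (left_ne_zero_of_mul (left_ne_zero_of_mul h2)))
  have m2 := right_ne_zero_of_mul (left_ne_zero_of_mul (left_ne_zero_of_mul (left_ne_zero_of_mul h2)))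
  have m3 := right_ne_zero_of_mul (left_ne_zero_of_mul (left_ne_zero_of_mul h2))
  have m4 := right_ne_zero_of_mul (left_ne_zero_of_mul h2)
  have m5 := right_ne_zero_of_mul h2
  have f1 : (k.factorial : ℚ) ≠ 0 := by positivity
  generalize rf (1+2*d) k = a at *
  generalize rf (1+4*d) k = b at *
  generalize 1+2*d+(k:ℚ) = c1 at *
  generalize 2+2*d+(k:ℚ) = c2 at *
  generalize 1+4*d+(k:ℚ) = c3 at *
  generalize 2+4*d+(k:ℚ) = c4 at *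
  generalize 3+4*d+(k:ℚ) = c5 at *
  generalize 4+4*d+(k:ℚ) = c6 at *
  generalize (k.factorial : ℚ) = f at *
  field_simp

theorem rf3 (x : ℚ) (k : ℕ) : x*(x+1)*(x+2) * rf (x+3) k = rf x k * ((x+k)*(x+1+k)*(x+2+k)) := by
  have h1 := rf_shift x k
  have h2 := rf_shift (x+1) k
  have h3 := rf_shift (x+2) k
  rw [show x+1+1 = x+2 by ring] at h2
  rw [show x+2+1 = x+3 by ring] at h3
  linear_combination (x*(x+1)) * h3 + (x * (x+2+k)) * h2 + (x+1+k)*(x+2+k) * h1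

theorem rf2 (x : ℚ) (k : ℕ) : x*(x+1) * rf (x+2) k = rf x k * ((x+k)*(x+1+k)) := by
  have h1 := rf_shift x k
  have h2 := rf_shift (x+1) k
  rw [show x+1+1 = x+2 by ring] at h2
  linear_combination x * h2 + (x+1+k) * h1

theorem rf2' (x : ℚ) (k : ℕ) : x*(x+1) * rf (x+2) k = rf x (k+2) := by
  rw [rf2, rf_succ, rf_succ]; push_cast; ring

theorem rf4' (x : ℚ) (k : ℕ) : x*(x+1)*(x+2)*(x+3) * rf (x+4) k = rf x (k+4) := by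
  have h1 := rf2' x (k+2)
  have h2 := rf2' (x+2) k
  rw [show x+2+2 = x+4 by ring] at h2
  rw [show k+4 = k+2+2 by ring, ← h1, ← h2]
  ring

theorem tt_succ {d : ℚ} {k : ℕ} (h1 : rf (1+2*d) (k+2) ≠ 0) (h2 : rf (1+4*d) (k+4) ≠ 0)
    (g1 : (1/2+3*d) ≠ 0) (g2 : (3/2+3*d) ≠ 0) (g3 : (5/2+3*d) ≠ 0) (g4 : (1/2+d) ≠ 0)
    (g5 : (1/2+2*d) ≠ 0) (g6 : (3/2+2*d) ≠ 0) :
    tt (d+1) k = uu d k * (((1+2*d)*(2+2*d)*(1+4*d)*(2+4*d)*(3+4*d)*(4+4*d)) /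
      ((1/2+3*d)*(3/2+3*d)*(5/2+3*d)*(1/2+d)*(1/2+2*d)*(3/2+2*d))) *
      ((1/2+3*d+k)*(3/2+3*d+k)*(5/2+3*d+k)*(1/2+d+k)*(1/2+2*d+k)*(3/2+2*d+k)) := by
  unfold tt uu
  have r1 := rf3 (1/2+3*d) k
  have r2 := rf_shift (1/2+d) k
  have r3 := rf2 (1/2+2*d) k
  have r4 := rf2' (1+2*d) k
  have r5 := rf4' (1+4*d) k
  have e1 : 1/2+3*(d+1) = 1/2+3*d+3 := by ring
  have e2 : 1/2+(d+1) = 1/2+d+1 := by ring
  have e3 : 1/2+2*(d+1) = 1/2+2*d+2 := by ring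
  have e4 : 1+2*(d+1) = 1+2*d+2 := by ring
  have e5 : 1+4*(d+1) = 1+4*d+4 := by ring
  rw [e1, e2, e3, e4, e5]
  rw [show 1/2+3*d+1 = 3/2+3*d by ring, show 1/2+3*d+2 = 5/2+3*d by ring] at r1
  rw [show 1/2+2*d+1 = 3/2+2*d by ring] at r3
  rw [show 1+2*d+1 = 2+2*d by ring] at r4
  rw [show 1+4*d+1 = 2+4*d by ring, show 1+4*d+2 = 3+4*d by ring, show 1+4*d+3 = 4+4*d by ring] at r5
  rw [← r4] at h1 ⊢
  rw [← r5] at h2 ⊢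
  have q1 : rf (1/2+3*d+3) k = rf (1/2+3*d) k * ((1/2+3*d+k)*(3/2+3*d+k)*(5/2+3*d+k)) /
      ((1/2+3*d)*(3/2+3*d)*(5/2+3*d)) := by
    rw [eq_div_iff (by positivity), ← r1]; ring
  have q2 : rf (1/2+d+1) k = rf (1/2+d) k * (1/2+d+k) / (1/2+d) := by
    rw [eq_div_iff g4, ← r2]; ring
  have q3 : rf (1/2+2*d+2) k = rf (1/2+2*d) k * ((1/2+2*d+k)*(3/2+2*d+k)) / ((1/2+2*d)*(3/2+2*d)) := by
    rw [eq_div_iff (by positivity), ← r3]; ring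
  rw [q1, q2, q3]
  have n1 := right_ne_zero_of_mul h1
  have n2 := left_ne_zero_of_mul (left_ne_zero_of_mul h1)
  have n3 := right_ne_zero_of_mul (left_ne_zero_of_mul h1)
  have m1 := right_ne_zero_of_mul h2
  have m2 := left_ne_zero_of_mul h2
  have m3 := right_ne_zero_of_mul m2
  have m4 := right_ne_zero_of_mul (left_ne_zero_of_mul m2)
  have m5 := right_ne_zero_of_mul (left_ne_zero_of_mul (left_ne_zero_of_mul m2))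
  have m6 := left_ne_zero_of_mul (left_ne_zero_of_mul (left_ne_zero_of_mul m2))
  have f1 : (k.factorial : ℚ) ≠ 0 := by positivity
  have hc1 : (1+2*d)*(2+2*d) ≠ 0 := mul_ne_zero n2 n3
  have hc2 : (1+4*d)*(2+4*d)*(3+4*d)*(4+4*d) ≠ 0 := m2
  have hb1 : (1/2+3*d)*(3/2+3*d)*(5/2+3*d) ≠ 0 := mul_ne_zero (mul_ne_zero g1 g2) g3
  have hb3 : (1/2+2*d)*(3/2+2*d) ≠ 0 := mul_ne_zero g5 g6
  have e6 : (1+2*d)*(2+2*d)*(1+4*d)*(2+4*d)*(3+4*d)*(4+4*d) =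
    ((1+2*d)*(2+2*d)) * ((1+4*d)*(2+4*d)*(3+4*d)*(4+4*d)) := by ring
  have e7 : (1/2+3*d)*(3/2+3*d)*(5/2+3*d)*(1/2+d)*(1/2+2*d)*(3/2+2*d) =
    ((1/2+3*d)*(3/2+3*d)*(5/2+3*d))*(1/2+d)*((1/2+2*d)*(3/2+2*d)) := by ring
  have e8 : (1/2+3*d+k)*(3/2+3*d+k)*(5/2+3*d+k)*(1/2+d+k)*(1/2+2*d+k)*(3/2+2*d+k) =
    ((1/2+3*d+k)*(3/2+3*d+k)*(5/2+3*d+k))*(1/2+d+k)*((1/2+2*d+k)*(3/2+2*d+k)) := by ring
  rw [e6, e7, e8]
  clear r1 r2 r3 r4 r5 q1 q2 q3 e1 e2 e3 e4 e5 h1 h2 m2 e6 e7 e8 m3 m4 m5 m6 n2 n3 g1 g2 g3 g5 g6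
  generalize (1/2+3*d+(k:ℚ))*(3/2+3*d+(k:ℚ))*(5/2+3*d+(k:ℚ)) = w1 at *
  generalize (1/2+2*d+(k:ℚ))*(3/2+2*d+(k:ℚ)) = w3 at *
  generalize 1/2+d+(k:ℚ) = w2 at *
  generalize rf (1+2*d+2) k = a1 at *
  generalize rf (1+4*d+4) k = a2 at *
  generalize rf (1/2+3*d) k = a3 at *
  generalize rf (1/2+d) k = a4 at *
  generalize rf (1/2+2*d) k = a5 at *
  generalize (1/2+3*d)*(3/2+3*d)*(5/2+3*d) = b1 at *
  generalize (1/2+2*d)*(3/2+2*d) = b3 at *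
  generalize 1/2+d = b2 at *
  generalize (1+2*d)*(2+2*d) = c1 at *
  generalize (1+4*d)*(2+4*d)*(3+4*d)*(4+4*d) = c2 at *
  generalize (k.factorial : ℚ) = f at *
  field_simp

def GG (d : ℚ) (k : ℕ) : ℚ := uu d k * (k*(2+2*d+k)*(4+4*d+k)*xd d k) / (6*d+1)

theorem GG_succ {d : ℚ} {k : ℕ} (h1 : rf (1+2*d) (k+2) ≠ 0) (h2 : rf (1+4*d) (k+4) ≠ 0)
    (h : (3+2*d+k ≠ 0 ∧ 5+4*d+k ≠ 0) ∨ 1/2+d+k = 0) :
    GG d (k+1) = uu d k * (4*(1/2+3*d+k)*(1/2+d+k)*(1/2+2*d+k)*xd d (k+1)) / (6*d+1) := by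
  have key : uu d (k+1) * (((k:ℚ)+1)*(3+2*d+k)*(5+4*d+k)) = uu d k * (4*(1/2+3*d+k)*(1/2+d+k)*(1/2+2*d+k)) := by
    unfold uu
    rw [rf_succ (1/2+3*d) k, rf_succ (1/2+d) k, rf_succ (1/2+2*d) k, show k+1+2 = (k+2)+1 by ring,
      show k+1+4 = (k+4)+1 by ring, rf_succ (1+2*d) (k+2), rf_succ (1+4*d) (k+4), Nat.factorial_succ k,
      pow_succ]
    rcases h with ⟨h3, h4⟩ | h3
    · have e1 : 1+2*d+((k+2:ℕ):ℚ) = 3+2*d+k := by push_cast; ring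
      have e2 : 1+4*d+((k+4:ℕ):ℚ) = 5+4*d+k := by push_cast; ring
      rw [e1, e2]
      have f1 : (k.factorial : ℚ) ≠ 0 := by positivity
      have f2 : ((k:ℚ)+1) ≠ 0 := by positivity
      push_cast
      generalize 3+2*d+(k:ℚ) = w1 at *
      generalize 5+4*d+(k:ℚ) = w2 at *
      generalize rf (1+2*d) (k+2) = w3 at *
      generalize rf (1+4*d) (k+4) = w4 at *
      generalize rf (1/2+3*d) k = a3 at *
      generalize rf (1/2+d) k = a4 at *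
      generalize rf (1/2+2*d) k = a5 at *
      generalize (k.factorial : ℚ) = f at *
      generalize 1/2+3*d+(k:ℚ) = v1 at *
      generalize 1/2+d+(k:ℚ) = v2 at *
      generalize 1/2+2*d+(k:ℚ) = v3 at *
      generalize (k:ℚ)+1 = v4 at *
      field_simp
    · rw [h3]; simp
  unfold GG
  have e : uu d (k+1) * (((k+1:ℕ):ℚ)*(2+2*d+((k+1:ℕ):ℚ))*(4+4*d+((k+1:ℕ):ℚ))*xd d ((k+1:ℕ):ℚ)) =
      (uu d (k+1) * (((k:ℚ)+1)*(3+2*d+k)*(5+4*d+k))) * xd d ((k:ℚ)+1) := by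
    push_cast
    ring
  rw [e, key]
  ring

theorem wz3 {d : ℚ} {k : ℕ} (h1 : rf (1+2*d) (k+2) ≠ 0) (h2 : rf (1+4*d) (k+4) ≠ 0)
    (h : (3+2*d+k ≠ 0 ∧ 5+4*d+k ≠ 0) ∨ 1/2+d+k = 0)
    (g1 : (1/2+3*d) ≠ 0) (g2 : (3/2+3*d) ≠ 0) (g3 : (5/2+3*d) ≠ 0) (g4 : (1/2+d) ≠ 0)
    (g5 : (1/2+2*d) ≠ 0) (g6 : (3/2+2*d) ≠ 0) (g7 : 1 + d ≠ 0) :
    -(27/16)*((6*d+5)/(6*d+6))^2 * tt (d+1) k - tt d k = GG d (k+1) - GG d k := by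
  rw [GG_succ h1 h2 h, tt_uu h1 h2, tt_succ h1 h2 g1 g2 g3 g4 g5 g6]
  unfold GG
  have hp := poly_d d k
  have e1 : 6*d+1 ≠ 0 := by
    intro h0; apply g1; linarith
  have c : -(27/16)*((6*d+5)/(6*d+6))^2 * (((1+2*d)*(2+2*d)*(1+4*d)*(2+4*d)*(3+4*d)*(4+4*d)) /
      ((1/2+3*d)*(3/2+3*d)*(5/2+3*d)*(1/2+d)*(1/2+2*d)*(3/2+2*d))) = -16*(6*d+5)/(6*d+1) := by
    have e6 : 6*d+6 = 6*(1+d) := by ring
    have a1 : 1/2+3*d = (6*d+1)/2 := by ring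
    have a2 : 3/2+3*d = 3*(1/2+d) := by ring
    have a3 : 5/2+3*d = (6*d+5)/2 := by ring
    have a4 : 1+2*d = 2*(1/2+d) := by ring
    have a5 : 2+2*d = 2*(1+d) := by ring
    have a6 : 1+4*d = 2*(1/2+2*d) := by ring
    have a7 : 2+4*d = 4*(1/2+d) := by ring
    have a8 : 3+4*d = 2*(3/2+2*d) := by ring
    have a9 : 4+4*d = 4*(1+d) := by ring
    have e5 : 6*d+5 ≠ 0 := by
      intro h0; apply g3; linarith
    rw [e6, a1, a2, a3, a4, a5, a6, a7, a8, a9]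
    generalize 6*d+1 = b1 at *
    generalize 6*d+5 = b2 at *
    generalize 1/2+d = b3 at *
    generalize 1+d = b4 at *
    generalize 1/2+2*d = b5 at *
    generalize 3/2+2*d = b6 at *
    field_simp
    norm_num
  generalize ((1+2*d)*(2+2*d)*(1+4*d)*(2+4*d)*(3+4*d)*(4+4*d)) /
      ((1/2+3*d)*(3/2+3*d)*(5/2+3*d)*(1/2+d)*(1/2+2*d)*(3/2+2*d)) = Kc at *
  generalize uu d k = U at *
  have e2 : ∀ A : ℚ, -(27/16)*((6*d+5)/(6*d+6))^2 * (U * Kc * A) = U * ((-16*(6*d+5)/(6*d+1)) * A) := by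
    intro A; rw [← c]; ring
  rw [e2, ← sub_div, ← mul_sub, eq_div_iff e1]
  generalize (1/2+3*d+k)*(3/2+3*d+k)*(5/2+3*d+k)*(1/2+d+k)*(1/2+2*d+k)*(3/2+2*d+k) = A1 at *
  generalize (1+2*d+k)*(2+2*d+k)*(1+4*d+k)*(2+4*d+k)*(3+4*d+k)*(4+4*d+k) = A2 at *
  have e3 : U * ((-16*(6*d+5)/(6*d+1)) * A1 - A2) * (6*d+1) =
      U * (-16*(6*d+5)*A1 - (6*d+1)*A2) := by
    have : (-16*(6*d+5)/(6*d+1)) * (6*d+1) = -16*(6*d+5) := div_mul_cancel₀ _ e1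
    linear_combination (U * A1) * this
  rw [e3, hp, mul_sub]

/-- sum up to `K` -/
theorem sum_wz {d : ℚ} {K : ℕ} (h : ∀ k < K, rf (1+2*d) (k+2) ≠ 0 ∧ rf (1+4*d) (k+4) ≠ 0 ∧
    ((3+2*d+k ≠ 0 ∧ 5+4*d+k ≠ 0) ∨ 1/2+d+k = 0))
    (g1 : (1/2+3*d) ≠ 0) (g2 : (3/2+3*d) ≠ 0) (g3 : (5/2+3*d) ≠ 0) (g4 : (1/2+d) ≠ 0)
    (g5 : (1/2+2*d) ≠ 0) (g6 : (3/2+2*d) ≠ 0) (g7 : 1 + d ≠ 0) (hK : uu d K = 0) :
    ∑ k ∈ range K, tt d k = -(27/16)*((6*d+5)/(6*d+6))^2 * ∑ k ∈ range K, tt (d+1) k := by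
  have h1 : ∑ k ∈ range K, (-(27/16)*((6*d+5)/(6*d+6))^2 * tt (d+1) k - tt d k) = GG d K - GG d 0 := by
    rw [← sum_range_sub]
    refine sum_congr rfl fun k hk => ?_
    rw [mem_range] at hk
    obtain ⟨a, b, c⟩ := h k hk
    exact wz3 a b c g1 g2 g3 g4 g5 g6 g7
  have h2 : GG d K = 0 := by unfold GG; rw [hK]; simp
  have h3 : GG d 0 = 0 := by unfold GG; simp
  rw [h2, h3, sub_zero, sum_sub_distrib, ← mul_sum] at h1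
  linarith

end Pool.Agent.N926.F54
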