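import Pool.Agent.N926.F54.H

set_option autoImplicit false
set_option linter.unusedVariables false

namespace Pool.Agent.N926.F54

open Finset

theorem rf_ne {x : ℚ} {k : ℕ} (h : ∀ i < k, x + (i:ℚ) ≠ 0) : rf x k ≠ 0 := by
  unfold rf
  rw [prod_ne_zero_iff]
  intro i hi
  rw [mem_range] at hi
  exact h i hi

theorem rf_eq_zero {x : ℚ} {k i : ℕ} (hi : i < k) (h : x + (i:ℚ) = 0) : rf x k = 0 := by
  unfold rf
  rw [prod_eq_zero_iff]
  exact ⟨i, mem_range.2 hi, h⟩

def T1 (h : ℕ) : ℚ := ∑ k ∈ range (h+1), tt (-(2*(h:ℚ)+1)/6) k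

def T2 (h : ℕ) : ℚ := ∑ k ∈ range (h+1), tt (-(2*(h:ℚ)+1)/2) k

theorem T1_succ {h : ℕ} (h3 : h % 3 ≠ 1) :
    T1 (h+3) = -(27/16)*((2*(h:ℚ)+2)/(2*(h:ℚ)+1))^2 * T1 h := by
  set d : ℚ := -(2*((h+3:ℕ):ℚ)+1)/6 with hd
  have hd' : d = -(2*(h:ℚ)+7)/6 := by rw [hd]; push_cast; ring
  have hh : (0:ℚ) ≤ h := Nat.cast_nonneg h
  have n1 : ∀ i : ℕ, 1 + 2*d + (i:ℚ) ≠ 0 := by
    intro i h0
    rw [hd'] at h0
    have : (3:ℚ)*i = 2*h+4 := by linarith
    have : 3*i = 2*h+4 := by exact_mod_cast this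
    omega
  have n2 : ∀ i : ℕ, 1 + 4*d + (i:ℚ) ≠ 0 := by
    intro i h0
    rw [hd'] at h0
    have : (3:ℚ)*i = 4*h+11 := by linarith
    have : 3*i = 4*h+11 := by exact_mod_cast this
    omega
  have key := sum_wz (d := d) (K := h+3+1) (fun k hk => by
      refine ⟨rf_ne fun i _ => n1 i, rf_ne fun i _ => n2 i, Or.inl ⟨?_, ?_⟩⟩
      · have := n1 (k+2)
        push_cast at this
        intro h0; apply this; linarith
      · have := n2 (k+4)
        push_cast at this
        intro h0; apply this; linarith)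
    (by rw [hd']; intro h0; linarith) (by rw [hd']; intro h0; linarith)
    (by rw [hd']; intro h0; linarith) (by rw [hd']; intro h0; linarith)
    (by rw [hd']; intro h0; linarith) (by rw [hd']; intro h0; linarith)
    (by rw [hd']; intro h0; linarith) (by
      unfold uu
      rw [rf_eq_zero (x := 1/2+3*d) (k := h+3+1) (i := h+3) (by omega) (by rw [hd']; push_cast; ring)]
      simp)
  have e1 : (6*d+5)/(6*d+6) = (2*(h:ℚ)+2)/(2*(h:ℚ)+1) := by
    rw [hd']
    have a : 6 * (-(2*(h:ℚ)+7)/6) + 5 = -(2*h+2) := by ring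
    have b : 6 * (-(2*(h:ℚ)+7)/6) + 6 = -(2*h+1) := by ring
    rw [a, b, neg_div_neg_eq]
  have e2 : d + 1 = -(2*(h:ℚ)+1)/6 := by rw [hd']; ring
  rw [e1, e2] at key
  have e3 : ∑ k ∈ range (h+3+1), tt (-(2*(h:ℚ)+1)/6) k = T1 h := by
    unfold T1
    symm
    refine sum_subset (by intro x hx; rw [mem_range] at *; omega) ?_
    intro k _ hk
    rw [mem_range] at hk
    unfold tt
    rw [rf_eq_zero (x := 1/2+3*(-(2*(h:ℚ)+1)/6)) (k := k) (i := h) (by omega) (by ring)]
    simp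
  rw [e3] at key
  unfold T1
  exact key

theorem T2_succ (h : ℕ) :
    T2 (h+1) = -(27/16)*((6*(h:ℚ)+4)/(6*(h:ℚ)+3))^2 * T2 h := by
  rcases Nat.eq_zero_or_pos h with h0 | h1
  · subst h0
    norm_num [T2, tt, rf, sum_range_succ, prod_range_succ]
  set d : ℚ := -(2*((h+1:ℕ):ℚ)+1)/2 with hd
  have hd' : d = -(2*(h:ℚ)+3)/2 := by rw [hd]; push_cast; ring
  have hh : (1:ℚ) ≤ h := by exact_mod_cast h1
  have n1 : ∀ i : ℕ, i ≤ 2*h+1 → 1 + 2*d + (i:ℚ) ≠ 0 := by
    intro i hi h0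
    rw [hd'] at h0
    have : (i:ℚ) = 2*h+2 := by linarith
    have : i = 2*h+2 := by exact_mod_cast this
    omega
  have n2 : ∀ i : ℕ, i ≤ 4*h+4 → 1 + 4*d + (i:ℚ) ≠ 0 := by
    intro i hi h0
    rw [hd'] at h0
    have : (i:ℚ) = 4*h+5 := by linarith
    have : i = 4*h+5 := by exact_mod_cast this
    omega
  have key := sum_wz (d := d) (K := h+1+1) (fun k hk => by
      refine ⟨rf_ne fun i hi => n1 i (by omega), rf_ne fun i hi => n2 i (by omega), ?_⟩
      rcases Nat.lt_or_ge k (h+1) with hk1 | hk1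
      · refine Or.inl ⟨?_, ?_⟩
        · have := n1 (k+2) (by omega)
          push_cast at this
          intro h0; apply this; linarith
        · have := n2 (k+4) (by omega)
          push_cast at this
          intro h0; apply this; linarith
      · right
        have : k = h+1 := by omega
        rw [this, hd']
        push_cast
        ring)
    (by rw [hd']; intro h0; linarith) (by rw [hd']; intro h0; linarith)
    (by rw [hd']; intro h0; linarith) (by rw [hd']; intro h0; linarith)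
    (by rw [hd']; intro h0; linarith) (by rw [hd']; intro h0; linarith)
    (by rw [hd']; intro h0; linarith) (by
      unfold uu
      rw [rf_eq_zero (x := 1/2+d) (k := h+1+1) (i := h+1) (by omega) (by rw [hd']; push_cast; ring)]
      simp)
  have e1 : (6*d+5)/(6*d+6) = (6*(h:ℚ)+4)/(6*(h:ℚ)+3) := by
    rw [hd']
    have a : 6 * (-(2*(h:ℚ)+3)/2) + 5 = -(6*h+4) := by ring
    have b : 6 * (-(2*(h:ℚ)+3)/2) + 6 = -(6*h+3) := by ring
    rw [a, b, neg_div_neg_eq]
  have e2 : d + 1 = -(2*(h:ℚ)+1)/2 := by rw [hd']; ring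
  rw [e1, e2] at key
  have e3 : ∑ k ∈ range (h+1+1), tt (-(2*(h:ℚ)+1)/2) k = T2 h := by
    unfold T2
    symm
    refine sum_subset (by intro x hx; rw [mem_range] at *; omega) ?_
    intro k _ hk
    rw [mem_range] at hk
    unfold tt
    rw [rf_eq_zero (x := 1/2+(-(2*(h:ℚ)+1)/2)) (k := k) (i := h) (by omega) (by ring)]
    simp
  rw [e3] at key
  unfold T2
  exact key

theorem T1_zero_mod (i : ℕ) : T1 (3*i) = ∏ j ∈ range i, (-(27/16)*((6*(j:ℚ)+2)/(6*(j:ℚ)+1))^2) := by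
  induction i with
  | zero => norm_num [T1, tt, rf]
  | succ i ih =>
    rw [show 3*(i+1) = 3*i+3 by ring, T1_succ (by omega), ih, prod_range_succ, mul_comm]
    congr 3
    push_cast
    congr 1 <;> ring

theorem T1_two_mod (i : ℕ) : T1 (3*i+2) = 0 := by
  induction i with
  | zero => norm_num [T1, tt, rf, sum_range_succ, prod_range_succ]
  | succ i ih =>
    rw [show 3*(i+1)+2 = 3*i+2+3 by ring, T1_succ (by omega), ih, mul_zero]

theorem T2_eq (h : ℕ) : T2 h = ∏ j ∈ range h, (-(27/16)*((6*(j:ℚ)+4)/(6*(j:ℚ)+3))^2) := by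
  induction h with
  | zero => norm_num [T2, tt, rf]
  | succ h ih => rw [T2_succ, ih, prod_range_succ, mul_comm]

end Pool.Agent.N926.F54
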