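import Pool.Agent.N926.F54.I
import Pool.Agent.N926.F54.D

set_option autoImplicit false
set_option linter.unusedVariables false

namespace Pool.Agent.N926.F54

open Finset Pool.Agent.N926.Sup2 Pool.Agent.N926.Sup

/-- `S_0` up to `N-1` -/
def S0 (N : ℕ) : ℚ := ∑ k ∈ range N, t k ^ 3 * 4^k

theorem hq_prod (k : ℕ) : hq k = ∏ j ∈ range k, ((1:ℚ)/2 + (j:ℚ)) := by
  unfold hq
  rw [t_rf]
  have : (k.factorial : ℚ) ≠ 0 := by positivity
  field_simp
where
  t_rf (k : ℕ) : t k = (∏ i ∈ range k, ((1:ℚ)/2 + (i:ℚ))) / (k.factorial : ℚ) := by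
    induction k with
    | zero => simp [t_zero]
    | succ k ih =>
      rw [t_succ, ih, prod_range_succ, Nat.factorial_succ]
      have h2 : (2*(k:ℚ) + 2) ≠ 0 := by positivity
      have h3 : ((k:ℚ) + 1) ≠ 0 := by positivity
      have h4 : (k.factorial : ℚ) ≠ 0 := by positivity
      push_cast
      field_simp
      ring

theorem fact_prod (k : ℕ) : (k.factorial : ℚ) = ∏ j ∈ range k, ((1:ℚ) + (j:ℚ)) := by
  induction k with
  | zero => simp
  | succ k ih =>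
    rw [prod_range_succ, ← ih, Nat.factorial_succ]
    push_cast
    ring

theorem rf_half (e : ℚ) (k : ℕ) : rf (1/2+e) k = hq k * ∏ j ∈ range k, (1 + e/(1/2+(j:ℚ))) := by
  rw [hq_prod, ← prod_mul_distrib]
  unfold rf
  refine prod_congr rfl fun j _ => ?_
  have : (1/2+(j:ℚ)) ≠ 0 := by positivity
  field_simp
  ring

theorem rf_one (e : ℚ) (k : ℕ) : rf (1+e) k = (k.factorial:ℚ) * ∏ j ∈ range k, (1 + e/(1+(j:ℚ))) := by
  rw [fact_prod, ← prod_mul_distrib]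
  unfold rf
  refine prod_congr rfl fun j _ => ?_
  have : (1+(j:ℚ)) ≠ 0 := by positivity
  field_simp
  ring

/-- the factor -/
def ff (d : ℚ) (j : ℕ) : ℚ := (1 + 3*d/(1/2+(j:ℚ))) * (1 + d/(1/2+(j:ℚ))) * (1 + 2*d/(1/2+(j:ℚ))) /
  ((1 + 2*d/(1+(j:ℚ))) * (1 + 4*d/(1+(j:ℚ))))

theorem tt_prod (d : ℚ) (k : ℕ) : tt d k = t k ^ 3 * 4^k * ∏ j ∈ range k, ff d j := by
  unfold tt ff
  rw [rf_half, rf_half, rf_half, rf_one, rf_one, prod_div_distrib, prod_mul_distrib, prod_mul_distrib,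
    prod_mul_distrib]
  unfold hq
  have f1 : (k.factorial : ℚ) ≠ 0 := by positivity
  generalize ∏ j ∈ range k, (1 + 3*d/(1/2+(j:ℚ))) = a1
  generalize ∏ j ∈ range k, (1 + d/(1/2+(j:ℚ))) = a2
  generalize ∏ j ∈ range k, (1 + 2*d/(1/2+(j:ℚ))) = a3
  generalize ∏ j ∈ range k, (1 + 2*d/(1+(j:ℚ))) = a4
  generalize ∏ j ∈ range k, (1 + 4*d/(1+(j:ℚ))) = a5
  generalize t k = T
  generalize (4:ℚ)^k = F
  generalize (k.factorial : ℚ) = f at *
  rcases eq_or_ne (a4 * a5) 0 with h | h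
  · rcases mul_eq_zero.1 h with h | h
    · rw [h]; simp
    · rw [h]; simp
  · have h4 := left_ne_zero_of_mul h
    have h5 := right_ne_zero_of_mul h
    field_simp

/-- weight -/
def ww (k : ℕ) : ℚ := ∑ j ∈ range k, (6/(1/2+(j:ℚ)) - 6/(1+(j:ℚ)))

section
variable {p : ℕ} [hp : Fact p.Prime] {h : ℕ}

theorem unit_half (h2 : p ≠ 2) (hh : p = 2*h+1) {j : ℕ} (hj : j < h) : padicValRat p (1/2+(j:ℚ)) = 0 := by
  have e : 1/2+(j:ℚ) = ((2*j+1 : ℕ) : ℚ) / 2 := by push_cast; ring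
  have h3 : ((2*j+1 : ℕ) : ℚ) ≠ 0 := by positivity
  rw [e, padicValRat.div h3 (by norm_num), val_two h2, sub_zero]
  exact unit_nat (not_dvd_of_lt (by omega) (by omega))

theorem unit_one {j : ℕ} (hj : j + 1 < p) : padicValRat p (1+(j:ℚ)) = 0 := by
  rw [add_comm]; exact unit_j hj

/-- `(1+3y)(1+y)(1+2y)/((1+2z)(1+4z)) = 1 + 6y - 6z` modulo squares -/
theorem ff_cong {y z : ℚ} (hy : Dv p 1 y) (hz : Dv p 1 z) :
    Dv p 2 ((1+3*y)*(1+y)*(1+2*y)/((1+2*z)*(1+4*z)) - 1 - (6*y-6*z)) := by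
  have c2z : Dv p 1 (2*z) := by simpa using smul_int 2 hz
  have c4z : Dv p 1 (4*z) := by simpa using smul_int 4 hz
  have u1 := unit_sub c2z.neg
  have u2 := unit_sub c4z.neg
  rw [sub_neg_eq_add] at u1 u2
  have hy2 : Dv p 2 (y*y) := by simpa using hy.mul hy
  have hz2 : Dv p 2 (z*z) := by simpa using hz.mul hz
  have hyz : Dv p 2 (y*z) := by simpa using hy.mul hz
  have iy : Dv p 0 y := hy.mono (by norm_num)
  have iz : Dv p 0 z := hz.mono (by norm_num)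
  have nat : ∀ n : ℕ, Dv p 0 ((n:ℕ):ℚ) := fun n => Dv.nat n
  have e : (1+3*y)*(1+y)*(1+2*y)/((1+2*z)*(1+4*z)) - 1 - (6*y-6*z) =
      (y*y*(((11:ℕ):ℚ) + ((6:ℕ):ℚ)*y) - ((36:ℕ):ℚ)*(y*z) + z*z*(((28:ℕ):ℚ)) - ((48:ℕ):ℚ)*(y*z)*z + ((48:ℕ):ℚ)*(z*z)*z)
        /(1+2*z)/(1+4*z) := by
    have u1' := u1.1
    have u2' := u2.1
    push_cast
    rw [div_div, eq_div_iff (mul_ne_zero u1' u2'), sub_mul, sub_mul, div_mul_cancel₀ _ (mul_ne_zero u1' u2')]
    ring
  rw [e]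
  refine (Dv.div_unit (Dv.div_unit ?_ u1.2) u2.2)
  refine (((Dv.sub ?_ ?_).add ?_).sub ?_).add ?_
  · exact hy2.mul0 ((nat 11).add ((nat 6).mul0 iy))
  · exact (nat 36).mul0' hyz
  · exact hz2.mul0 (nat 28)
  · exact ((nat 48).mul0' hyz).mul0 iz
  · exact ((nat 48).mul0' hz2).mul0 iz

theorem t_int (h2 : p ≠ 2) (k : ℕ) : Dv p 0 (t k) := by
  unfold t
  refine (Dv.nat _).div_unit ?_
  rw [padicValRat.pow, show (4:ℚ) = 2*2 by norm_num, padicValRat.mul (by norm_num) (by norm_num),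
    val_two h2]
  simp

theorem c_int (h2 : p ≠ 2) (k : ℕ) : Dv p 0 (t k ^ 3 * 4^k) := by
  have a : Dv p 0 (t k ^ 3) := by simpa using (t_int h2 k).pow 3
  have b : Dv p 0 ((4:ℚ)^k) := by
    have := Dv.nat (p := p) (4^k)
    push_cast at this
    exact this
  exact a.mul0 b

theorem ww_int (h2 : p ≠ 2) (hh : p = 2*h+1) {k : ℕ} (hk : k ≤ h) : Dv p 0 (ww k) := by
  unfold ww
  refine Dv.sum _ _ fun j hj => ?_
  rw [mem_range] at hj
  have n6 : Dv p 0 (6:ℚ) := by simpa using Dv.nat (p := p) 6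
  exact (n6.div_unit (unit_half h2 hh (by omega))).sub (n6.div_unit (unit_one (by omega)))

theorem tt_cong (h2 : p ≠ 2) (hh : p = 2*h+1) {d : ℚ} (hd : Dv p 1 d) {k : ℕ} (hk : k ≤ h) :
    Dv p 2 (tt d k - t k ^ 3 * 4^k * (1 + d * ww k)) := by
  rw [tt_prod]
  have hf : ∀ j ∈ range k, Dv p 2 (ff d j - 1 - (6*(d/(1/2+(j:ℚ))) - 6*(d/(1+(j:ℚ))))) := by
    intro j hj
    rw [mem_range] at hj
    have hy : Dv p 1 (d/(1/2+(j:ℚ))) := hd.div_unit (unit_half h2 hh (by omega))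
    have hz : Dv p 1 (d/(1+(j:ℚ))) := hd.div_unit (unit_one (by omega))
    have := ff_cong hy hz
    unfold ff
    rw [mul_div_assoc 3 d, mul_div_assoc 2 d, mul_div_assoc 2 d, mul_div_assoc 4 d]
    exact this
  have hg : ∀ j ∈ range k, Dv p 1 (6*(d/(1/2+(j:ℚ))) - 6*(d/(1+(j:ℚ)))) := by
    intro j hj
    rw [mem_range] at hj
    have hy : Dv p 1 (d/(1/2+(j:ℚ))) := hd.div_unit (unit_half h2 hh (by omega))
    have hz : Dv p 1 (d/(1+(j:ℚ))) := hd.div_unit (unit_one (by omega))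
    have a := smul_int 6 hy
    have b := smul_int 6 hz
    push_cast at a b
    exact a.sub b
  have h1 := Dv.prod2 (p := p) (n := 1) (by norm_num) (range k) (fun j => ff d j - 1) (by
    intro j hj
    have := ((hf j hj).mono (by norm_num : (1:ℤ) ≤ 2)).add (hg j hj)
    simpa using this)
  have h2' : Dv p 2 (∑ j ∈ range k, (ff d j - 1) - d * ww k) := by
    have e : ∑ j ∈ range k, (ff d j - 1) - d * ww k =
        ∑ j ∈ range k, (ff d j - 1 - (6*(d/(1/2+(j:ℚ))) - 6*(d/(1+(j:ℚ))))) := by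
      unfold ww
      rw [mul_sum, ← sum_sub_distrib]
      refine sum_congr rfl fun j _ => ?_
      ring
    rw [e]
    exact Dv.sum _ _ hf
  have h3 := (h1.mono (by norm_num : (2:ℤ) ≤ 2*1)).add h2'
  have e : ∏ j ∈ range k, (1 + (ff d j - 1)) = ∏ j ∈ range k, ff d j :=
    prod_congr rfl fun j _ => by ring
  rw [e] at h3
  have h4 := (c_int h2 k).mul0' h3
  have e2 : t k ^ 3 * 4^k * (∏ j ∈ range k, ff d j - 1 - ∑ j ∈ range k, (ff d j - 1) +
    (∑ j ∈ range k, (ff d j - 1) - d * ww k)) =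
    t k ^ 3 * 4^k * ∏ j ∈ range k, ff d j - t k ^ 3 * 4^k * (1 + d * ww k) := by ring
  rw [e2] at h4
  exact h4

theorem T_S0 (h2 : p ≠ 2) (h3 : p ≠ 3) (hh : p = 2*h+1) :
    Dv p 2 (3 * T1 h - T2 h - 2 * S0 (h+1)) := by
  have cp : (2*(h:ℚ)+1) = p := by rw [hh]; push_cast; ring
  unfold T1 T2 S0
  rw [mul_sum, mul_sum, ← sum_sub_distrib, ← sum_sub_distrib]
  refine Dv.sum _ _ fun k hk => ?_
  rw [mem_range] at hk
  rw [cp]
  have d6 : Dv p 1 (-(p:ℚ)/6) := (Dv.p1.neg).div_unit (unit_six h2 h3)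
  have d2 : Dv p 1 (-(p:ℚ)/2) := (Dv.p1.neg).div_unit (val_two h2)
  have a := tt_cong h2 hh d6 (k := k) (by omega)
  have b := tt_cong h2 hh d2 (k := k) (by omega)
  have a3 := smul_int 3 a
  have c := a3.sub b
  have e : ((3:ℕ):ℚ) * (tt (-(p:ℚ)/6) k - t k ^ 3 * 4^k * (1 + (-(p:ℚ)/6) * ww k)) -
    (tt (-(p:ℚ)/2) k - t k ^ 3 * 4^k * (1 + (-(p:ℚ)/2) * ww k)) =
    3 * tt (-(p:ℚ)/6) k - tt (-(p:ℚ)/2) k - 2 * (t k ^ 3 * 4^k) := by push_cast; ring
  rw [e] at c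
  exact c

theorem t_big (h2 : p ≠ 2) (hh : p = 2*h+1) {k : ℕ} (h1 : h < k) (hk : k < p) : Dv p 1 (t k) := by
  have hd : p ∣ (k+k).choose k := hp.out.dvd_choose_add hk hk (by omega)
  have e : (Nat.centralBinom k : ℚ) = (((k+k).choose k : ℕ) : ℤ) := by
    unfold Nat.centralBinom
    rw [two_mul]
    norm_num
  unfold t
  rw [e]
  have a : Dv p 1 (((((k+k).choose k : ℕ) : ℤ)) : ℚ) := by
    have := Dv.of_dvd (p := p) (n := 1) (z := (((k+k).choose k : ℕ) : ℤ)) (by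
      rw [pow_one]; exact_mod_cast hd)
    simpa using this
  refine a.div_unit ?_
  rw [padicValRat.pow, show (4:ℚ) = 2*2 by norm_num, padicValRat.mul (by norm_num) (by norm_num),
    val_two h2]
  simp

theorem S0_full (h2 : p ≠ 2) (hh : p = 2*h+1) : Dv p 3 (S0 p - S0 (h+1)) := by
  unfold S0
  have hle : h+1 ≤ p := by omega
  rw [← sum_Ico_eq_sub _ hle]
  refine Dv.sum _ _ fun k hk => ?_
  rw [mem_Ico] at hk
  have a := (t_big h2 hh (k := k) (by omega) (by omega)).pow 3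
  have b : Dv p 0 ((4:ℚ)^k) := by
    have := Dv.nat (p := p) (4^k)
    push_cast at this
    exact this
  exact (show Dv p 3 (t k ^ 3) by simpa using a).mul0 b

/-- `p ≡ 5 (mod 6)` -/
theorem S0_five (h2 : p ≠ 2) (h3 : p ≠ 3) (hh : p = 2*h+1) {i : ℕ} (hi : h = 3*i+2) : Dv p 2 (S0 p) := by
  have h1 := T_S0 (p := p) h2 h3 hh
  have e1 : T1 h = 0 := by rw [hi]; exact T1_two_mod i
  have e2 : Dv p 2 (T2 h) := by
    rw [T2_eq, ← mul_prod_erase (range h) _ (mem_range.2 (show 2*i+1 < h by omega))]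
    have v16 : padicValRat p (16:ℚ) = 0 := by
      rw [show (16:ℚ) = 2*2*2*2 by norm_num, padicValRat.mul (by norm_num) (by norm_num),
        padicValRat.mul (by norm_num) (by norm_num), padicValRat.mul (by norm_num) (by norm_num), val_two h2]
      norm_num
    have c0 : Dv p 0 (-(27/16 : ℚ)) := by
      have := (Dv.nat (p := p) 27).div_unit v16
      push_cast at this
      exact this.neg
    have den : ∀ j < h, padicValRat p (6*(j:ℚ)+3) = 0 := by
      intro j hj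
      have e : 6*(j:ℚ)+3 = 3 * ((2*j+1:ℕ):ℚ) := by push_cast; ring
      rw [e, padicValRat.mul (by norm_num) (by positivity), unit_three h3,
        unit_nat (not_dvd_of_lt (by omega) (by omega))]
      norm_num
    have a1 : Dv p 2 (-(27/16)*((6*((2*i+1:ℕ):ℚ)+4)/(6*((2*i+1:ℕ):ℚ)+3))^2) := by
      have e : 6*((2*i+1:ℕ):ℚ)+4 = ((2:ℕ):ℚ) * p := by
        have : (p:ℚ) = 6*i+5 := by rw [hh, hi]; push_cast; ring
        rw [this]; push_cast; ring
      have b1 : Dv p 1 ((6*((2*i+1:ℕ):ℚ)+4)/(6*((2*i+1:ℕ):ℚ)+3)) := by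
        refine Dv.div_unit ?_ (den _ (by omega))
        rw [e]
        exact smul_int 2 Dv.p1
      exact c0.mul0' (by simpa using b1.pow 2)
    refine a1.mul0 ?_
    have a2 : ∀ s : Finset ℕ, (∀ j ∈ s, j < h) →
        Dv p 0 (∏ j ∈ s, (-(27/16)*((6*(j:ℚ)+4)/(6*(j:ℚ)+3))^2)) := by
      intro s
      induction s using Finset.induction_on with
      | empty => intro _; simpa using Dv.one (p := p)
      | insert a s ha ih =>
        intro hs
        rw [prod_insert ha]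
        refine Dv.mul0 ?_ (ih fun j hj => hs j (mem_insert_of_mem hj))
        have e : 6*(a:ℚ)+4 = ((6*a+4 : ℕ) : ℚ) := by push_cast; ring
        have b1 : Dv p 0 ((6*(a:ℚ)+4)/(6*(a:ℚ)+3)) := by
          refine Dv.div_unit ?_ (den _ (hs a (mem_insert_self _ _)))
          rw [e]
          exact Dv.nat _
        exact c0.mul0 (by simpa using b1.pow 2)
    refine a2 _ fun j hj => ?_
    have := mem_of_mem_erase hj
    rwa [mem_range] at this
  rw [e1] at h1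
  have a := (h1.add e2).neg
  have e : -(3 * 0 - T2 h - 2 * S0 (h+1) + T2 h) = 2 * S0 (h+1) := by ring
  rw [e] at a
  have b := a.of_unit_mul (val_two h2) (by norm_num)
  have c := ((S0_full (p := p) h2 hh).mono (by norm_num : (2:ℤ) ≤ 3)).add b
  simpa using c

end

end Pool.Agent.N926.F54
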