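import Pool.Agent.N926.F54.J

set_option autoImplicit false
set_option linter.unusedVariables false

namespace Pool.Agent.N926.F54

open Finset Pool.Agent.N926.Sup2 Pool.Agent.N926.Sup

/-- `a ≡ 1 + p w (mod p^2)` -/
def LR (p : ℕ) (a w : ℚ) : Prop := Dv p 2 (a - 1 - p*w) ∧ Dv p 0 w

section
variable {p : ℕ} [hp : Fact p.Prime]

theorem LR.one1 {a w : ℚ} (h : LR p a w) : Dv p 1 (a - 1) := by
  have := (h.1.mono (by norm_num : (1:ℤ) ≤ 2)).add (Dv.p1.mul0 h.2)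
  simpa using this

theorem LR.int {a w : ℚ} (h : LR p a w) : Dv p 0 a := int_of_one h.one1

theorem LR.unit {a w : ℚ} (h : LR p a w) : a ≠ 0 ∧ padicValRat p a = 0 :=
  unit_of_cong h.one1 (by norm_num) padicValRat.one

theorem LR.mul {a b w v : ℚ} (h : LR p a w) (g : LR p b v) : LR p (a*b) (w+v) := by
  refine ⟨?_, h.2.add g.2⟩
  have e : a*b - 1 - p*(w+v) = (a-1-p*w)*b + (b-1-p*v) + (p:ℚ)^1*w*(b-1) := by ring
  rw [e]
  refine ((h.1.mul0 g.int).add g.1).add ?_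
  have := ((Dv.p_pow (p := p) 1).mul0 h.2).mul g.one1
  exact this.mono (by norm_num)

theorem LR.one : LR p 1 0 := ⟨by simpa using Dv.zero (p := p) 2, Dv.zero _⟩

theorem LR.inv {a w : ℚ} (h : LR p a w) : LR p a⁻¹ (-w) := by
  have hu := h.unit
  refine ⟨?_, h.2.neg⟩
  refine Dv.of_unit_mul hu.2 hu.1 ?_
  have e : a * (a⁻¹ - 1 - p * -w) = -(a - 1 - p*w) + p*w*(a-1) := by
    have : a * a⁻¹ = 1 := mul_inv_cancel₀ hu.1
    linear_combination this
  rw [e]
  refine h.1.neg.add ?_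
  exact ((Dv.p1.mul0 h.2).mul h.one1).mono (by norm_num)

theorem LR.div {a b w v : ℚ} (h : LR p a w) (g : LR p b v) : LR p (a/b) (w-v) := by
  rw [div_eq_mul_inv, sub_eq_add_neg]
  exact h.mul g.inv

theorem LR.sq {a w : ℚ} (h : LR p a w) : LR p (a^2) (2*w) := by
  rw [pow_two, two_mul]
  exact h.mul h

theorem LR.cube {a w : ℚ} (h : LR p a w) : LR p (a^3) (3*w) := by
  have := h.sq.mul h
  have e : 2*w + w = 3*w := by ring
  rw [e] at this
  have e2 : a^2*a = a^3 := by ring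
  rwa [e2] at this

/-- `∏_{m < l ≤ m+k} (1 - c p / l)` -/
def PR (p : ℕ) (c : ℚ) (m k : ℕ) : ℚ := ∏ l ∈ range k, (1 - c*p/((m:ℚ)+l+1))

theorem Hs_add (m k : ℕ) : Hs 1 (m+k) - Hs 1 m = ∑ l ∈ range k, 1/((m:ℚ)+l+1) := by
  induction k with
  | zero => simp
  | succ k ih =>
    rw [sum_range_succ, ← ih, ← add_assoc, Hs_succ]
    push_cast
    ring

theorem PR_LR {c : ℚ} (hc : Dv p 0 c) {m k : ℕ} (hk : m + k < p) :
    LR p (PR p c m k) (-c * (Hs 1 (m+k) - Hs 1 m)) := by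
  have hu : ∀ l < k, Dv p 0 (1/((m:ℚ)+l+1)) := by
    intro l hl
    refine Dv.one.div_unit ?_
    have e : (m:ℚ)+l+1 = ((m+l+1:ℕ):ℚ) := by push_cast; ring
    rw [e]
    exact unit_nat (not_dvd_of_lt (by omega) (by omega))
  have h1 := Dv.prod2 (p := p) (n := 1) (by norm_num) (range k) (fun l => -(c*p/((m:ℚ)+l+1))) (by
    intro l hl
    rw [mem_range] at hl
    have a := (hc.mul0' (Dv.p1 (p := p))).mul0 (hu l hl)
    have e : c * p * (1/((m:ℚ)+l+1)) = c*p/((m:ℚ)+l+1) := by ring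
    rw [e] at a
    exact a.neg)
  constructor
  · rw [Hs_add]
    have e : ∑ l ∈ range k, -(c*p/((m:ℚ)+l+1)) = p * (-c * ∑ l ∈ range k, 1/((m:ℚ)+l+1)) := by
      rw [mul_sum, mul_sum]
      refine sum_congr rfl fun l _ => ?_
      ring
    rw [e] at h1
    unfold PR
    simpa [sub_eq_add_neg] using h1
  · rw [Hs_add]
    exact hc.neg.mul0 (Dv.sum _ _ fun l hl => hu l (mem_range.1 hl))

end

def A3 (i : ℕ) : ℚ := ∏ j ∈ range i, (3*(j:ℚ)+1)
def B3 (i : ℕ) : ℚ := ∏ j ∈ range i, (3*(j:ℚ)+2)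
def O2 (i : ℕ) : ℚ := ∏ j ∈ range i, (2*(j:ℚ)+1)
def G6 (i : ℕ) : ℚ := ∏ j ∈ range i, (6*(j:ℚ)+1)

theorem fact_seg (m k : ℕ) : ((m+k).factorial : ℚ) = (m.factorial : ℚ) * ∏ l ∈ range k, ((m:ℚ)+l+1) := by
  induction k with
  | zero => simp
  | succ k ih =>
    rw [prod_range_succ, ← mul_assoc, ← ih, ← add_assoc, Nat.factorial_succ]
    push_cast
    ring

/-- general segment identity -/
theorem seg {p : ℕ} {c a : ℚ} {m k : ℕ} (g : ℕ → ℚ)
    (hg : ∀ l < k, a * ((m:ℚ)+l+1 - c*p) = g l) :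
    (∏ l ∈ range k, g l) * (m.factorial : ℚ) = a^k * ((m+k).factorial : ℚ) * PR p c m k := by
  rw [fact_seg]
  unfold PR
  have e : a^k = ∏ l ∈ range k, a := by rw [prod_const, card_range]
  rw [e]
  have e2 : (∏ l ∈ range k, a) * ((m.factorial:ℚ) * ∏ l ∈ range k, ((m:ℚ)+l+1)) * ∏ l ∈ range k, (1 - c*p/((m:ℚ)+l+1)) =
      (∏ l ∈ range k, (a * ((m:ℚ)+l+1) * (1 - c*p/((m:ℚ)+l+1)))) * (m.factorial:ℚ) := by
    rw [prod_mul_distrib, prod_mul_distrib]
    ring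
  rw [e2]
  congr 1
  refine prod_congr rfl fun l hl => ?_
  rw [mem_range] at hl
  rw [← hg l hl]
  have : ((m:ℚ)+l+1) ≠ 0 := by positivity
  field_simp

theorem refl_prod (f : ℕ → ℚ) (k : ℕ) : ∏ j ∈ range k, f j = ∏ l ∈ range k, f (k-1-l) :=
  (prod_range_reflect f k).symm

theorem cast_refl {k l : ℕ} (h : l < k) : ((k-1-l : ℕ):ℚ) = (k:ℚ) - 1 - l := by
  rw [Nat.cast_sub (by omega), Nat.cast_sub (by omega)]
  simp

section
variable {p i : ℕ} (hi : p = 6*i+1)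
include hi

theorem cpi : (p:ℚ) = 6*i+1 := by rw [hi]; push_cast; ring

theorem s1 : A3 i * (i.factorial : ℚ) = (-3)^i * ((2*i).factorial : ℚ) * PR p (1/3) i i := by
  have h := seg (p := p) (c := 1/3) (a := -3) (m := i) (k := i) (fun l => 3*((i-1-l:ℕ):ℚ)+1) (by
    intro l hl
    rw [cast_refl hl, cpi hi]; ring)
  rw [← two_mul] at h
  unfold A3
  rw [refl_prod (fun j => 3*(j:ℚ)+1), ← h]

theorem s2 : B3 i * ((2*i).factorial : ℚ) = 3^i * ((3*i).factorial : ℚ) * PR p (1/3) (2*i) i := by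
  have h := seg (p := p) (c := 1/3) (a := 3) (m := 2*i) (k := i) (fun l => 3*(l:ℚ)+2) (by
    intro l hl
    rw [cpi hi]; push_cast; ring)
  rw [show 2*i+i = 3*i by ring] at h
  unfold B3
  rw [← h]

theorem s3 : O2 i * ((2*i).factorial : ℚ) = (-2)^i * ((3*i).factorial : ℚ) * PR p (1/2) (2*i) i := by
  have h := seg (p := p) (c := 1/2) (a := -2) (m := 2*i) (k := i) (fun l => 2*((i-1-l:ℕ):ℚ)+1) (by
    intro l hl
    rw [cast_refl hl, cpi hi]; push_cast; ring)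
  rw [show 2*i+i = 3*i by ring] at h
  unfold O2
  rw [refl_prod (fun j => 2*(j:ℚ)+1), ← h]

theorem s4 : G6 i = (-6)^i * (i.factorial : ℚ) * PR p (1/6) 0 i := by
  have h := seg (p := p) (c := 1/6) (a := -6) (m := 0) (k := i) (fun l => 6*((i-1-l:ℕ):ℚ)+1) (by
    intro l hl
    rw [cast_refl hl, cpi hi]; push_cast; ring)
  rw [zero_add, Nat.factorial_zero, Nat.cast_one, mul_one] at h
  unfold G6
  rw [refl_prod (fun j => 6*(j:ℚ)+1), ← h]

theorem s5 : B3 (3*i) * (i.factorial : ℚ) = B3 i * (9^i * ((3*i).factorial : ℚ) * PR p (2/3) i (2*i)) := by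
  have h := seg (p := p) (c := 2/3) (a := -3) (m := i) (k := 2*i) (fun l => 3*((3*i-1-l:ℕ):ℚ)+2) (by
    intro l hl
    have : ((3*i-1-l : ℕ):ℚ) = ((3*i:ℕ):ℚ) - 1 - l := cast_refl (by omega)
    rw [this, cpi hi]; push_cast; ring)
  rw [show i+2*i = 3*i by ring] at h
  have e9 : (-3:ℚ)^(2*i) = 9^i := by rw [pow_mul]; norm_num
  rw [e9] at h
  rw [← h, ← mul_assoc]
  congr 1
  unfold B3
  rw [show 3*i = i + 2*i by ring, prod_range_add]
  congr 1
  rw [refl_prod (fun x => 3*((i+x:ℕ):ℚ)+2)]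
  refine prod_congr rfl fun l hl => ?_
  rw [mem_range] at hl
  congr 3
  omega

theorem s6 : O2 (3*i) = (-2)^(3*i) * ((3*i).factorial : ℚ) * PR p (1/2) 0 (3*i) := by
  have h := seg (p := p) (c := 1/2) (a := -2) (m := 0) (k := 3*i) (fun l => 2*((3*i-1-l:ℕ):ℚ)+1) (by
    intro l hl
    rw [cast_refl hl, cpi hi]; push_cast; ring)
  rw [zero_add, Nat.factorial_zero, Nat.cast_one, mul_one] at h
  unfold O2
  rw [refl_prod (fun j => 2*(j:ℚ)+1), ← h]

theorem s7 : PR p 1 0 (3*i) = 4^(3*i) * PR p (1/2) 0 (3*i) := by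
  have a := prod_neg_x (3*i)
  have b := prod_neg_2x (3*i)
  have e1 : PR p (1/2) 0 (3*i) = ∏ l ∈ range (3*i), (1 - x (3*i) l) := by
    unfold PR x
    refine prod_congr rfl fun l _ => ?_
    rw [cpi hi]
    push_cast
    have : ((l:ℚ)+1) ≠ 0 := by positivity
    field_simp
    ring
  have e2 : PR p 1 0 (3*i) = ∏ l ∈ range (3*i), (1 - 2 * x (3*i) l) := by
    unfold PR x
    refine prod_congr rfl fun l _ => ?_
    rw [cpi hi]
    push_cast
    have : ((l:ℚ)+1) ≠ 0 := by positivity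
    field_simp
    ring
  rw [e1, e2, a, b]
  ring

end

theorem f1 (i : ℕ) : A3 i * B3 i * (3^i * (i.factorial : ℚ)) = ((3*i).factorial : ℚ) := by
  unfold A3 B3
  induction i with
  | zero => simp
  | succ i ih =>
    rw [prod_range_succ, prod_range_succ, show 3*(i+1) = 3*i+1+1+1 by ring, Nat.factorial_succ,
      Nat.factorial_succ, Nat.factorial_succ, Nat.factorial_succ]
    push_cast
    rw [← ih, pow_succ]
    ring

theorem f2 (i : ℕ) : O2 i * (2^i * (i.factorial : ℚ)) = ((2*i).factorial : ℚ) := by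
  unfold O2
  induction i with
  | zero => simp
  | succ i ih =>
    rw [prod_range_succ, show 2*(i+1) = 2*i+1+1 by ring, Nat.factorial_succ,
      Nat.factorial_succ, Nat.factorial_succ]
    push_cast
    rw [← ih, pow_succ]
    ring

theorem T1_prod (i : ℕ) : T1 (3*i) = (-(27/16))^i * (2^i * A3 i / G6 i)^2 := by
  rw [T1_zero_mod]
  unfold A3 G6
  induction i with
  | zero => simp
  | succ i ih =>
    rw [prod_range_succ, ih, prod_range_succ, prod_range_succ, pow_succ, pow_succ]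
    have : (6*(i:ℚ)+1) ≠ 0 := by positivity
    have h2 : (∏ j ∈ range i, (6*(j:ℚ)+1)) ≠ 0 := by
      rw [prod_ne_zero_iff]; intro j _; positivity
    field_simp
    ring

theorem T2_prod (n : ℕ) : T2 n = (-(27/16))^n * (2^n * B3 n / (3^n * O2 n))^2 := by
  rw [T2_eq]
  unfold B3 O2
  induction n with
  | zero => simp
  | succ i ih =>
    rw [prod_range_succ, ih, prod_range_succ, prod_range_succ, pow_succ, pow_succ, pow_succ]
    have h0 : (6*(i:ℚ)+3) = 3*(2*(i:ℚ)+1) := by ring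
    rw [h0]
    have : (2*(i:ℚ)+1) ≠ 0 := by positivity
    have h2 : (∏ j ∈ range i, (2*(j:ℚ)+1)) ≠ 0 := by
      rw [prod_ne_zero_iff]; intro j _; positivity
    field_simp
    ring

end Pool.Agent.N926.F54
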