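import Pool.Agent.N926.F54.K

set_option autoImplicit false
set_option linter.unusedVariables false

namespace Pool.Agent.N926.F54

open Finset Pool.Agent.N926.Sup2 Pool.Agent.N926.Sup

/-- `C(3i,i)` -/
def CC (i : ℕ) : ℚ := ((3*i).factorial : ℚ) / ((i.factorial : ℚ) * ((2*i).factorial : ℚ))

section
variable {p i : ℕ}

theorem PR_pos_of (hi : p = 6*i+1) {c : ℚ} {m k : ℕ} (h : ∀ l < k, (m:ℚ)+l+1 ≠ c*p) : PR p c m k ≠ 0 := by
  unfold PR
  rw [prod_ne_zero_iff]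
  intro l hl
  rw [mem_range] at hl
  have h0 : ((m:ℚ)+l+1) ≠ 0 := by positivity
  intro h1
  apply h l hl
  rw [sub_eq_zero, eq_div_iff h0] at h1
  linarith

end

section
variable {p : ℕ} [hp : Fact p.Prime] {i : ℕ}

theorem L_int (h2 : p ≠ 2) (h3 : p ≠ 3) : Dv p 0 (1/3:ℚ) ∧ Dv p 0 (1/2:ℚ) ∧ Dv p 0 (1/6:ℚ) ∧ Dv p 0 (2/3:ℚ) := by
  refine ⟨Dv.one.div_unit (unit_three h3), Dv.one.div_unit (val_two h2), Dv.one.div_unit (unit_six h2 h3), ?_⟩
  have : Dv p 0 (2:ℚ) := by simpa using Dv.nat (p := p) 2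
  exact this.div_unit (unit_three h3)

theorem T1_C (h2 : p ≠ 2) (h3 : p ≠ 3) (hi : p = 6*i+1) (i1 : 1 ≤ i) :
    ∃ a : ℚ, T1 (3*i) = CC i ^ 2 * a ∧
      LR p a (-(2/3)*Hs 1 (3*i) + (1/3)*Hs 1 (2*i) + (2/3)*Hs 1 i) := by
  obtain ⟨q1, q2, q3, q4⟩ := L_int (p := p) h2 h3
  have l1 := PR_LR (p := p) q1 (m := i) (k := i) (by omega)
  have l2 := PR_LR (p := p) q1 (m := 2*i) (k := i) (by omega)
  have l3 := PR_LR (p := p) q2 (m := 2*i) (k := i) (by omega)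
  have l4 := PR_LR (p := p) q3 (m := 0) (k := i) (by omega)
  have e1 := s1 hi
  have e2 := s2 hi
  have e3 := s3 hi
  have e4 := s4 hi
  have g1 := f1 i
  have g2 := f2 i
  have u1 := l1.unit.1
  have u2 := l2.unit.1
  have u3 := l3.unit.1
  have u4 := l4.unit.1
  have lr := (l3.sq.mul l1).div (l2.mul l4.sq)
  rw [show i + i = 2*i by ring, show 2*i+i = 3*i by ring, zero_add, Hs_zero, sub_zero] at lr
  · have ew : 2 * (-(1/2) * (Hs 1 (3*i) - Hs 1 (2*i))) + -(1/3) * (Hs 1 (2*i) - Hs 1 i) -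
      (-(1/3) * (Hs 1 (3*i) - Hs 1 (2*i)) + 2 * (-(1/6) * Hs 1 i)) =
      -(2/3)*Hs 1 (3*i) + (1/3)*Hs 1 (2*i) + (2/3)*Hs 1 i := by ring
    rw [ew] at lr
    refine ⟨_, ?_, lr⟩
    rw [T1_prod]
    unfold CC
    have f1 : (i.factorial : ℚ) ≠ 0 := by positivity
    have f2 : ((2*i).factorial : ℚ) ≠ 0 := by positivity
    have f3 : ((3*i).factorial : ℚ) ≠ 0 := by positivity
    generalize (i.factorial : ℚ) = F1 at *
    generalize ((2*i).factorial : ℚ) = F2 at *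
    generalize ((3*i).factorial : ℚ) = F3 at *
    generalize PR p (1/3) i i = P1 at *
    generalize PR p (1/3) (2*i) i = P2 at *
    generalize PR p (1/2) (2*i) i = P3 at *
    generalize PR p (1/6) 0 i = P4 at *
    have r1 : A3 i = (-3)^i * F2 * P1 / F1 := by rw [eq_div_iff f1]; exact e1
    have r2 : B3 i = 3^i * F3 * P2 / F2 := by rw [eq_div_iff f2]; exact e2
    have r3 : O2 i = (-2)^i * F3 * P3 / F2 := by rw [eq_div_iff f2]; exact e3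
    rw [r1, r2] at g1
    rw [r3] at g2
    rw [r1, e4]
    have p3 : (3:ℚ)^i ≠ 0 := by positivity
    have p2 : (2:ℚ)^i ≠ 0 := by positivity
    have x1 : (-3:ℚ)^i = (-1)^i * 3^i := by rw [← mul_pow]; norm_num
    have x2 : (-2:ℚ)^i = (-1)^i * 2^i := by rw [← mul_pow]; norm_num
    have x6 : (-6:ℚ)^i = (-1)^i * (2^i * 3^i) := by rw [← mul_pow, ← mul_pow]; norm_num
    have x27 : (-(27/16):ℚ)^i = (-1)^i * (3^i)^3 / (2^i)^4 := by
      rw [← pow_mul, ← pow_mul, mul_comm i 3, mul_comm i 4, pow_mul, pow_mul, ← mul_pow, ← div_pow]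
      norm_num
    have s1 : (-1:ℚ)^i * (-1)^i = 1 := by rw [← mul_pow]; norm_num
    have s0 : (-1:ℚ)^i ≠ 0 := by
      intro h; rw [h] at s1; norm_num at s1
    rw [x1] at g1 ⊢
    rw [x2] at g2
    rw [x6, x27]
    generalize (-1:ℚ)^i = σ at *
    generalize (3:ℚ)^i = t3 at *
    generalize (2:ℚ)^i = t2 at *
    -- (B)
    have hB : σ * t3^3 * (P1 * P2) = 1 := by
      have a : F3 * (σ * t3^3 * (P1 * P2)) = F3 * 1 := by
        rw [mul_one]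
        conv_rhs => rw [← g1]
        field_simp
      exact mul_left_cancel₀ f3 a
    have hC : F2^2 = σ * t2^2 * F1 * F3 * P3 := by
      have a : F2 * F2 = F2 * (σ * t2 * F3 * P3 / F2 * (t2 * F1)) := by rw [g2]
      rw [sq, a]
      field_simp
    have key : σ * t3^3 / t2^4 * (t2 * (σ * t3 * F2 * P1 / F1) / (σ * (t2 * t3) * F1 * P4))^2 =
        σ * t3^3 / t2^4 * (F2^2 * P1^2 / (F1^4 * P4^2)) := by
      congr 1
      field_simp
    rw [key]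
    have k3 : σ * t3^3 = 1/(P1*P2) := by
      rw [eq_div_iff (mul_ne_zero u1 u2)]; exact hB
    rw [k3]
    have k4 : (F3 / (F1*F2))^2 = F3^2/(F1^2 * F2^2) := by rw [div_pow, mul_pow]
    rw [k4]
    rw [div_div, div_mul_div_comm, div_mul_div_comm, div_eq_div_iff (by positivity) (by positivity)]
    have h4 : F2^2 * F2^2 = t2^4 * F1^2 * F3^2 * P3^2 := by
      rw [hC]
      linear_combination (t2^4*F1^2*F3^2*P3^2) * s1
    linear_combination (P1^2 * F1^2 * P2 * P4^2) * h4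

theorem T2_C (h2 : p ≠ 2) (h3 : p ≠ 3) (hi : p = 6*i+1) (i1 : 1 ≤ i) :
    ∃ a : ℚ, T2 (3*i) = CC i ^ 2 * a ∧
      LR p a (Hs 1 (3*i) + (1/3)*Hs 1 i + (2/3)*Hs 1 (2*i)) := by
  obtain ⟨q1, q2, q3, q4⟩ := L_int (p := p) h2 h3
  have l1 := PR_LR (p := p) q1 (m := i) (k := i) (by omega)
  have l2 := PR_LR (p := p) q1 (m := 2*i) (k := i) (by omega)
  have l5 := PR_LR (p := p) q4 (m := i) (k := 2*i) (by omega)
  have l6 := PR_LR (p := p) q2 (m := 0) (k := 3*i) (by omega)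
  have l7 := PR_LR (p := p) Dv.one (m := 0) (k := 3*i) (by omega)
  have e1 := s1 hi
  have e2 := s2 hi
  have e5 := s5 hi
  have e6 := s6 hi
  have e7 := s7 hi
  have g1 := f1 i
  have u1 := l1.unit.1
  have u2 := l2.unit.1
  have u5 := l5.unit.1
  have u6 := l6.unit.1
  have u7 := l7.unit.1
  have lr := l5.sq.div ((l1.cube.mul l2).mul l7.sq)
  rw [show i + i = 2*i by ring, show 2*i+i = 3*i by ring, show i+2*i = 3*i by ring, zero_add, Hs_zero, sub_zero] at lr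
  · have ew : 2 * (-(2/3) * (Hs 1 (3*i) - Hs 1 i)) - (3 * (-(1/3) * (Hs 1 (2*i) - Hs 1 i)) +
      -(1/3) * (Hs 1 (3*i) - Hs 1 (2*i)) + 2 * (-1 * Hs 1 (3*i))) =
      Hs 1 (3*i) + (1/3)*Hs 1 i + (2/3)*Hs 1 (2*i) := by ring
    rw [ew] at lr
    refine ⟨_, ?_, lr⟩
    rw [T2_prod]
    unfold CC
    have f1 : (i.factorial : ℚ) ≠ 0 := by positivity
    have f2 : ((2*i).factorial : ℚ) ≠ 0 := by positivity
    have f3 : ((3*i).factorial : ℚ) ≠ 0 := by positivity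
    generalize (i.factorial : ℚ) = F1 at *
    generalize ((2*i).factorial : ℚ) = F2 at *
    generalize ((3*i).factorial : ℚ) = F3 at *
    generalize PR p (1/3) i i = P1 at *
    generalize PR p (1/3) (2*i) i = P2 at *
    generalize PR p (2/3) i (2*i) = P5 at *
    generalize PR p (1/2) 0 (3*i) = P6 at *
    generalize PR p 1 0 (3*i) = P7 at *
    have r1 : A3 i = (-3)^i * F2 * P1 / F1 := by rw [eq_div_iff f1]; exact e1
    have r2 : B3 i = 3^i * F3 * P2 / F2 := by rw [eq_div_iff f2]; exact e2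
    have r5 : B3 (3*i) = 3^i * F3 * P2 / F2 * (9^i * F3 * P5) / F1 := by
      rw [eq_div_iff f1, ← r2]; exact e5
    rw [r1, r2] at g1
    rw [r5, e6]
    have p3 : (3:ℚ)^i ≠ 0 := by positivity
    have p2 : (2:ℚ)^i ≠ 0 := by positivity
    have x1 : (-3:ℚ)^i = (-1)^i * 3^i := by rw [← mul_pow]; norm_num
    have x2 : (-2:ℚ)^(3*i) = (-1)^i * (2^i)^3 := by
      rw [← pow_mul, mul_comm i 3, pow_mul, pow_mul, ← mul_pow]; norm_num
    have x3 : (2:ℚ)^(3*i) = (2^i)^3 := by rw [← pow_mul, mul_comm i 3]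
    have x4 : (3:ℚ)^(3*i) = (3^i)^3 := by rw [← pow_mul, mul_comm i 3]
    have x5 : (9:ℚ)^i = (3^i)^2 := by rw [← pow_mul, mul_comm i 2, pow_mul]; norm_num
    have x7 : (4:ℚ)^(3*i) = (2^i)^6 := by
      rw [← pow_mul, mul_comm i 6, pow_mul, pow_mul]; norm_num
    have x27 : (-(27/16):ℚ)^(3*i) = (-1)^i * (3^i)^9 / (2^i)^12 := by
      rw [← pow_mul, ← pow_mul, mul_comm i 9, mul_comm i 12, pow_mul, pow_mul, pow_mul, ← mul_pow, ← div_pow]
      norm_num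
    have s1 : (-1:ℚ)^i * (-1)^i = 1 := by rw [← mul_pow]; norm_num
    have s0 : (-1:ℚ)^i ≠ 0 := by
      intro h; rw [h] at s1; norm_num at s1
    rw [x1] at g1
    rw [x7] at e7
    rw [x2, x3, x4, x5, x27]
    generalize (-1:ℚ)^i = σ at *
    generalize (3:ℚ)^i = t3 at *
    generalize (2:ℚ)^i = t2 at *
    have hB : σ * t3^3 * (P1 * P2) = 1 := by
      have a : F3 * (σ * t3^3 * (P1 * P2)) = F3 * 1 := by
        rw [mul_one]
        conv_rhs => rw [← g1]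
        field_simp
      exact mul_left_cancel₀ f3 a
    have k6 : P6 = P7 / t2^6 := by rw [e7]; field_simp
    rw [k6]
    have key : σ * t3^9 / t2^12 * (t2^3 * (t3 * F3 * P2 / F2 * (t3^2 * F3 * P5) / F1) /
        (t3^3 * (σ * t2^3 * F3 * (P7 / t2^6))))^2 =
        (F3/(F1*F2))^2 * ((σ * t3^9) * (P2^2 * P5^2 / (σ^2 * P7^2))) := by
      field_simp
    rw [key]
    congr 1
    have k2 : σ^2 = 1 := by rw [sq]; exact s1
    have k9 : σ * t3^9 = 1/(P1*P2)^3 := by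
      rw [eq_div_iff (pow_ne_zero _ (mul_ne_zero u1 u2))]
      have : (σ * t3^3 * (P1 * P2))^3 = 1 := by rw [hB]; norm_num
      have h9 : (σ * t3^3 * (P1 * P2))^3 = σ^2 * (σ * t3^9 * (P1*P2)^3) := by ring
      rw [h9, k2, one_mul] at this
      exact this
    rw [k9, k2]
    field_simp

theorem H_rel (h2 : p ≠ 2) (hi : p = 6*i+1) (i1 : 1 ≤ i) : Dv p 1 (Hs 1 i - Hs 1 (2*i) - Hs 1 (3*i)) := by
  have hh : p = 2*(3*i)+1 := by omega
  have d := Hz_dup p h2 hh (i : ZMod p)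
  have cz : (6*(i:ZMod p)+1) = 0 := by
    have h0 : ((6*i+1 : ℕ) : ZMod p) = ((p:ℕ) : ZMod p) := by congr 1; exact hi.symm
    rw [ZMod.natCast_self] at h0
    push_cast at h0
    exact h0
  have r := Hz_refl p h2 hh (2*(i:ZMod p))
  have e1 : -1 - 2*(i:ZMod p) = (i:ZMod p) + ((3*i:ℕ):ZMod p) := by
    push_cast
    linear_combination -cz
  rw [e1] at r
  rw [r] at d
  have c1 : (2*(i:ZMod p)) = ((2*i:ℕ):ZMod p) := by push_cast; ring
  rw [c1, Hz_nat p h2, Hz_nat p h2, Hz_nat p h2] at d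
  have hb := ((Br_Hs (p := p) 1 i (by omega)).sub (Br_Hs (p := p) 1 (2*i) (by omega))).sub
    (Br_Hs (p := p) 1 (3*i) (by omega))
  refine hb.zero ?_
  have e2 : ∀ n : ℕ, ∑ j ∈ range n, ((((j+1:ℕ) : ZMod p))⁻¹)^1 = hN p n := by
    intro n
    unfold hN
    refine sum_congr rfl fun j _ => ?_
    rw [pow_one]
  rw [e2, e2, e2]
  linear_combination -d

/-- `w` -/
def om (i : ℕ) : ℚ := 3*i*Hs 1 (3*i) - i*Hs 1 i - 2*i*Hs 1 (2*i)

theorem S0_one (h2 : p ≠ 2) (h3 : p ≠ 3) (hi : p = 6*i+1) (i1 : 1 ≤ i) :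
    Dv p 2 (S0 p - CC i ^ 2 * (1 + 2*p*om i)) := by
  have hh : p = 2*(3*i)+1 := by omega
  obtain ⟨a, ea, la⟩ := T1_C (p := p) h2 h3 hi i1
  obtain ⟨b, eb, lb⟩ := T2_C (p := p) h2 h3 hi i1
  have ts := T_S0 (p := p) h2 h3 hh
  rw [ea, eb] at ts
  have hrel := H_rel (p := p) h2 hi i1
  have h1 : Dv p 0 (Hs 1 i) := Hs_int (by omega)
  have h22 : Dv p 0 (Hs 1 (2*i)) := Hs_int (by omega)
  have h33 : Dv p 0 (Hs 1 (3*i)) := Hs_int (by omega)
  obtain ⟨q1, q2, q3, q4⟩ := L_int (p := p) h2 h3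
  have cint : Dv p 0 (CC i ^ 2) := by
    have : CC i = (((3*i).choose i : ℕ) : ℚ) := by
      unfold CC
      rw [Nat.cast_choose ℚ (by omega : i ≤ 3*i), show 3*i-i = 2*i by omega]
    rw [this]
    have := (Dv.nat (p := p) ((3*i).choose i)).pow 2
    simpa using this
  have n2 : Dv p 0 (2:ℚ) := by simpa using Dv.nat (p := p) 2
  have nn : ∀ n : ℕ, Dv p 0 ((n:ℕ):ℚ) := fun n => Dv.nat n
  -- 3 a - b - 2 (1 + 2 p w)
  have key : Dv p 2 (3*a - b - 2*(1+2*p*om i)) := by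
    have a1 := smul_int 3 la.1
    have a2 := a1.sub lb.1
    have hp1 : Dv p 2 ((p:ℚ) * (Hs 1 i - Hs 1 (2*i) - Hs 1 (3*i))) := (Dv.p1.mul hrel).mono (by norm_num)
    have hp2 : Dv p 2 ((p:ℚ)^2 * (-(((2:ℕ):ℚ)*Hs 1 (3*i)) + ((2:ℕ):ℚ)*((2/3)*Hs 1 (2*i)) + (2/3)*Hs 1 i)) :=
      (Dv.p_pow 2).mul0 ((((nn 2).mul0 h33).neg.add ((nn 2).mul0 (q4.mul0 h22))).add (q4.mul0 h1))
    have e : 3*a - b - 2*(1+2*p*om i) =
      ((3:ℕ):ℚ) * (a - 1 - p*(-(2/3)*Hs 1 (3*i) + (1/3)*Hs 1 (2*i) + (2/3)*Hs 1 i)) -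
      (b - 1 - p*(Hs 1 (3*i) + (1/3)*Hs 1 i + (2/3)*Hs 1 (2*i))) +
      ((p:ℚ) * (Hs 1 i - Hs 1 (2*i) - Hs 1 (3*i)) +
      (p:ℚ)^2 * (-(((2:ℕ):ℚ)*Hs 1 (3*i)) + ((2:ℕ):ℚ)*((2/3)*Hs 1 (2*i)) + (2/3)*Hs 1 i)) := by
      unfold om
      have : (p:ℚ) = 6*i+1 := cpi hi
      rw [this]
      push_cast
      ring
    rw [e]
    exact a2.add (hp1.add hp2)
  have k2 := (cint.mul0' key).sub ts
  have e : CC i ^ 2 * (3*a - b - 2*(1+2*p*om i)) - (3 * (CC i ^ 2 * a) - CC i ^ 2 * b - 2 * S0 (3*i+1)) =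
    2 * (S0 (3*i+1) - CC i ^ 2 * (1 + 2*p*om i)) := by ring
  rw [e] at k2
  have k3 := k2.of_unit_mul (val_two h2) (by norm_num)
  have k4 := ((S0_full (p := p) h2 hh).mono (by norm_num : (2:ℤ) ≤ 3)).add k3
  have e2 : S0 p - S0 (3*i+1) + (S0 (3*i+1) - CC i ^ 2 * (1 + 2*p*om i)) = S0 p - CC i ^ 2 * (1 + 2*p*om i) := by ring
  rw [e2] at k4
  exact k4

end

end Pool.Agent.N926.F54
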