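import Mathlib

/-! the character sum `∑ χ(x^3+1)` over `ZMod p`, `p ≡ 1 (mod 6)` -/

set_option autoImplicit false
set_option linter.unusedVariables false
set_option linter.unusedSectionVars false

namespace Pool.Agent.N926.F54

open Finset

section
variable (p : ℕ) [hp : Fact p.Prime]

/-- quadratic character of `ZMod p` -/
noncomputable def qc (x : ZMod p) : ℤ := quadraticChar (ZMod p) x

theorem qc_mul (x y : ZMod p) : qc p (x*y) = qc p x * qc p y := map_mul _ _ _

theorem qc_zero : qc p 0 = 0 := by unfold qc; simp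

theorem qc_one : qc p 1 = 1 := by unfold qc; simp

theorem qc_sq {x : ZMod p} (hx : x ≠ 0) : qc p x * qc p x = 1 := by
  have := quadraticChar_sq_one hx
  unfold qc
  rw [← sq]; exact this

theorem ring_ne (h2 : p ≠ 2) : ringChar (ZMod p) ≠ 2 := by
  rw [ZMod.ringChar_zmod_n]; exact h2

theorem qc_sum (h2 : p ≠ 2) : ∑ x : ZMod p, qc p x = 0 :=
  quadraticChar_sum_zero (ring_ne p h2)

theorem qc_cube (x : ZMod p) : qc p (x^3) = qc p x := by
  rcases eq_or_ne x 0 with h | h
  · subst h
    rw [zero_pow (by norm_num)]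
  · have e : x^3 = x*x*x := by ring
    rw [e, qc_mul, qc_mul, qc_sq p h, one_mul]

theorem sum_aff (f : ZMod p → ℤ) {a b : ZMod p} (ha : a ≠ 0) : ∑ x : ZMod p, f (a*x+b) = ∑ x : ZMod p, f x := by
  let e : ZMod p ≃ ZMod p := (Equiv.mulLeft₀ a ha).trans (Equiv.addRight b)
  exact Equiv.sum_comp e f

theorem sum_inv_ne (f : ZMod p → ℤ) : ∑ x : ZMod p, (if x = 0 then 0 else f x⁻¹) =
    ∑ x : ZMod p, (if x = 0 then 0 else f x) := by
  refine Finset.sum_nbij' (fun x => x⁻¹) (fun x => x⁻¹) (by simp) (by simp) (by simp) (by simp) ?_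
  intro x _
  by_cases h : x = 0
  · simp [h]
  · simp [h]

theorem qc_pair (h2 : p ≠ 2) (u v : ZMod p) :
    ∑ c : ZMod p, qc p (u+c) * qc p (v+c) = if u = v then (p:ℤ) - 1 else -1 := by
  have h1 : ∑ c : ZMod p, qc p (u+c) * qc p (v+c) = ∑ c : ZMod p, qc p c * qc p (c + (v-u)) := by
    rw [← sum_aff p (fun c => qc p c * qc p (c + (v-u))) (one_ne_zero) (b := u)]
    refine sum_congr rfl fun c _ => ?_
    congr 2 <;> ring
  rw [h1]
  split_ifs with h
  · subst h
    have e : ∀ c : ZMod p, qc p c * qc p (c + (u-u)) = if c = 0 then 0 else 1 := by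
      intro c
      rw [sub_self, add_zero]
      by_cases hc : c = 0
      · rw [if_pos hc, hc, qc_zero, mul_zero]
      · rw [if_neg hc, qc_sq p hc]
    rw [sum_congr rfl fun c _ => e c]
    have e2 : ∀ c : ZMod p, (if c = 0 then (0:ℤ) else 1) = 1 - (if c = 0 then 1 else 0) := by
      intro c; split_ifs <;> norm_num
    rw [sum_congr rfl fun c _ => e2 c, sum_sub_distrib, sum_ite_eq' univ (0:ZMod p) (fun _ => (1:ℤ))]
    simp [ZMod.card]
  · have hw : v - u ≠ 0 := sub_ne_zero.2 (Ne.symm h)
    have e : ∀ c : ZMod p, qc p c * qc p (c + (v-u)) = if c = 0 then 0 else qc p (1 + (v-u) * c⁻¹) := by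
      intro c
      by_cases hc : c = 0
      · rw [if_pos hc, hc, qc_zero, zero_mul]
      · rw [if_neg hc]
        have e3 : c + (v-u) = c * (1 + (v-u) * c⁻¹) := by
          field_simp
        rw [e3, qc_mul, ← mul_assoc, qc_sq p hc, one_mul]
    rw [sum_congr rfl fun c _ => e c, sum_inv_ne p (fun z => qc p (1 + (v-u) * z))]
    have e2 : ∀ c : ZMod p, (if c = 0 then (0:ℤ) else qc p (1 + (v-u)*c)) =
        qc p ((v-u)*c + 1) - (if c = 0 then 1 else 0) := by
      intro c
      split_ifs with hc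
      · rw [hc, mul_zero, zero_add, qc_one, sub_self]
      · rw [add_comm, sub_zero]
    rw [sum_congr rfl fun c _ => e2 c, sum_sub_distrib, sum_aff p (fun c => qc p c) hw, qc_sum p h2,
      sum_ite_eq' univ (0:ZMod p) (fun _ => (1:ℤ))]
    simp

/-- `S(c) = ∑ χ(x^3+c)` -/
noncomputable def Sc (c : ZMod p) : ℤ := ∑ x : ZMod p, qc p (x^3 + c)

theorem Sc_zero (h2 : p ≠ 2) : Sc p 0 = 0 := by
  unfold Sc
  rw [← qc_sum p h2]
  refine sum_congr rfl fun x _ => ?_
  rw [add_zero, qc_cube]

theorem Sc_cube {t : ZMod p} (ht : t ≠ 0) (c : ZMod p) : Sc p (c * t^3) = qc p t * Sc p c := by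
  unfold Sc
  rw [← sum_aff p (fun x => qc p (x^3 + c*t^3)) ht (b := 0), mul_sum]
  refine sum_congr rfl fun x _ => ?_
  rw [← qc_cube p t, ← qc_mul]
  congr 1
  ring

noncomputable def sf (c : ZMod p) : ℤ := qc p c * Sc p c

theorem sf_cube {t : ZMod p} (ht : t ≠ 0) (c : ZMod p) : sf p (c * t^3) = sf p c := by
  unfold sf
  rw [Sc_cube p ht, qc_mul, qc_cube]
  have := qc_sq p ht
  linear_combination (qc p c * Sc p c) * this

theorem sf_sum (h2 : p ≠ 2) : ∑ c : ZMod p, sf p c = 0 := by
  unfold sf Sc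
  simp only [mul_sum]
  rw [sum_comm]
  have e : ∀ x : ZMod p, ∑ c : ZMod p, qc p c * qc p (x^3+c) = if x = 0 then (p:ℤ)-1 else -1 := by
    intro x
    have h := qc_pair p h2 0 (x^3)
    simp only [zero_add] at h
    rw [h]
    by_cases hx : x = 0
    · rw [if_pos hx, hx]; simp
    · rw [if_neg hx, if_neg]
      intro h0
      exact hx (pow_eq_zero_iff (by norm_num) |>.1 h0.symm)
  rw [sum_congr rfl fun x _ => e x]
  have e2 : ∀ c : ZMod p, (if c = 0 then (p:ℤ)-1 else -1) = -1 + (if c = 0 then (p:ℤ) else 0) := by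
    intro c; split_ifs <;> ring
  rw [sum_congr rfl fun c _ => e2 c, sum_add_distrib, sum_ite_eq' univ (0:ZMod p) (fun _ => (p:ℤ))]
  simp [ZMod.card]

variable {w : ZMod p} (hw : w^2 + w + 1 = 0) (h3 : p ≠ 3)
include hw h3

theorem w_ne1 : w ≠ 1 := by
  intro h
  rw [h] at hw
  have h0 : ((3:ℕ) : ZMod p) = 0 := by push_cast; linear_combination hw
  rw [ZMod.natCast_eq_zero_iff] at h0
  have := (Nat.prime_dvd_prime_iff_eq hp.out Nat.prime_three).1 h0
  exact h3 this

theorem cube_roots {x : ZMod p} (hx : x ≠ 0) : (univ.filter fun y : ZMod p => y^3 = x^3) = {x, w*x, w^2*x} := by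
  ext y
  simp only [mem_filter, mem_univ, true_and, mem_insert, mem_singleton]
  constructor
  · intro h
    have h1 : (y - x) * (y - w*x) * (y - w^2*x) = 0 := by
      have hw3 : w^3 = 1 := by linear_combination (w-1) * hw
      linear_combination h + (-y^2*x + y*x^2*w) * hw - x^3 * hw3
    rcases mul_eq_zero.1 h1 with h2 | h2
    · rcases mul_eq_zero.1 h2 with h4 | h4
      · left; linear_combination h4
      · right; left; linear_combination h4
    · right; right; linear_combination h2
  · have hw3 : w^3 = 1 := by linear_combination (w-1) * hw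
    rintro (h | h | h)
    · rw [h]
    · rw [h]; linear_combination x^3 * hw3
    · rw [h]; linear_combination x^3 * (w^3+1) * hw3

theorem card_cube {x : ZMod p} (hx : x ≠ 0) : (univ.filter fun y : ZMod p => y^3 = x^3).card = 3 := by
  have h1 := w_ne1 p hw h3
  have hw0 : w ≠ 0 := by
    intro h; rw [h] at hw; norm_num at hw
  rw [cube_roots p hw h3 hx]
  have a : x ≠ w*x := by
    intro h
    apply h1
    have : (w - 1) * x = 0 := by linear_combination -h
    rcases mul_eq_zero.1 this with h | h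
    · linear_combination h
    · exact absurd h hx
  have b : x ≠ w^2*x := by
    intro h
    have : (w^2 - 1) * x = 0 := by linear_combination -h
    rcases mul_eq_zero.1 this with h | h
    · have h4 : (w-1)*(w+1) = 0 := by linear_combination h
      rcases mul_eq_zero.1 h4 with h5 | h5
      · apply h1; linear_combination h5
      · -- w = -1
        have : (1:ZMod p) = 0 := by linear_combination hw - w * h5
        exact one_ne_zero this
    · exact absurd h hx
  have c : w*x ≠ w^2*x := by
    intro h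
    have : w*((w-1)*x) = 0 := by linear_combination -h
    rcases mul_eq_zero.1 this with h | h
    · exact hw0 h
    · rcases mul_eq_zero.1 h with h | h
      · apply h1; linear_combination h
      · exact absurd h hx
  rw [card_insert_of_notMem, card_insert_of_notMem, card_singleton]
  · rw [mem_singleton]; exact c
  · rw [mem_insert, mem_singleton]; push Not; exact ⟨a, b⟩

theorem Sc_sq_sum (h2 : p ≠ 2) : ∑ c : ZMod p, Sc p c * Sc p c = 2*(p:ℤ)*(p-1) := by
  unfold Sc
  simp only [sum_mul_sum]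
  rw [sum_comm]
  have e0 : ∀ x : ZMod p, ∑ c : ZMod p, ∑ y : ZMod p, qc p (x^3+c) * qc p (y^3+c) =
      (if x = 0 then (p:ℤ) else 3*p) - p := by
    intro x
    rw [sum_comm]
    have e1 : ∀ y : ZMod p, ∑ c : ZMod p, qc p (x^3+c) * qc p (y^3+c) =
        (if y^3 = x^3 then (p:ℤ) else 0) - 1 := by
      intro y
      rw [qc_pair p h2]
      by_cases h : y^3 = x^3
      · rw [if_pos h, if_pos h.symm]
      · rw [if_neg h, if_neg (fun h' => h h'.symm)]; ring
    rw [sum_congr rfl fun y _ => e1 y, sum_sub_distrib, ← sum_filter, sum_const, sum_const,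
      card_univ, ZMod.card]
    by_cases hx : x = 0
    · rw [if_pos hx, hx]
      have : (univ.filter fun y : ZMod p => y^3 = (0:ZMod p)^3) = {0} := by
        ext y
        simp
      rw [this]
      simp
    · rw [if_neg hx, card_cube p hw h3 hx]
      simp
  rw [sum_congr rfl fun x _ => e0 x, sum_sub_distrib]
  have e2 : ∀ c : ZMod p, (if c = 0 then (p:ℤ) else 3*p) = 3*p - (if c = 0 then 2*(p:ℤ) else 0) := by
    intro c; split_ifs <;> ring
  rw [sum_congr rfl fun c _ => e2 c, sum_sub_distrib, sum_ite_eq' univ (0:ZMod p) (fun _ => 2*(p:ℤ))]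
  simp [ZMod.card]
  ring

theorem sf_sq_sum (h2 : p ≠ 2) : ∑ c : ZMod p, sf p c * sf p c = 2*(p:ℤ)*(p-1) := by
  rw [← Sc_sq_sum p hw h3 h2]
  refine sum_congr rfl fun c _ => ?_
  unfold sf
  by_cases hc : c = 0
  · rw [hc, Sc_zero p h2]; ring
  · have := qc_sq p hc
    linear_combination (Sc p c * Sc p c) * this

end

end Pool.Agent.N926.F54
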