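import Pool.Agent.N926.F54.M

set_option autoImplicit false
set_option linter.unusedVariables false
set_option linter.unusedSectionVars false

namespace Pool.Agent.N926.F54

open Finset

section
variable (p : ℕ) [hp : Fact p.Prime]

/-- enumeration of the nonzero residues by a primitive root -/
theorem enum : ∃ g : (ZMod p)ˣ, (∀ a b : ℕ, a < p-1 → b < p-1 → (g:ZMod p)^a = (g:ZMod p)^b → a = b) ∧
    (g:ZMod p)^(p-1) = 1 ∧
    ∀ f : ZMod p → ℤ, f 0 = 0 → ∑ c : ZMod p, f c = ∑ n ∈ range (p-1), f ((g : ZMod p)^n) := by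
  obtain ⟨g, hg⟩ := IsCyclic.exists_generator (α := (ZMod p)ˣ)
  have hc : Nat.card (ZMod p)ˣ = p - 1 := by
    rw [Nat.card_eq_fintype_card, ZMod.card_units_eq_totient, Nat.totient_prime hp.out]
  have himg := IsCyclic.image_range_card hg
  rw [hc] at himg
  have hord : orderOf g = p - 1 := by
    rw [← hc]; exact orderOf_eq_card_of_forall_mem_zpowers hg
  have hinj : ∀ a b : ℕ, a < p-1 → b < p-1 → (g:ZMod p)^a = (g:ZMod p)^b → a = b := by
    intro a b ha hb hab
    have h1 : g^a = g^b := by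
      apply Units.ext
      push_cast
      exact hab
    have := pow_injOn_Iio_orderOf (x := g)
    rw [hord] at this
    exact this ha hb h1
  refine ⟨g, hinj, ?_, ?_⟩
  · have h1 : g^(p-1) = 1 := by rw [← hord]; exact pow_orderOf_eq_one g
    have := congrArg (fun u : (ZMod p)ˣ => (u : ZMod p)) h1
    simpa using this
  · intro f hf
    rw [← sum_erase (univ : Finset (ZMod p)) hf]
    symm
    refine sum_nbij (fun n : ℕ => (g:ZMod p)^n) ?_ ?_ ?_ ?_
    · intro n _
      rw [mem_erase]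
      exact ⟨pow_ne_zero _ g.ne_zero, mem_univ _⟩
    · intro a ha b hb hab
      rw [mem_coe, mem_range] at ha hb
      exact hinj a b ha hb hab
    · intro c hc'
      rw [mem_coe, mem_erase] at hc'
      have h1 : Units.mk0 c hc'.1 ∈ image (fun i => g^i) (range (p-1)) := by
        rw [himg]; exact mem_univ _
      rw [mem_image] at h1
      obtain ⟨n, hn, h2⟩ := h1
      refine ⟨n, hn, ?_⟩
      have := congrArg (fun u : (ZMod p)ˣ => (u : ZMod p)) h2
      simpa using this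
    · intro n _; rfl

theorem cube_inv_sum {g : ZMod p} (hg : g ≠ 0) (f : ZMod p → ℤ)
    (hf : ∀ t : ZMod p, t ≠ 0 → ∀ c, f (c * t^3) = f c) (k : ℕ) :
    ∑ n ∈ range (3*k), f (g^n) = k * (f 1 + f g + f (g^2)) := by
  induction k with
  | zero => simp
  | succ k ih =>
    rw [show 3*(k+1) = 3*k+1+1+1 by ring, sum_range_succ, sum_range_succ, sum_range_succ, ih]
    have ht : g^k ≠ 0 := pow_ne_zero _ hg
    have e1 : f (g^(3*k)) = f 1 := by
      have := hf (g^k) ht 1
      rw [one_mul, ← pow_mul, mul_comm k 3] at this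
      exact this
    have e2 : f (g^(3*k+1)) = f g := by
      have := hf (g^k) ht g
      rw [← pow_mul, mul_comm k 3, ← pow_succ'] at this
      exact this
    have e3 : f (g^(3*k+1+1)) = f (g^2) := by
      have := hf (g^k) ht (g^2)
      rw [← pow_mul, mul_comm k 3, ← pow_add, add_comm 2] at this
      exact this
    rw [e1, e2, e3]
    push_cast
    ring

theorem qc_odd {y : ZMod p} (hy : y ≠ 0) : qc p y ≡ 1 [ZMOD 2] := by
  have h := qc_sq p hy
  rcases Int.emod_two_eq_zero_or_one (qc p y) with h1 | h1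
  · exfalso
    obtain ⟨k, hk⟩ := Int.dvd_of_emod_eq_zero h1
    rw [hk] at h
    have h2 : (2:ℤ) ∣ 1 := ⟨2*(k*k), by rw [← h]; ring⟩
    norm_num at h2
  · exact h1

variable {i : ℕ} (hi : p = 6*i+1) (i1 : 1 ≤ i)
include hi i1

theorem rep : ∃ X Y : ℤ, Sc p 1 = 2*X ∧ X^2 + 3*Y^2 = p := by
  have h2 : p ≠ 2 := by omega
  have h3 : p ≠ 3 := by omega
  obtain ⟨g, hinj, hg1, hsum⟩ := enum p
  have hp1 : p - 1 = 3*(2*i) := by omega
  obtain ⟨w, hw⟩ : ∃ w : ZMod p, w = (g:ZMod p)^(2*i) := ⟨_, rfl⟩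
  have hw3 : w^3 = 1 := by
    rw [hw, ← pow_mul, mul_comm (2*i) 3, ← hp1]; exact hg1
  have hwne : w ≠ 1 := by
    intro h
    have := hinj (2*i) 0 (by omega) (by omega) (by rw [pow_zero, ← hw, h])
    omega
  have hw2 : w^2 + w + 1 = 0 := by
    have : (w - 1) * (w^2 + w + 1) = 0 := by linear_combination hw3
    rcases mul_eq_zero.1 this with h | h
    · exact absurd (by linear_combination h) hwne
    · exact h
  have hs0 : sf p 0 = 0 := by unfold sf; rw [qc_zero, zero_mul]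
  have a1 := hsum (sf p) hs0
  rw [sf_sum p h2, hp1, cube_inv_sum p g.ne_zero (sf p) (fun t ht c => sf_cube p ht c)] at a1
  have a2 := hsum (fun c => sf p c * sf p c) (by simp only [hs0, mul_zero])
  rw [sf_sq_sum p hw2 h3 h2, hp1,
    cube_inv_sum p g.ne_zero (fun c => sf p c * sf p c) (fun t ht c => by simp only [sf_cube p ht c])] at a2
  have e0 : sf p 1 = Sc p 1 := by unfold sf; rw [qc_one, one_mul]
  have ipos : (0:ℤ) < ((2*i:ℕ):ℤ) := by exact_mod_cast (by omega : 0 < 2*i)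
  have b1 : sf p 1 + sf p g + sf p ((g:ZMod p)^2) = 0 := by
    rcases mul_eq_zero.1 a1.symm with h | h
    · exact absurd h ipos.ne'
    · exact h
  have b2 : sf p 1 * sf p 1 + sf p g * sf p g + sf p ((g:ZMod p)^2) * sf p ((g:ZMod p)^2) = 6*p := by
    have h5 : ((2*i:ℕ):ℤ) * (sf p 1 * sf p 1 + sf p g * sf p g + sf p ((g:ZMod p)^2) * sf p ((g:ZMod p)^2)) =
        ((2*i:ℕ):ℤ) * (6*p) := by
      rw [← a2]
      have : ((p:ℤ) - 1) = 3 * ((2*i:ℕ):ℤ) := by rw [hi]; push_cast; ring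
      rw [this]; ring
    exact mul_left_cancel₀ ipos.ne' h5
  rw [e0] at b1 b2
  -- parity
  have par : Sc p 1 ≡ 0 [ZMOD 2] := by
    have c1 : Sc p 1 ≡ ∑ x : ZMod p, (1 - if x^3 = (-1:ZMod p)^3 then (1:ℤ) else 0) [ZMOD 2] := by
      unfold Sc
      refine Int.ModEq.sum fun x _ => ?_
      split_ifs with h
      · have : x^3 + 1 = 0 := by linear_combination h
        rw [this, qc_zero]
        decide
      · have : x^3 + 1 ≠ 0 := by
          intro h'; apply h; linear_combination h'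
        rw [sub_zero]
        exact qc_odd p this
    have c2 : ∑ x : ZMod p, (1 - if x^3 = (-1:ZMod p)^3 then (1:ℤ) else 0) = p - 3 := by
      rw [sum_sub_distrib, ← sum_filter, sum_const, sum_const, card_univ, ZMod.card,
        card_cube p hw2 h3 (neg_ne_zero.2 one_ne_zero)]
      simp
    rw [c2] at c1
    refine c1.trans ?_
    rw [Int.modEq_zero_iff_dvd]
    exact ⟨3*i-1, by rw [hi]; push_cast; ring⟩
  obtain ⟨X, hX⟩ := (Int.modEq_zero_iff_dvd).1 par
  generalize sf p g = u at *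
  generalize sf p ((g:ZMod p)^2) = v at *
  generalize Sc p 1 = s at *
  have d1 : 3 * (s*s) + (u-v)*(u-v) = 12*p := by
    have hv : v = -s-u := by linarith
    rw [hv] at b2 ⊢
    linear_combination 2*b2
  have d2 : (3:ℤ) ∣ (u-v)*(u-v) := ⟨4*p - s*s, by linear_combination d1⟩
  have d3 : (3:ℤ) ∣ (u-v) := by
    rcases Int.prime_three.dvd_mul.1 d2 with h | h <;> exact h
  obtain ⟨b, hb⟩ := d3
  rw [hb, hX] at d1
  have d4 : 4*(X*X) + 3*(b*b) = 4*p := by linarith
  have d5 : (2:ℤ) ∣ b := by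
    have : (2:ℤ) ∣ 3*(b*b) := ⟨2*p - 2*(X*X), by linear_combination d4⟩
    rcases Int.prime_two.dvd_mul.1 this with h | h
    · norm_num at h
    · rcases Int.prime_two.dvd_mul.1 h with h | h <;> exact h
  obtain ⟨Y, hY⟩ := d5
  refine ⟨X, Y, hX, ?_⟩
  rw [hY] at d4
  linarith

omit i1 in
theorem uniq {x y X Y : ℤ} (h1 : x^2 + 3*y^2 = p) (h2 : X^2 + 3*Y^2 = p) : x^2 = X^2 := by
  have hpp : (0:ℤ) < p := by exact_mod_cast hp.out.pos
  have key : ∀ D E : ℤ, (p:ℤ) ∣ D → E^2 + 3*D^2 = p^2 → D = 0 := by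
    intro D E hD hE
    by_contra h0
    obtain ⟨k, hk⟩ := hD
    have hk0 : k ≠ 0 := by
      intro h; apply h0; rw [hk, h, mul_zero]
    have hk1 : 1 ≤ k^2 := by
      have : 0 < k^2 := by positivity
      linarith
    rw [hk] at hE
    nlinarith [sq_nonneg E, mul_pos hpp hpp]
  have hprod : (p:ℤ) ∣ (x*Y - X*y) * (x*Y + X*y) := ⟨Y^2 - y^2, by linear_combination Y^2*h1 - y^2*h2⟩
  have hD : (x*Y - X*y) * (x*Y + X*y) = 0 := by
    rcases (Nat.prime_iff_prime_int.1 hp.out).dvd_mul.1 hprod with h | h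
    · rw [key _ (x*X + 3*y*Y) h (by linear_combination (X^2+3*Y^2)*h1 + p*h2), zero_mul]
    · rw [key _ (x*X - 3*y*Y) h (by linear_combination (X^2+3*Y^2)*h1 + p*h2), mul_zero]
  have h5 : (p:ℤ) * (Y^2 - y^2) = 0 := by
    rw [← hD]; linear_combination -Y^2*h1 + y^2*h2
  rcases mul_eq_zero.1 h5 with h | h
  · exact absurd h hpp.ne'
  · linear_combination h1 - h2 + 3*h

theorem Sc_four {x y : ℤ} (h : x^2 + 3*y^2 = p) : (Sc p 1)^2 = 4*x^2 := by
  obtain ⟨X, Y, h1, h2⟩ := rep p hi i1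
  rw [h1, uniq p hi h h2]
  ring

end

end Pool.Agent.N926.F54
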