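import Pool.Agent.N926.F54.N

/-! power sums modulo `p^2` -/

set_option autoImplicit false
set_option linter.unusedVariables false
set_option linter.unusedSectionVars false

namespace Pool.Agent.N926.F54

open Finset

section
variable (p : ℕ) [hp : Fact p.Prime]

theorem modp_pow {a b : ℤ} (h : a ≡ b [ZMOD p]) : a^p ≡ b^p [ZMOD (p:ℤ)^2] := by
  have h1 : (p:ℤ) ∣ b - a := h.dvd
  have := dvd_sub_pow_of_dvd_sub (R := ℤ) (p := p) h1 1
  rw [pow_one] at this
  exact Int.modEq_iff_dvd.2 this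

theorem qc_pow_p (h2 : p ≠ 2) (x : ZMod p) : (qc p x)^p = qc p x := by
  obtain ⟨k, hk⟩ := hp.out.odd_of_ne_two h2
  by_cases hx : x = 0
  · rw [hx, qc_zero, zero_pow hp.out.ne_zero]
  · have h := qc_sq p hx
    have e : (qc p x)^p = (qc p x * qc p x)^k * qc p x := by
      rw [← sq, ← pow_mul, ← pow_succ, ← hk]
    rw [e, h, one_pow, one_mul]

theorem qc_cong (h2 : p ≠ 2) {h : ℕ} (hh : p = 2*h+1) (y : ℤ) :
    qc p (y : ZMod p) ≡ y^(h*p) [ZMOD (p:ℤ)^2] := by
  have h1 : qc p (y : ZMod p) ≡ y^h [ZMOD p] := by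
    rw [← ZMod.intCast_eq_intCast_iff]
    have := quadraticChar_eq_pow_of_char_ne_two' (F := ZMod p) (ring_ne p h2) (y : ZMod p)
    unfold qc
    rw [this, ZMod.card]
    push_cast
    congr 1
    omega
  have h3 := modp_pow p h1
  rw [qc_pow_p p h2, ← pow_mul] at h3
  exact h3

/-- sum of `x^{pm}` over `0 ≤ x < p`, nontrivial case -/
theorem pow_sum_zero {m : ℕ} (g : ZMod p) (hg : g ≠ 0) (hgm : g^m ≠ 1) :
    ∑ x : ZMod p, ((x.val : ℤ))^(p*m) ≡ 0 [ZMOD (p:ℤ)^2] := by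
  set f : ZMod p → ℤ := fun x => ((x.val : ℤ))^(p*m) with hf
  have h1 : ∑ x : ZMod p, f x = ∑ x : ZMod p, f (g*x) := by
    have := sum_aff p f hg (b := 0)
    simp only [add_zero] at this
    exact this.symm
  have h2 : ∑ x : ZMod p, f (g*x) ≡ ∑ x : ZMod p, ((g.val:ℤ))^(p*m) * f x [ZMOD (p:ℤ)^2] := by
    refine Int.ModEq.sum fun x _ => ?_
    rw [hf]
    simp only
    have e : (((g*x).val : ℤ)) ≡ (g.val : ℤ) * (x.val : ℤ) [ZMOD p] := by
      rw [← ZMod.intCast_eq_intCast_iff]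
      push_cast
      rw [ZMod.natCast_zmod_val, ZMod.natCast_zmod_val, ZMod.natCast_zmod_val]
    have := (modp_pow p e).pow m
    rw [← pow_mul, mul_pow, mul_pow, ← pow_mul, ← pow_mul] at this
    exact this
  rw [← h1, ← mul_sum] at h2
  have h3 : (p:ℤ)^2 ∣ ((g.val:ℤ)^(p*m) - 1) * ∑ x : ZMod p, f x := by
    have := h2.dvd
    have e : ((g.val:ℤ)^(p*m) - 1) * ∑ x : ZMod p, f x =
      ((g.val:ℤ)^(p*m) * ∑ x : ZMod p, f x - ∑ x : ZMod p, f x) := by ring
    rw [e]; exact this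
  have h4 : IsCoprime ((p:ℤ)^2) ((g.val:ℤ)^(p*m) - 1) := by
    apply IsCoprime.pow_left
    rw [(Nat.prime_iff_prime_int.1 hp.out).coprime_iff_not_dvd]
    intro hd
    apply hgm
    have h5 : ((((g.val:ℤ)^(p*m) - 1 : ℤ)) : ZMod p) = 0 := (ZMod.intCast_zmod_eq_zero_iff_dvd _ _).2 hd
    push_cast at h5
    rw [ZMod.natCast_zmod_val, pow_mul, ZMod.pow_card] at h5
    linear_combination h5
  exact (Int.modEq_zero_iff_dvd).2 (h4.dvd_of_dvd_mul_left h3)

/-- trivial case -/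
theorem pow_sum_one {r : ℕ} (hr : 0 < r) :
    ∑ x : ZMod p, ((x.val : ℤ))^(p*((p-1)*r)) ≡ p - 1 [ZMOD (p:ℤ)^2] := by
  have h1 : ∑ x : ZMod p, ((x.val : ℤ))^(p*((p-1)*r)) ≡ ∑ x : ZMod p, (1 - if x = 0 then (1:ℤ) else 0) [ZMOD (p:ℤ)^2] := by
    refine Int.ModEq.sum fun x _ => ?_
    have hp1 : 0 < p - 1 := Nat.sub_pos_of_lt hp.out.one_lt
    split_ifs with h
    · rw [h, ZMod.val_zero, Nat.cast_zero, zero_pow (by have := hp.out.pos; positivity), sub_self]
    · rw [sub_zero]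
      have e : ((x.val : ℤ))^(p-1) ≡ 1 [ZMOD p] := by
        rw [← ZMod.intCast_eq_intCast_iff]
        push_cast
        rw [ZMod.natCast_zmod_val]
        exact ZMod.pow_card_sub_one_eq_one h
      have := (modp_pow p e).pow r
      rw [one_pow, one_pow, ← pow_mul, ← pow_mul] at this
      have e2 : p*((p-1)*r) = (p-1)*(p*r) := by ring
      rw [e2]
      exact this
  rw [sum_sub_distrib, sum_ite_eq' univ (0:ZMod p) (fun _ => (1:ℤ))] at h1
  simpa [ZMod.card] using h1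

theorem sum_range_zmod {M : Type*} [AddCommMonoid M] (f : ℕ → M) :
    ∑ x : ZMod p, f x.val = ∑ n ∈ range p, f n := by
  refine Finset.sum_nbij' (fun x : ZMod p => x.val) (fun i : ℕ => (i : ZMod p)) ?_ ?_ ?_ ?_ ?_
  · intro x _; exact mem_range.2 (ZMod.val_lt x)
  · intro i _; exact mem_univ _
  · intro x _; exact ZMod.natCast_zmod_val x
  · intro i hi; exact ZMod.val_cast_of_lt (mem_range.1 hi)
  · intro x _; rfl

/-- power sums in `ZMod p` -/
theorem pow_sum_zmod {m : ℕ} (hm : 0 < m) :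
    ∑ x : ZMod p, x^m = if p - 1 ∣ m then -1 else 0 := by
  have h : ∑ x : (ZMod p)ˣ, ((x : ZMod p))^m = if p - 1 ∣ m then (-1 : ZMod p) else 0 := by
    have h := FiniteField.sum_pow_units (ZMod p) m
    rw [ZMod.card] at h
    exact h
  refine Eq.trans ?_ h
  rw [← sum_erase (s := (univ : Finset (ZMod p))) (f := fun x => x^m) (a := (0:ZMod p)) (zero_pow hm.ne')]
  symm
  refine sum_nbij (fun u : (ZMod p)ˣ => (u : ZMod p)) ?_ ?_ ?_ ?_
  · intro u _; rw [mem_erase]; exact ⟨u.ne_zero, mem_univ _⟩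
  · intro a _ b _ hab; exact Units.ext hab
  · intro c hc
    rw [mem_coe, mem_erase] at hc
    exact ⟨Units.mk0 c hc.1, mem_coe.2 (mem_univ _), rfl⟩
  · intro u _; simp

/-- `C(p-1,k) = (-1)^k` -/
theorem choose_pm1 {k : ℕ} (hk : k < p) : (((p-1).choose k : ℕ) : ZMod p) = (-1)^k := by
  induction k with
  | zero => simp
  | succ k ih =>
    have h1 := ih (by omega)
    have h2 : (p-1).choose k + (p-1).choose (k+1) = p.choose (k+1) := by
      conv_rhs => rw [show p = (p-1)+1 by have := hp.out.pos; omega]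
      rw [Nat.choose_succ_succ]
    have h3 : ((p.choose (k+1) : ℕ) : ZMod p) = 0 := by
      rw [ZMod.natCast_eq_zero_iff]
      exact hp.out.dvd_choose_self (by omega) hk
    rw [← h2] at h3
    push_cast at h3
    rw [h1] at h3
    rw [pow_succ]
    linear_combination h3

/-- `C(p,s)/p` -/
def cs (s : ℕ) : ℕ := p.choose s / p

theorem cs_mul {s : ℕ} (h0 : s ≠ 0) (h1 : s < p) : p.choose s = p * cs p s := by
  unfold cs
  exact (Nat.mul_div_cancel' (hp.out.dvd_choose_self h0 h1)).symm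

theorem cs_zmod {s : ℕ} (h1 : s + 1 < p) : ((cs p (s+1) : ℕ) : ZMod p) = (-1)^s * (((s+1:ℕ) : ZMod p))⁻¹ := by
  have hne : (((s+1:ℕ) : ZMod p)) ≠ 0 := by
    intro h
    rw [ZMod.natCast_eq_zero_iff] at h
    exact absurd (Nat.le_of_dvd (by omega) h) (by omega)
  rw [eq_mul_inv_iff_mul_eq₀ hne]
  have h2 : p * ((p-1).choose s) = p.choose (s+1) * (s+1) := by
    have := Nat.add_one_mul_choose_eq (p-1) s
    rw [show p-1+1 = p by have := hp.out.pos; omega] at this
    exact this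
  rw [cs_mul p (by omega) h1, mul_assoc] at h2
  have h3 := Nat.eq_of_mul_eq_mul_left hp.out.pos h2
  have h4 := choose_pm1 p (k := s) (by omega)
  rw [h3] at h4
  push_cast at h4 ⊢
  exact h4

/-- `(1+z)^p = 1 + z^p + p g(z)` -/
def gz (z : ℤ) : ℤ := ∑ s ∈ range (p-1), (cs p (s+1) : ℤ) * z^(s+1)

theorem gz_eq (z : ℤ) : (z+1)^p = (1 + z^p) + p * gz p z := by
  rw [(Commute.all z 1).add_pow]
  simp only [one_pow, mul_one]
  rw [sum_range_succ]
  have e : p = (p-1)+1 := by have := hp.out.pos; omega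
  have h1 : ∑ x ∈ range p, z^x * ((p.choose x : ℕ) : ℤ) =
      ∑ x ∈ range (p-1), z^(x+1) * ((p.choose (x+1) : ℕ) : ℤ) + 1 := by
    conv_lhs => rw [show range p = range ((p-1)+1) by rw [← e]]
    rw [sum_range_succ']
    simp
  rw [h1, Nat.choose_self]
  unfold gz
  rw [mul_sum]
  have h2 : ∀ x ∈ range (p-1), z^(x+1) * ((p.choose (x+1) : ℕ) : ℤ) = p * ((cs p (x+1) : ℤ) * z^(x+1)) := by
    intro x hx
    rw [mem_range] at hx
    rw [cs_mul p (by omega) (by omega)]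
    push_cast
    ring
  rw [sum_congr rfl h2]
  push_cast
  ring

theorem add_p_pow (a b : ℤ) (B : ℕ) : (a + p*b)^(B+1) ≡ a^(B+1) + p*(B+1)*(a^B*b) [ZMOD (p:ℤ)^2] := by
  induction B with
  | zero =>
    simp
  | succ B ih =>
    have h := ih.mul_right (a + p*b)
    rw [← pow_succ] at h
    refine h.trans ?_
    rw [Int.modEq_iff_dvd]
    refine ⟨-((B+1)*(a^B*b)*b), ?_⟩
    push_cast
    ring

end

end Pool.Agent.N926.F54
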