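import Pool.Agent.N926.F54.O
import Pool.Agent.N926.F54.L

/-! binomial sum identities used for the character sum -/

set_option autoImplicit false
set_option linter.unusedVariables false
set_option linter.unusedSectionVars false

namespace Pool.Agent.N926.F54

open Finset Pool.Agent.N926.Sup2 Pool.Agent.N926.Sup

theorem pasc (N M : ℕ) (f : ℕ → ℚ) :
    ∑ l ∈ range (M+1), (-1:ℚ)^l * ((N+1).choose l : ℕ) * f l =
    ∑ l ∈ range (M+1), (-1:ℚ)^l * (N.choose l : ℕ) * f l -
      ∑ l ∈ range M, (-1:ℚ)^l * (N.choose l : ℕ) * f (l+1) := by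
  rw [sum_range_succ', sum_range_succ' (fun l => (-1:ℚ)^l * (N.choose l : ℕ) * f l)]
  have : ∀ l ∈ range M, (-1:ℚ)^(l+1) * ((N+1).choose (l+1) : ℕ) * f (l+1) =
     (-1:ℚ)^(l+1) * (N.choose (l+1) : ℕ) * f (l+1) - (-1:ℚ)^l * (N.choose l : ℕ) * f (l+1) := by
    intro l _
    rw [Nat.choose_succ_succ]
    push_cast
    ring
  rw [sum_congr rfl this, sum_sub_distrib]
  simp only [Nat.choose_zero_right]
  ring

theorem Eg (N : ℕ) : ∀ a : ℚ, (∀ j : ℕ, j ≤ N → a ≠ j) →
    ∑ l ∈ range (N+1), (-1:ℚ)^l * (N.choose l : ℕ) * (1/(a - (l:ℚ))) =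
      (-1)^N * N.factorial / ∏ j ∈ range (N+1), (a - (j:ℚ)) := by
  induction N with
  | zero => intro a ha; simp
  | succ N ih =>
    intro a ha
    rw [pasc, sum_range_succ _ (N+1), Nat.choose_succ_self]
    have i1 := ih a (fun j hj => ha j (by omega))
    have i2 := ih (a-1) (fun j hj => by
      have := ha (j+1) (by omega)
      push_cast at this
      intro h
      apply this
      linear_combination h)
    have e : ∑ l ∈ range (N+1), (-1:ℚ)^l * (N.choose l : ℕ) * (1/(a - ((l+1:ℕ):ℚ))) =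
        ∑ l ∈ range (N+1), (-1:ℚ)^l * (N.choose l : ℕ) * (1/((a-1) - (l:ℚ))) := by
      refine sum_congr rfl fun l _ => ?_
      push_cast
      congr 2
      ring
    rw [e, i1, i2]
    have h1 : ∏ j ∈ range (N+1+1), (a - (j:ℚ)) = (∏ j ∈ range (N+1), (a - (j:ℚ))) * (a - (N+1)) := by
      rw [prod_range_succ]
      push_cast
      rfl
    have h2 : ∏ j ∈ range (N+1+1), (a - (j:ℚ)) = (∏ j ∈ range (N+1), ((a-1) - (j:ℚ))) * a := by
      rw [prod_range_succ']
      push_cast
      rw [sub_zero]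
      congr 1
      refine prod_congr rfl fun j _ => ?_
      ring
    have n0 : ∏ j ∈ range (N+1+1), (a - (j:ℚ)) ≠ 0 := by
      rw [prod_ne_zero_iff]
      intro j hj
      rw [mem_range] at hj
      exact sub_ne_zero.2 (ha j (by omega))
    set P := ∏ j ∈ range (N+1), (a - (j:ℚ))
    set P' := ∏ j ∈ range (N+1), ((a-1) - (j:ℚ))
    set R := ∏ j ∈ range (N+1+1), (a - (j:ℚ))
    have nP : P ≠ 0 := by intro h; rw [h, zero_mul] at h1; exact n0 h1
    have nP' : P' ≠ 0 := by intro h; rw [h, zero_mul] at h2; exact n0 h2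
    have na : a ≠ 0 := by intro h; rw [h, mul_zero] at h2; exact n0 h2
    have nb : a - (N+1) ≠ 0 := by intro h; rw [h, mul_zero] at h1; exact n0 h1
    have p1 : P = R/(a-(N+1)) := by rw [eq_div_iff nb]; exact h1.symm
    have p2 : P' = R/a := by rw [eq_div_iff na]; exact h2.symm
    rw [p1, p2, Nat.factorial_succ]
    push_cast
    field_simp
    ring

theorem prod_desc {n k : ℕ} (h : k ≤ n) : ∏ j ∈ range k, ((n:ℚ) - (j:ℚ)) = (k.factorial : ℚ) * (n.choose k : ℕ) := by
  have := Nat.descFactorial_eq_factorial_mul_choose n k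
  rw [Nat.descFactorial_eq_prod_range] at this
  have h2 := congrArg (fun z : ℕ => (z:ℚ)) this
  push_cast at h2
  rw [← h2]
  refine prod_congr rfl fun j hj => ?_
  rw [mem_range] at hj
  rw [Nat.cast_sub (by omega)]

theorem En {N n : ℕ} (h : N < n) :
    ∑ l ∈ range (N+1), (-1:ℚ)^l * (N.choose l : ℕ) * (1/((n:ℚ) - (l:ℚ))) =
      (-1)^N / ((N+1) * (n.choose (N+1) : ℕ)) := by
  rw [Eg N n (fun j hj => by
    intro h2
    have : n = j := by exact_mod_cast h2
    omega), prod_desc (by omega), Nat.factorial_succ]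
  have : (N.factorial : ℚ) ≠ 0 := by positivity
  have h2 : ((N:ℚ)+1) ≠ 0 := by positivity
  have h3 : ((n.choose (N+1) : ℕ) : ℚ) ≠ 0 := by
    have := Nat.choose_pos (show N+1 ≤ n by omega)
    positivity
  push_cast
  field_simp

theorem AAid (N : ℕ) : ∀ M : ℕ, M ≤ N →
    ∑ l ∈ range M, (-1:ℚ)^l * (N.choose l : ℕ) * (1/((M:ℚ) - (l:ℚ))) =
      (-1)^(M+1) * (N.choose M : ℕ) * (Hs 1 N - Hs 1 (N-M)) := by
  induction N with
  | zero =>
    intro M hM
    have : M = 0 := by omega
    subst this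
    simp
  | succ N ih =>
    intro M hM
    rcases M with _ | M
    · simp
    · rw [pasc]
      have e : ∑ l ∈ range M, (-1:ℚ)^l * (N.choose l : ℕ) * (1/(((M+1:ℕ):ℚ) - ((l+1:ℕ):ℚ))) =
          ∑ l ∈ range M, (-1:ℚ)^l * (N.choose l : ℕ) * (1/((M:ℚ) - (l:ℚ))) := by
        refine sum_congr rfl fun l _ => ?_
        push_cast
        congr 2
        ring
      rw [e, ih M (by omega)]
      by_cases hc : M + 1 ≤ N
      · rw [ih (M+1) hc, Hs_succ, Nat.choose_succ_succ]
        obtain ⟨q, rfl⟩ : ∃ q, N = M + 1 + q := ⟨N - (M+1), by omega⟩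
        rw [show M + 1 + q - (M+1) = q by omega, show M + 1 + q - M = q+1 by omega,
          show M + 1 + q + 1 - (M+1) = q + 1 by omega, Hs_succ 1 q]
        have hr : ((M+1+q).choose (M+1) : ℚ) * (M+1) = ((M+1+q).choose M : ℚ) * (q+1) := by
          have := Nat.choose_succ_right_eq (M+1+q) M
          rw [show M+1+q-M = q+1 by omega] at this
          exact_mod_cast this
        have k1 : ((M:ℚ)+1+q+1) ≠ 0 := by positivity
        have k2 : ((q:ℚ)+1) ≠ 0 := by positivity
        have hr2 : ((M+1+q).choose M : ℚ) = ((M+1+q).choose (M+1) : ℚ) * (M+1) / (q+1) := by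
          rw [eq_div_iff k2]; exact hr.symm
        rw [Nat.succ_eq_add_one]
        push_cast
        rw [hr2]
        generalize ((M+1+q).choose (M+1) : ℚ) = c
        generalize Hs 1 (M+1+q) = H1
        generalize Hs 1 q = H2
        simp only [pow_one]
        field_simp
        ring
      · have hMN : M = N := by omega
        subst hMN
        have h3 := En (N := M) (n := M+1) (by omega)
        rw [h3, Nat.sub_self, Nat.sub_self, Hs_succ, Nat.choose_self, Nat.choose_self, Hs_zero]
        have : ((M:ℚ)+1) ≠ 0 := by positivity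
        simp only [pow_one]
        push_cast
        field_simp
        ring

end Pool.Agent.N926.F54
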