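import Pool.Agent.N926.F54.P

/-! the second order term of the character sum -/

set_option autoImplicit false
set_option linter.unusedVariables false
set_option linter.unusedSectionVars false

namespace Pool.Agent.N926.F54

open Finset Pool.Agent.N926.Sup2 Pool.Agent.N926.Sup

theorem sgn_flip {R : Type*} [CommRing R] {s l m : ℕ} (h : s + l + 1 = 2*m) : (-1:R)^s = -(-1)^l := by
  have h1 : (-1:R)^(s+l+1) = 1 := by rw [h, pow_mul]; simp
  have h2 : (-1:R)^l * (-1)^l = 1 := by rw [← mul_pow]; simp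
  have h3 : (-1:R)^(s+l+1) = -((-1)^s * (-1)^l) := by ring
  rw [h3] at h1
  calc (-1:R)^s = (-1)^s * ((-1)^l * (-1)^l) := by rw [h2, mul_one]
    _ = -(-((-1)^s * (-1)^l)) * (-1)^l := by ring
    _ = _ := by rw [h1]; ring

theorem dvd_cases {i m : ℕ} (i1 : 1 ≤ i) (m0 : 0 < m) (m1 : m < 10*i) :
    6*i ∣ 3*m ↔ (m = 2*i ∨ m = 4*i ∨ m = 6*i ∨ m = 8*i) := by
  constructor
  · rintro ⟨q, hq⟩
    have h1 : m = 2*i*q := by
      have : 3*m = 3*(2*i*q) := by rw [hq]; ring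
      omega
    have h2 : q < 5 := by
      by_contra hc
      have : 2*i*5 ≤ 2*i*q := Nat.mul_le_mul_left _ (by omega)
      omega
    interval_cases q <;> omega
  · rintro (h|h|h|h)
    · exact ⟨1, by rw [h]; ring⟩
    · exact ⟨2, by rw [h]; ring⟩
    · exact ⟨3, by rw [h]; ring⟩
    · exact ⟨4, by rw [h]; ring⟩

section
variable (p : ℕ) [hp : Fact p.Prime] {i : ℕ}

/-- the third value -/
def r3 (i l : ℕ) : ℕ := if l < 2*i then 2*i-l-1 else 8*i-l-1

theorem sum_pick (i1 : 1 ≤ i) {l : ℕ} (hl : l < 3*i) (f : ℕ → ZMod p) :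
    ∑ s ∈ range (6*i), (f s * if 6*i ∣ 3*(l+s+1) then (-1:ZMod p) else 0) =
      -(f (4*i-l-1) + f (6*i-l-1) + f (r3 i l)) := by
  have h1 : ∀ s ∈ range (6*i), (f s * if 6*i ∣ 3*(l+s+1) then (-1:ZMod p) else 0) =
      if s ∈ ({4*i-l-1, 6*i-l-1, r3 i l} : Finset ℕ) then -f s else 0 := by
    intro s hs
    rw [mem_range] at hs
    have : (6*i ∣ 3*(l+s+1)) ↔ s ∈ ({4*i-l-1, 6*i-l-1, r3 i l} : Finset ℕ) := by
      rw [dvd_cases i1 (by omega) (by omega), mem_insert, mem_insert, mem_singleton]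
      unfold r3
      split_ifs <;> omega
    by_cases h : 6*i ∣ 3*(l+s+1)
    · rw [if_pos h, if_pos (this.1 h)]; ring
    · rw [if_neg h, if_neg (fun h2 => h (this.2 h2)), mul_zero]
  rw [sum_congr rfl h1, sum_ite_mem]
  have h2 : range (6*i) ∩ ({4*i-l-1, 6*i-l-1, r3 i l} : Finset ℕ) = {4*i-l-1, 6*i-l-1, r3 i l} := by
    apply inter_eq_right.2
    intro s hs
    rw [mem_insert, mem_insert, mem_singleton] at hs
    rw [mem_range]
    unfold r3 at hs
    split_ifs at hs <;> omega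
  rw [h2, sum_insert, sum_insert, sum_singleton]
  · ring
  · rw [mem_singleton]
    unfold r3
    split_ifs <;> omega
  · rw [mem_insert, mem_singleton]
    unfold r3
    split_ifs <;> omega

/-- the second order term -/
def kap (B : ℕ) : ZMod p := ∑ x : ZMod p, (1+x^3)^B * ∑ s ∈ range (p-1), ((cs p (s+1) : ℕ) : ZMod p) * x^(3*(s+1))

theorem kap_eq (hi : p = 6*i+1) (i1 : 1 ≤ i) {B : ℕ} (hB : B + 1 = 3*i) :
    kap p B = ∑ l ∈ range (B+1), (-1)^l * ((B.choose l : ℕ) : ZMod p) *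
      ((((4*i-l : ℕ) : ZMod p))⁻¹ + (((6*i-l : ℕ) : ZMod p))⁻¹ +
        (if l < 2*i then (((2*i-l : ℕ) : ZMod p))⁻¹ else -(((l+1-2*i : ℕ) : ZMod p))⁻¹)) := by
  unfold kap
  have h1 : ∀ x : ZMod p, (1+x^3)^B * ∑ s ∈ range (p-1), ((cs p (s+1) : ℕ) : ZMod p) * x^(3*(s+1)) =
      ∑ l ∈ range (B+1), ∑ s ∈ range (p-1), ((B.choose l : ℕ) : ZMod p) * ((cs p (s+1) : ℕ) : ZMod p) * x^(3*(l+s+1)) := by
    intro x
    rw [add_comm (1:ZMod p), add_pow, sum_mul]
    refine sum_congr rfl fun l _ => ?_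
    rw [mul_sum]
    refine sum_congr rfl fun s _ => ?_
    rw [one_pow, mul_one, ← pow_mul, show 3*(l+s+1) = 3*l + 3*(s+1) by ring, pow_add]
    ring
  rw [sum_congr rfl (fun x _ => h1 x), sum_comm]
  refine sum_congr rfl fun l hl => ?_
  rw [mem_range] at hl
  rw [sum_comm]
  have h2 : ∀ s ∈ range (p-1), ∑ x : ZMod p, ((B.choose l : ℕ) : ZMod p) * ((cs p (s+1) : ℕ) : ZMod p) * x^(3*(l+s+1)) =
      ((B.choose l : ℕ) : ZMod p) * (((cs p (s+1) : ℕ) : ZMod p) * if 6*i ∣ 3*(l+s+1) then (-1:ZMod p) else 0) := by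
    intro s _
    rw [← mul_sum, pow_sum_zmod p (by omega), show p - 1 = 6*i by omega]
    ring
  rw [sum_congr rfl h2, ← mul_sum, show p - 1 = 6*i by omega, sum_pick p i1 (by omega)]
  have c1 : ((cs p (4*i-l-1+1) : ℕ) : ZMod p) = -(-1)^l * (((4*i-l : ℕ) : ZMod p))⁻¹ := by
    rw [cs_zmod p (by omega), sgn_flip (R := ZMod p) (l := l) (m := 2*i) (by omega), show 4*i-l-1+1 = 4*i-l by omega]
  have c2 : ((cs p (6*i-l-1+1) : ℕ) : ZMod p) = -(-1)^l * (((6*i-l : ℕ) : ZMod p))⁻¹ := by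
    rw [cs_zmod p (by omega), sgn_flip (R := ZMod p) (l := l) (m := 3*i) (by omega), show 6*i-l-1+1 = 6*i-l by omega]
  have c3 : ((cs p (r3 i l+1) : ℕ) : ZMod p) = -(-1)^l *
      (if l < 2*i then (((2*i-l : ℕ) : ZMod p))⁻¹ else -(((l+1-2*i : ℕ) : ZMod p))⁻¹) := by
    unfold r3
    split_ifs with h
    · rw [cs_zmod p (by omega), sgn_flip (R := ZMod p) (l := l) (m := i) (by omega), show 2*i-l-1+1 = 2*i-l by omega]
    · rw [cs_zmod p (by omega), sgn_flip (R := ZMod p) (l := l) (m := 4*i) (by omega), show 8*i-l-1+1 = 8*i-l by omega]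
      have : ((8*i-l : ℕ) : ZMod p) = -((l+1-2*i : ℕ) : ZMod p) := by
        have e : ((8*i-l + (l+1-2*i) : ℕ) : ZMod p) = 0 := by
          rw [show 8*i-l+(l+1-2*i) = p by omega, ZMod.natCast_self]
        rw [Nat.cast_add] at e
        linear_combination e
      rw [this, inv_neg]
  rw [c1, c2, c3]
  ring

/-- rational version -/
def kq (i B : ℕ) : ℚ := ∑ l ∈ range (B+1), (-1:ℚ)^l * ((B.choose l : ℕ) : ℚ) *
      (1/((4*i-l : ℕ) : ℚ) + 1/((6*i-l : ℕ) : ℚ) +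
        (if l < 2*i then 1/((2*i-l : ℕ) : ℚ) else -(1/((l+1-2*i : ℕ) : ℚ))))

theorem nd {m : ℕ} (h0 : 0 < m) (h1 : m < p) : ¬ p ∣ m := fun h => absurd (Nat.le_of_dvd h0 h) (by omega)

theorem Br_neg {r : ℚ} {z : ZMod p} (h : Br p r z) : Br p (-r) (-z) := by
  have := (Br.ofInt (p := p) 0).sub h
  simpa using this

theorem Br_kq (hi : p = 6*i+1) (i1 : 1 ≤ i) {B : ℕ} (hB : B + 1 = 3*i) : Br p (kq i B) (kap p B) := by
  rw [kap_eq p hi i1 hB]
  unfold kq
  refine Br.sum _ _ _ fun l hl => ?_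
  rw [mem_range] at hl
  have b1 : Br p ((-1:ℚ)^l) ((-1)^l) := by
    have := (Br.ofInt (p := p) (-1)).pow l
    simpa using this
  have b2 : Br p (((B.choose l : ℕ) : ℚ)) (((B.choose l : ℕ) : ZMod p)) := by
    have := Br.ofInt (p := p) ((B.choose l : ℕ) : ℤ)
    simpa using this
  refine (b1.mul b2).mul (((Br.inv (nd p (by omega) (by omega))).add (Br.inv (nd p (by omega) (by omega)))).add ?_)
  split_ifs with h
  · exact Br.inv (nd p (by omega) (by omega))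
  · exact Br_neg p (Br.inv (nd p (by omega) (by omega)))

end

/-- evaluation of `kq` -/
theorem kq_eval {i B : ℕ} (i1 : 1 ≤ i) (hB : B + 1 = 3*i) :
    3*(i:ℚ) * kq i B = (-1)^B / ((4*i).choose (3*i) : ℕ) + (-1)^B / ((6*i).choose (3*i) : ℕ) - CC i * (om i + 1) := by
  have e4 := En (N := B) (n := 4*i) (by omega)
  have e6 := En (N := B) (n := 6*i) (by omega)
  have a1 := AAid B (2*i) (by omega)
  have a2 := AAid B i (by omega)
  have hBq : (B:ℚ) + 1 = 3*i := by exact_mod_cast hB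
  rw [hB] at e4 e6
  rw [hBq] at e4 e6
  have h4 : ∑ l ∈ range (3*i), (-1:ℚ)^l * (B.choose l : ℕ) * (1/((4*i-l : ℕ) : ℚ)) =
      (-1)^B / (3*i * ((4*i).choose (3*i) : ℕ)) := by
    rw [← e4]
    refine sum_congr rfl fun l hl => ?_
    rw [mem_range] at hl
    rw [Nat.cast_sub (by omega)]
  have h6 : ∑ l ∈ range (3*i), (-1:ℚ)^l * (B.choose l : ℕ) * (1/((6*i-l : ℕ) : ℚ)) =
      (-1)^B / (3*i * ((6*i).choose (3*i) : ℕ)) := by
    rw [← e6]
    refine sum_congr rfl fun l hl => ?_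
    rw [mem_range] at hl
    rw [Nat.cast_sub (by omega)]
  have h2 : ∑ l ∈ range (3*i), (-1:ℚ)^l * (B.choose l : ℕ) *
      (if l < 2*i then 1/((2*i-l : ℕ) : ℚ) else -(1/((l+1-2*i : ℕ) : ℚ))) =
      ∑ l ∈ range (2*i), (-1:ℚ)^l * (B.choose l : ℕ) * (1/(((2*i:ℕ):ℚ) - (l:ℚ))) +
      ∑ l ∈ range i, (-1:ℚ)^B * ((-1)^(l+1) * (B.choose l : ℕ) * (1/((i:ℚ) - (l:ℚ)))) := by
    rw [show 3*i = 2*i + i by ring, sum_range_add]
    congr 1
    · refine sum_congr rfl fun l hl => ?_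
      rw [mem_range] at hl
      rw [if_pos hl, Nat.cast_sub (by omega)]
    · rw [← sum_range_reflect]
      refine sum_congr rfl fun l hl => ?_
      rw [mem_range] at hl
      rw [if_neg (by omega), show 2*i + (i-1-l) = B - l by omega, show B - l + 1 - 2*i = i - l by omega,
        Nat.choose_symm (by omega : l ≤ B), Nat.cast_sub (by omega : l ≤ i)]
      have : (-1:ℚ)^(B-l) = (-1)^B * (-1)^l := by
        obtain ⟨c, hc⟩ : ∃ c, B = l + c := ⟨B-l, by omega⟩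
        rw [hc, show l + c - l = c by omega, pow_add]
        have : (-1:ℚ)^l * (-1)^l = 1 := by rw [← mul_pow]; norm_num
        linear_combination (-(-1:ℚ)^c) * this
      rw [this]
      ring
  have hk : kq i B = (-1)^B / (3*i * ((4*i).choose (3*i) : ℕ)) + (-1)^B / (3*i * ((6*i).choose (3*i) : ℕ)) +
     ((-1)^(2*i+1) * (B.choose (2*i) : ℕ) * (Hs 1 B - Hs 1 (B-2*i)) +
       (-1)^B * (-((-1)^(i+1) * (B.choose i : ℕ) * (Hs 1 B - Hs 1 (B-i))))) := by
    rw [← h4, ← h6, ← a1, ← a2]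
    have h3 : (-1:ℚ)^B * (-∑ l ∈ range i, (-1:ℚ)^l * (B.choose l : ℕ) * (1/((i:ℚ) - (l:ℚ)))) =
       ∑ l ∈ range i, (-1:ℚ)^B * ((-1)^(l+1) * (B.choose l : ℕ) * (1/((i:ℚ) - (l:ℚ)))) := by
      rw [← sum_neg_distrib, mul_sum]
      refine sum_congr rfl fun l _ => ?_
      ring
    rw [h3, ← h2, ← sum_add_distrib, ← sum_add_distrib]
    unfold kq
    rw [hB]
    refine sum_congr rfl fun l _ => ?_
    ring
  have hi0 : (i:ℚ) ≠ 0 := by positivity
  have g1 : (3*(i:ℚ)) * (B.choose (2*i) : ℕ) = i * CC i := by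
    have h5 : (3*i) * (B.choose (2*i)) = i * ((3*i).choose (2*i)) := by
      have h7 := Nat.choose_mul_succ_eq B (2*i)
      rw [hB, show 3*i-2*i = i by omega] at h7
      rw [mul_comm, h7, mul_comm]
    have h8 : CC i = (((3*i).choose (2*i) : ℕ) : ℚ) := by
      unfold CC
      rw [Nat.cast_choose ℚ (by omega : 2*i ≤ 3*i), show 3*i-2*i = i by omega, mul_comm (i.factorial : ℚ)]
    rw [h8]
    exact_mod_cast h5
  have g2 : (3*(i:ℚ)) * (B.choose i : ℕ) = 2 * i * CC i := by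
    have h5 : (3*i) * (B.choose i) = (2*i) * ((3*i).choose i) := by
      have h7 := Nat.choose_mul_succ_eq B i
      rw [hB, show 3*i-i = 2*i by omega] at h7
      rw [mul_comm, h7, mul_comm]
    have h8 : CC i = (((3*i).choose i : ℕ) : ℚ) := by
      unfold CC
      rw [Nat.cast_choose ℚ (by omega : i ≤ 3*i), show 3*i-i = 2*i by omega]
    rw [h8]
    exact_mod_cast h5
  have s1 : (-1:ℚ)^(2*i+1) = -1 := by rw [pow_succ, pow_mul]; norm_num
  have s2 : (-1:ℚ)^B * (-1)^(i+1) = 1 := by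
    rw [← pow_add, show B + (i+1) = 2*(2*i) by omega, pow_mul]; norm_num
  have t1 : Hs 1 (3*i) = Hs 1 B + 1/(3*(i:ℚ)) := by
    rw [← hB, Hs_succ, pow_one, hBq]
  have t2 : Hs 1 i = Hs 1 (i-1) + 1/(i:ℚ) := by
    conv_lhs => rw [show i = (i-1)+1 by omega]
    rw [Hs_succ, pow_one, Nat.cast_sub i1]
    congr 2
    push_cast
    ring
  have t3 : Hs 1 (2*i) = Hs 1 (2*i-1) + 1/(2*(i:ℚ)) := by
    conv_lhs => rw [show 2*i = (2*i-1)+1 by omega]
    rw [Hs_succ, pow_one, Nat.cast_sub (by omega)]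
    congr 2
    push_cast
    ring
  rw [hk, s1, show B - 2*i = i-1 by omega, show B - i = 2*i-1 by omega]
  have ho : om i + 1 = i*(Hs 1 B - Hs 1 (i-1)) + 2*i*(Hs 1 B - Hs 1 (2*i-1)) := by
    unfold om
    rw [t1, t2, t3]
    field_simp
    ring
  rw [ho]
  have c4 : (((4*i).choose (3*i) : ℕ) : ℚ) ≠ 0 := by
    have := Nat.choose_pos (show 3*i ≤ 4*i by omega)
    positivity
  have c6 : (((6*i).choose (3*i) : ℕ) : ℚ) ≠ 0 := by
    have := Nat.choose_pos (show 3*i ≤ 6*i by omega)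
    positivity
  have f4 : 3*(i:ℚ) * ((-1)^B / (3*i * ((4*i).choose (3*i) : ℕ))) = (-1)^B / ((4*i).choose (3*i) : ℕ) := by
    field_simp
  have f6 : 3*(i:ℚ) * ((-1)^B / (3*i * ((6*i).choose (3*i) : ℕ))) = (-1)^B / ((6*i).choose (3*i) : ℕ) := by
    field_simp
  rw [mul_add, mul_add, f4, f6]
  linear_combination (-(Hs 1 B - Hs 1 (i-1))) * g1 - (Hs 1 B - Hs 1 (2*i-1)) * g2 -
    3*(i:ℚ)*(B.choose i : ℕ)*(Hs 1 B - Hs 1 (2*i-1)) * s2

end Pool.Agent.N926.F54
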